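import Pool.Agent.Helper50.FS.Defs

/-!
FS-Ortho. Orthogonality of the twisted products for different odd sets.

If `odd B A n ≠ odd B A m` there is `p ∈ B ⊆ P` for which exactly one of the sums
`∑_a (n+a).factorization p`, `∑_a (m+a).factorization p` is odd. The map `r ↦ r'` changing the sign
of `r p` preserves the measure `signs`, and the integrand changes its sign under it.
-/

open Filter Topology MeasureTheory

namespace Pool.Agent.Helper50.FS

private theorem measSet_units (s : Set ℤˣ) : MeasurableSet s := by
  refine ⟨Units.val '' s, trivial, ?_⟩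
  exact Set.preimage_image_eq s Units.val_injective

private theorem meas_of_units {Z : Type*} [MeasurableSpace Z] (f : ℤˣ → Z) : Measurable f :=
  fun _ _ => measSet_units _

open Classical in
theorem measurable_twist (P : Set ℕ) (u : ℕ → ℤˣ) (n : ℕ) :
    Measurable (fun r : ℕ → ℤˣ => sg (twist P u r n)) := by
  have h1 : Measurable (fun r : ℕ → ℤˣ => twist P u r n) := by
    have _i : DiscreteMeasurableSpace ℤˣ := ⟨measSet_units⟩
    have _j : MeasurableMul₂ ℤˣ := inferInstance
    unfold twist
    have h2 : ∀ p ∈ (n.primeFactors.filter (fun p => p ∈ P)),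
        Measurable (fun r : ℕ → ℤˣ => r p ^ n.factorization p) := by
      intro p _
      exact (meas_of_units (fun x : ℤˣ => x ^ n.factorization p)).comp
        (measurable_pi_apply p)
    exact (meas_of_units (fun x : ℤˣ => u n * x)).comp (Finset.measurable_fun_prod _ h2)
  exact (meas_of_units (fun x : ℤˣ => sg x)).comp h1

theorem abs_sg (e : ℤˣ) : |sg e| = 1 := by
  unfold sg
  rcases Int.units_eq_one_or e with h | h <;> simp [h]

private theorem sg_mul (x y : ℤˣ) : sg (x * y) = sg x * sg y := by
  unfold sg
  push_cast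
  ring

private theorem sg_negOne_pow (k : ℕ) : sg ((-1) ^ k) = (-1) ^ k := by
  unfold sg
  push_cast
  ring

/-- change the sign at `p` -/
private def flip (p : ℕ) (r : ℕ → ℤˣ) : ℕ → ℤˣ := fun q => if q = p then -r q else r q

private theorem flip_flip (p : ℕ) (r : ℕ → ℤˣ) : flip p (flip p r) = r := by
  funext q
  unfold flip
  split_ifs <;> simp

private theorem measurable_flip (p : ℕ) : Measurable (flip p) := by
  refine measurable_pi_lambda _ fun q => ?_
  unfold flip
  exact (meas_of_units (fun x : ℤˣ => if q = p then -x else x)).comp (measurable_pi_apply q)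

private theorem half_neg : half.map (fun x => -x) = half := by
  unfold half
  have hm : Measurable (fun x : ℤˣ => -x) := meas_of_units _
  rw [Measure.map_smul, Measure.map_add _ _ hm, Measure.map_dirac' hm, Measure.map_dirac' hm,
    neg_neg, add_comm]

private theorem map_flip (p : ℕ) : signs.map (flip p) = signs := by
  unfold signs
  have h := Measure.infinitePi_map_pi (μ := fun _ : ℕ => half)
    (f := fun q x => if q = p then -x else x)
    (fun q => meas_of_units _)
  have h2 : (fun q : ℕ => half.map (fun x : ℤˣ => if q = p then -x else x)) =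
      fun _ : ℕ => half := by
    funext q
    by_cases hq : q = p
    · simp only [hq, if_true]
      exact half_neg
    · simp only [hq, if_false]
      exact Measure.map_id
  have h3 : (fun (x : ℕ → ℤˣ) (i : ℕ) => if i = p then -x i else x i) = flip p := rfl
  rw [h3] at h
  rw [h]
  exact congrArg _ h2

/-- the flip as a measurable equivalence -/
private def flipE (p : ℕ) : (ℕ → ℤˣ) ≃ᵐ (ℕ → ℤˣ) where
  toFun := flip p
  invFun := flip p
  left_inv := flip_flip p
  right_inv := flip_flip p
  measurable_toFun := measurable_flip p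
  measurable_invFun := measurable_flip p

private theorem twist_flip (P : Set ℕ) (u : ℕ → ℤˣ) (p : ℕ) (hp : p ∈ P) (r : ℕ → ℤˣ) (k : ℕ) :
    twist P u (flip p r) k = twist P u r k * (-1) ^ k.factorization p := by
  classical
  unfold twist
  rw [mul_assoc]
  congr 1
  have h1 : ∀ q ∈ k.primeFactors.filter (fun q => q ∈ P),
      flip p r q ^ k.factorization q = r q ^ k.factorization q *
        (if q = p then (-1) ^ k.factorization p else 1) := by
    intro q _
    unfold flip
    by_cases hq : q = p
    · subst hq
      simp only [if_true]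
      rw [← mul_pow, mul_neg_one]
    · simp only [hq, if_false, mul_one]
  rw [Finset.prod_congr rfl h1, Finset.prod_mul_distrib]
  congr 1
  rw [Finset.prod_ite_eq']
  split_ifs with hc
  · rfl
  · have : p ∉ k.factorization.support := by
      intro hs
      apply hc
      rw [Finset.mem_filter]
      exact ⟨by rwa [Nat.support_factorization] at hs, hp⟩
    rw [Finsupp.notMem_support_iff.1 this, pow_zero]

private theorem prod_flip (P : Set ℕ) (u : ℕ → ℤˣ) (p : ℕ) (hp : p ∈ P) (A : Finset ℕ)
    (r : ℕ → ℤˣ) (n : ℕ) :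
    ∏ a ∈ A, sg (twist P u (flip p r) (n + a)) =
      (-1) ^ (∑ a ∈ A, (n + a).factorization p) * ∏ a ∈ A, sg (twist P u r (n + a)) := by
  rw [← Finset.prod_pow_eq_pow_sum, ← Finset.prod_mul_distrib]
  refine Finset.prod_congr rfl fun a _ => ?_
  rw [twist_flip P u p hp, sg_mul, sg_negOne_pow, mul_comm]

theorem ortho (P : Set ℕ) (hP : ∀ p ∈ P, p.Prime) (u : ℕ → ℤˣ) (B A : Finset ℕ)
    (hB : ∀ p ∈ B, p ∈ P) (n m : ℕ) (hn : 1 ≤ n) (hm : 1 ≤ m) (h : odd B A n ≠ odd B A m) :
    ∫ r, (∏ a ∈ A, sg (twist P u r (n + a))) * (∏ a ∈ A, sg (twist P u r (m + a))) ∂signs = 0 := by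
  have hex : ∃ p ∈ B, ¬ (Odd (∑ a ∈ A, (n + a).factorization p) ↔
      Odd (∑ a ∈ A, (m + a).factorization p)) := by
    by_contra hc
    push Not at hc
    apply h
    unfold odd
    exact Finset.filter_congr hc
  obtain ⟨p, hpB, hp⟩ := hex
  have hs : ((-1 : ℝ) ^ (∑ a ∈ A, (n + a).factorization p)) *
      ((-1) ^ (∑ a ∈ A, (m + a).factorization p)) = -1 := by
    rw [← pow_add]
    refine Odd.neg_one_pow ?_
    rw [Nat.odd_add, ← Nat.not_odd_iff_even]
    tauto
  have hmp : MeasurePreserving (flipE p) signs signs := ⟨measurable_flip p, map_flip p⟩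
  have hI := hmp.integral_comp' (g := fun r : ℕ → ℤˣ =>
    (∏ a ∈ A, sg (twist P u r (n + a))) * (∏ a ∈ A, sg (twist P u r (m + a))))
  have hneg : ∀ r : ℕ → ℤˣ,
      (∏ a ∈ A, sg (twist P u (flipE p r) (n + a))) * (∏ a ∈ A, sg (twist P u (flipE p r) (m + a)))
        = -((∏ a ∈ A, sg (twist P u r (n + a))) * (∏ a ∈ A, sg (twist P u r (m + a)))) := by
    intro r
    have h1 := prod_flip P u p (hB p hpB) A r n
    have h2 := prod_flip P u p (hB p hpB) A r m
    change (∏ a ∈ A, sg (twist P u (flip p r) (n + a))) *
      (∏ a ∈ A, sg (twist P u (flip p r) (m + a))) = _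
    rw [h1, h2]
    linear_combination ((∏ a ∈ A, sg (twist P u r (n + a))) *
      (∏ a ∈ A, sg (twist P u r (m + a)))) * hs
  simp only [hneg] at hI
  rw [integral_neg] at hI
  linarith

end Pool.Agent.Helper50.FS
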