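import Pool.Agent.Helper50.FS.Defs

/-!
FS-Shift. Correlations with integer shifts from those with nonnegative shifts.

Plan. `corr_of_ncorr`: choose `t : ℕ` with `0 ≤ a + t` for all `a ∈ A`, let
`A' : Finset ℕ` be the image of `A` under `a ↦ (a+t).toNat`. Then for `n ≥ 1` the product over `A'`
at `n` is the product over `A` at `n+t`. Hence
`log N * ncorr u A' N = ∑_{n=1}^N F(n+t)/n` with `F(m) = ∏ a ∈ A, sg (pt u (a+m))`, `|F| ≤ 1`,
and `log N * corr u A N = ∑_{m=1}^N F(m)/m`. The difference is at most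
`∑_{m ≤ t} 1/m + ∑_{m=N+1}^{N+t} 1/m + ∑_{n=1}^{N} (1/n - 1/(n+t)) ≤ 3 (t + 1)^2`, say (the last
sum telescopes or is `≤ t ∑ 1/n^2 ≤ 2t`); divided by `log N` it tends to `0`.
`ncorr_eq_corr`: for `n ≥ 1` and `a ≥ 0` one has `pt u (a+n) = u (n+a)`.
-/

open Filter Topology MeasureTheory

namespace Pool.Agent.Helper50.FS

private theorem abs_sg (e : ℤˣ) : |sg e| = 1 := by
  rcases Int.units_eq_one_or e with rfl | rfl
  · simp [sg]
  · simp [sg]

private theorem step_one (G : ℕ → ℝ) (hG : ∀ n, |G n| ≤ 1) (N : ℕ) (hN : 1 ≤ N) :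
    |(∑ n ∈ Finset.Icc 1 N, G (n + 1) / n - ∑ n ∈ Finset.Icc 1 N, G n / n) - G (N + 1) / N|
      ≤ 2 - 1 / N := by
  induction N, hN using Nat.le_induction with
  | base =>
    have h1 : (∑ n ∈ Finset.Icc 1 1, G (n + 1) / n - ∑ n ∈ Finset.Icc 1 1, G n / n)
        - G (1 + 1) / ((1 : ℕ) : ℝ) = -G 1 := by
      simp
    rw [h1, abs_neg]
    have := hG 1
    norm_num
    exact this
  | succ N hN ih =>
    rw [Finset.sum_Icc_succ_top (by omega), Finset.sum_Icc_succ_top (by omega)]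
    have hN0 : (0 : ℝ) < N := by exact_mod_cast hN
    have h1 : (∑ n ∈ Finset.Icc 1 N, G (n + 1) / n + G (N + 1 + 1) / ((N + 1 : ℕ) : ℝ)
        - (∑ n ∈ Finset.Icc 1 N, G n / n + G (N + 1) / ((N + 1 : ℕ) : ℝ)))
        - G (N + 1 + 1) / ((N + 1 : ℕ) : ℝ)
        = ((∑ n ∈ Finset.Icc 1 N, G (n + 1) / n - ∑ n ∈ Finset.Icc 1 N, G n / n)
          - G (N + 1) / N) + G (N + 1) * (1 / N - 1 / ((N + 1 : ℕ) : ℝ)) := by
      ring
    rw [h1]
    have h2 : (0 : ℝ) ≤ 1 / N - 1 / ((N + 1 : ℕ) : ℝ) := by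
      rw [sub_nonneg]
      apply one_div_le_one_div_of_le hN0
      push_cast
      linarith
    calc |((∑ n ∈ Finset.Icc 1 N, G (n + 1) / n - ∑ n ∈ Finset.Icc 1 N, G n / n)
          - G (N + 1) / N) + G (N + 1) * (1 / N - 1 / ((N + 1 : ℕ) : ℝ))|
        ≤ |(∑ n ∈ Finset.Icc 1 N, G (n + 1) / n - ∑ n ∈ Finset.Icc 1 N, G n / n)
          - G (N + 1) / N| + |G (N + 1) * (1 / N - 1 / ((N + 1 : ℕ) : ℝ))| := abs_add_le _ _
      _ ≤ (2 - 1 / N) + 1 * (1 / N - 1 / ((N + 1 : ℕ) : ℝ)) := by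
          rw [abs_mul, abs_of_nonneg h2]
          exact add_le_add ih (mul_le_mul_of_nonneg_right (hG _) h2)
      _ = 2 - 1 / ((N + 1 : ℕ) : ℝ) := by ring

private theorem step_two (G : ℕ → ℝ) (hG : ∀ n, |G n| ≤ 1) (N : ℕ) :
    |∑ n ∈ Finset.Icc 1 N, G (n + 1) / n - ∑ n ∈ Finset.Icc 1 N, G n / n| ≤ 2 := by
  rcases Nat.eq_zero_or_pos N with rfl | hN
  · simp
  have h1 := step_one G hG N hN
  have hN0 : (0 : ℝ) < N := by exact_mod_cast hN
  have h2 : |G (N + 1) / N| ≤ 1 / N := by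
    rw [abs_div, abs_of_pos hN0]
    exact div_le_div_of_nonneg_right (hG _) hN0.le
  calc |∑ n ∈ Finset.Icc 1 N, G (n + 1) / n - ∑ n ∈ Finset.Icc 1 N, G n / n|
      = |((∑ n ∈ Finset.Icc 1 N, G (n + 1) / n - ∑ n ∈ Finset.Icc 1 N, G n / n) - G (N + 1) / N)
        + G (N + 1) / N| := by rw [sub_add_cancel]
    _ ≤ (2 - 1 / N) + 1 / N := (abs_add_le _ _).trans (add_le_add h1 h2)
    _ = 2 := by ring

private theorem step_all (F : ℕ → ℝ) (hF : ∀ n, |F n| ≤ 1) (t N : ℕ) :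
    |∑ n ∈ Finset.Icc 1 N, F (n + t) / n - ∑ n ∈ Finset.Icc 1 N, F n / n| ≤ 2 * t := by
  induction t with
  | zero => simp
  | succ t ih =>
    have h1 := step_two (fun n => F (n + t)) (fun n => hF _) N
    have h2 : ∀ n : ℕ, n + 1 + t = n + (t + 1) := fun n => by omega
    simp only [h2] at h1
    calc |∑ n ∈ Finset.Icc 1 N, F (n + (t + 1)) / n - ∑ n ∈ Finset.Icc 1 N, F n / n|
        = |(∑ n ∈ Finset.Icc 1 N, F (n + (t + 1)) / n - ∑ n ∈ Finset.Icc 1 N, F (n + t) / n)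
          + (∑ n ∈ Finset.Icc 1 N, F (n + t) / n - ∑ n ∈ Finset.Icc 1 N, F n / n)| := by
            rw [sub_add_sub_cancel]
      _ ≤ 2 + 2 * t := (abs_add_le _ _).trans (add_le_add h1 ih)
      _ = 2 * ((t + 1 : ℕ) : ℝ) := by push_cast; ring

private theorem pt_pos (u : ℕ → ℤˣ) {z : ℤ} {m : ℕ} (hz : z = m) (hm : 0 < m) : pt u z = u m := by
  subst hz
  unfold pt
  rw [if_pos (by exact_mod_cast hm), Int.toNat_natCast]

theorem corr_of_ncorr (u : ℕ → ℤˣ) (l : Filter ℕ) (hl : l ≤ atTop)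
    (h : ∀ A : Finset ℕ, A.Nonempty → Tendsto (ncorr u A) l (𝓝 0))
    (A : Finset ℤ) (hA : A.Nonempty) : Tendsto (corr u A) l (𝓝 0) := by
  classical
  obtain ⟨t, ht⟩ : ∃ t : ℕ, ∀ a ∈ A, 0 ≤ a + t := by
    refine ⟨∑ a ∈ A, a.natAbs, fun a ha => ?_⟩
    have h1 : a.natAbs ≤ ∑ a ∈ A, a.natAbs :=
      Finset.single_le_sum (f := fun a : ℤ => a.natAbs) (fun _ _ => Nat.zero_le _) ha
    omega
  set A' : Finset ℕ := A.image (fun a : ℤ => (a + (t : ℤ)).toNat) with hA'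
  set F : ℕ → ℝ := fun m => ∏ a ∈ A, sg (pt u (a + m)) with hFdef
  have hF : ∀ m, |F m| ≤ 1 := by
    intro m
    rw [hFdef]
    simp only
    rw [Finset.abs_prod]
    simp only [abs_sg, Finset.prod_const_one, le_refl]
  have hncorr : ∀ N, ncorr u A' N = (1 / Real.log N) * ∑ n ∈ Finset.Icc 1 N, F (n + t) / n := by
    intro N
    unfold ncorr
    congr 1
    refine Finset.sum_congr rfl fun n hn => ?_
    have hn1 : 1 ≤ n := (Finset.mem_Icc.1 hn).1
    congr 1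
    rw [hA', Finset.prod_image]
    · rw [hFdef]
      refine Finset.prod_congr rfl fun a ha => ?_
      have h1 := ht a ha
      rw [pt_pos u (m := n + (a + (t : ℤ)).toNat) (by push_cast; omega) (by omega)]
    · intro a ha b hb hab
      have h1 := ht a ha
      have h2 := ht b hb
      have h3 : (a + (t : ℤ)).toNat = (b + (t : ℤ)).toNat := hab
      omega
  have hlog : Tendsto (fun N : ℕ => (2 * (t : ℝ)) / Real.log N) atTop (𝓝 0) :=
    Tendsto.div_atTop tendsto_const_nhds (Real.tendsto_log_atTop.comp tendsto_natCast_atTop_atTop)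
  have hdiff : Tendsto (fun N => corr u A N - ncorr u A' N) atTop (𝓝 0) := by
    refine squeeze_zero_norm' ?_ hlog
    filter_upwards [eventually_ge_atTop 1] with N hN
    have hlogN : 0 ≤ Real.log N := Real.log_nonneg (by exact_mod_cast hN)
    rw [hncorr]
    unfold corr
    rw [← mul_sub, norm_mul, Real.norm_eq_abs, Real.norm_eq_abs, abs_of_nonneg (by positivity),
      abs_sub_comm, one_div, inv_mul_eq_div]
    exact div_le_div_of_nonneg_right (step_all F hF t N) hlogN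
  have h1 := (hdiff.mono_left hl).add (h A' (by rw [hA']; exact hA.image _))
  simpa using h1

theorem ncorr_eq_corr (u : ℕ → ℤˣ) (A : Finset ℕ) (N : ℕ) :
    ncorr u A N = corr u (A.map Nat.castEmbedding) N := by
  unfold ncorr corr
  congr 1
  refine Finset.sum_congr rfl fun n hn => ?_
  have hn1 : 1 ≤ n := (Finset.mem_Icc.1 hn).1
  congr 1
  rw [Finset.prod_map]
  refine Finset.prod_congr rfl fun a _ => ?_
  rw [pt_pos u (m := n + a) (by rw [Nat.castEmbedding_apply]; push_cast; ring) (by omega)]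

end Pool.Agent.Helper50.FS
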