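import Pool.Agent.Helper50.FS.BernCorr
import Pool.Agent.Helper50.FS.Shift

/-!
FS-BernIff (proved from BernCorr and Shift).
-/

open Filter Topology MeasureTheory

namespace Pool.Agent.Helper50.FS

theorem bernAlong_iff (u : ℕ → ℤˣ) (l : Filter ℕ) (hl : l ≤ atTop) :
    BernAlong u l ↔ ∀ A : Finset ℕ, A.Nonempty → Tendsto (ncorr u A) l (𝓝 0) := by
  constructor
  · intro h A hA
    have h1 := corr_of_bernAlong u l h (A.map Nat.castEmbedding) (by simpa using hA)
    refine h1.congr fun N => (ncorr_eq_corr u A N).symm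
  · intro h
    exact bernAlong_of_corr u l hl (corr_of_ncorr u l hl h)

end Pool.Agent.Helper50.FS
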