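import Pool.Agent.Helper50.FS.Defs

/-!
FS-PerOrtho. If all correlations of `u` vanish then they vanish against periodic weights.

Plan. Let `F n = ∏ a ∈ A, sg (u (n+a))` and let `q ≥ 1` be a period of `g`, `|g| ≤ K`. Let `h = q m`
with `m > max A` (so `h > a` for all `a ∈ A`). For `H ≥ 1`: for bounded `φ` one has
`(1/log N) ∑_{n ≤ N} (φ(n+k) - φ(n))/n → 0` for each fixed `k` (shift lemma, as in FS-Shift). Hence
`E_N F g = (1/H) ∑_{i<H} E_N F(·+ih) g(·+ih) + o(1) = E_N [g(n) (1/H) ∑_{i<H} F(n+ih)] + o(1)`, and by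
Cauchy-Schwarz its absolute value is at most
`K (E_N 1)^(1/2) (E_N |(1/H) ∑_{i<H} F(n+ih)|^2)^(1/2) + o(1)`. Expand the square: the diagonal
gives `1/H`, the off-diagonal terms are `(1/H^2) ∑_{i ≠ i'} E_N F(n+ih) F(n+i'h)`, and for `i < i'`,
`F(n+ih) F(n+i'h) = ∏_{b ∈ (A+ih) ∪ (A+i'h)} sg (u (n+b))`, a disjoint union because
`h > max A`; this is `ncorr u (…) N → 0`. So `limsup |E_N F g| ≤ K H^(-1/2)` for every `H`.
-/

open Filter Topology MeasureTheory

namespace Pool.Agent.Helper50.FS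

namespace PerOrtho

/-- Logarithmic averages of a real sequence. -/
noncomputable def L (φ : ℕ → ℝ) (N : ℕ) : ℝ :=
  (1 / Real.log N) * ∑ n ∈ Finset.Icc 1 N, φ n / n

lemma L_sub (φ ψ : ℕ → ℝ) (N : ℕ) : L (fun n => φ n - ψ n) N = L φ N - L ψ N := by
  unfold L
  rw [← mul_sub, ← Finset.sum_sub_distrib]
  congr 1
  exact Finset.sum_congr rfl fun n _ => by ring

lemma L_smul (c : ℝ) (φ : ℕ → ℝ) (N : ℕ) : L (fun n => c * φ n) N = c * L φ N := by
  unfold L
  have h : ∑ n ∈ Finset.Icc 1 N, c * φ n / n = c * ∑ n ∈ Finset.Icc 1 N, φ n / n := by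
    rw [Finset.mul_sum]
    exact Finset.sum_congr rfl fun n _ => by ring
  rw [h]
  ring

lemma L_sum {ι : Type*} (s : Finset ι) (φ : ι → ℕ → ℝ) (N : ℕ) :
    L (fun n => ∑ i ∈ s, φ i n) N = ∑ i ∈ s, L (φ i) N := by
  unfold L
  rw [← Finset.mul_sum]
  congr 1
  rw [Finset.sum_comm]
  exact Finset.sum_congr rfl fun n _ => by rw [Finset.sum_div]

lemma sum_telescope (N : ℕ) (hN : 1 ≤ N) :
    ∑ m ∈ Finset.Icc 2 N, (1 / ((m : ℝ) - 1) - 1 / m) ≤ 1 := by
  have h : ∑ m ∈ Finset.Icc 2 N, (1 / ((m : ℝ) - 1) - 1 / m) = 1 - 1 / N := by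
    induction N, hN using Nat.le_induction with
    | base => simp
    | succ n hn ih =>
      rw [Finset.sum_Icc_succ_top (by omega), ih]
      push_cast
      rw [add_sub_cancel_right]
      ring
  rw [h]
  have : (0 : ℝ) ≤ 1 / N := by positivity
  linarith

lemma shift_one_bound (φ : ℕ → ℝ) (K : ℝ) (hK : ∀ n, |φ n| ≤ K) (N : ℕ) (hN : 1 ≤ N) :
    |∑ n ∈ Finset.Icc 1 N, φ (n + 1) / n - ∑ n ∈ Finset.Icc 1 N, φ n / n| ≤ 3 * K := by
  have hK0 : 0 ≤ K := (abs_nonneg _).trans (hK 0)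
  have h1 : ∑ n ∈ Finset.Icc 1 N, φ (n + 1) / n =
      ∑ m ∈ Finset.Icc 2 N, φ m / ((m : ℝ) - 1) + φ (N + 1) / N := by
    clear hK hK0
    induction N, hN using Nat.le_induction with
    | base => simp
    | succ n hn ih =>
      rw [Finset.sum_Icc_succ_top (by omega), ih, Finset.sum_Icc_succ_top (a := 2) (by omega)]
      push_cast
      ring_nf
  have h2 : ∑ n ∈ Finset.Icc 1 N, φ n / n = φ 1 + ∑ m ∈ Finset.Icc 2 N, φ m / (m : ℝ) := by
    rw [← Finset.sum_Ioc_add_eq_sum_Icc (f := fun n : ℕ => φ n / (n : ℝ)) hN]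
    have : Finset.Ioc 1 N = Finset.Icc 2 N := by
      ext x
      simp only [Finset.mem_Ioc, Finset.mem_Icc]
      omega
    rw [this]
    simp
    ring
  rw [h1, h2]
  have h3 : ∑ m ∈ Finset.Icc 2 N, φ m / ((m : ℝ) - 1) + φ (N + 1) / N -
      (φ 1 + ∑ m ∈ Finset.Icc 2 N, φ m / (m : ℝ)) =
      ∑ m ∈ Finset.Icc 2 N, φ m * (1 / ((m : ℝ) - 1) - 1 / m) + φ (N + 1) / N - φ 1 := by
    have : ∑ m ∈ Finset.Icc 2 N, φ m * (1 / ((m : ℝ) - 1) - 1 / m) =
        ∑ m ∈ Finset.Icc 2 N, φ m / ((m : ℝ) - 1) - ∑ m ∈ Finset.Icc 2 N, φ m / (m : ℝ) := by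
      rw [← Finset.sum_sub_distrib]
      exact Finset.sum_congr rfl fun m _ => by ring
    rw [this]
    ring
  rw [h3]
  have h4 : |∑ m ∈ Finset.Icc 2 N, φ m * (1 / ((m : ℝ) - 1) - 1 / m)| ≤ K := by
    calc |∑ m ∈ Finset.Icc 2 N, φ m * (1 / ((m : ℝ) - 1) - 1 / m)|
        ≤ ∑ m ∈ Finset.Icc 2 N, |φ m * (1 / ((m : ℝ) - 1) - 1 / m)| :=
          Finset.abs_sum_le_sum_abs _ _
      _ ≤ ∑ m ∈ Finset.Icc 2 N, K * (1 / ((m : ℝ) - 1) - 1 / m) := by
          refine Finset.sum_le_sum fun m hm => ?_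
          have hm2 : (2 : ℝ) ≤ m := by exact_mod_cast (Finset.mem_Icc.1 hm).1
          have hp : 0 ≤ 1 / ((m : ℝ) - 1) - 1 / m := by
            rw [sub_nonneg]
            exact one_div_le_one_div_of_le (by linarith) (by linarith)
          rw [abs_mul, abs_of_nonneg hp]
          exact mul_le_mul_of_nonneg_right (hK m) hp
      _ = K * ∑ m ∈ Finset.Icc 2 N, (1 / ((m : ℝ) - 1) - 1 / m) := by rw [Finset.mul_sum]
      _ ≤ K * 1 := mul_le_mul_of_nonneg_left (sum_telescope N hN) hK0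
      _ = K := mul_one K
  have h5 : |φ (N + 1) / N| ≤ K := by
    have hN1 : (1 : ℝ) ≤ N := by exact_mod_cast hN
    rw [abs_div, abs_of_pos (by linarith : (0 : ℝ) < N)]
    exact (div_le_self (abs_nonneg _) hN1).trans (hK _)
  have h6 := hK 1
  have h7 := abs_add_le (∑ m ∈ Finset.Icc 2 N, φ m * (1 / ((m : ℝ) - 1) - 1 / m)) (φ (N + 1) / N)
  have h8 := abs_sub (∑ m ∈ Finset.Icc 2 N, φ m * (1 / ((m : ℝ) - 1) - 1 / m) + φ (N + 1) / N)
    (φ 1)
  linarith

lemma tendsto_log : Tendsto (fun N : ℕ => Real.log N) atTop atTop :=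
  Real.tendsto_log_atTop.comp tendsto_natCast_atTop_atTop

lemma shift_one (φ : ℕ → ℝ) (K : ℝ) (hK : ∀ n, |φ n| ≤ K) :
    Tendsto (fun N => L (fun n => φ (n + 1)) N - L φ N) atTop (𝓝 0) := by
  have h1 : Tendsto (fun N : ℕ => (3 * K) / Real.log N) atTop (𝓝 0) :=
    tendsto_log.const_div_atTop _
  refine squeeze_zero_norm' ?_ h1
  filter_upwards [eventually_ge_atTop 2] with N hN
  have hl : 0 < Real.log N := Real.log_pos (by exact_mod_cast hN)
  unfold L
  rw [← mul_sub, Real.norm_eq_abs, abs_mul, abs_of_nonneg (by positivity : 0 ≤ 1 / Real.log N)]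
  refine (mul_le_mul_of_nonneg_left (shift_one_bound φ K hK N (by omega))
    (by positivity)).trans (le_of_eq ?_)
  ring

lemma shift_k (φ : ℕ → ℝ) (K : ℝ) (hK : ∀ n, |φ n| ≤ K) (k : ℕ) :
    Tendsto (fun N => L (fun n => φ (n + k)) N - L φ N) atTop (𝓝 0) := by
  induction k with
  | zero => simp
  | succ k ih =>
    have h1 := shift_one (fun n => φ (n + k)) K (fun n => hK _)
    have h2 := h1.add ih
    rw [add_zero] at h2
    refine h2.congr fun N => ?_
    have : (fun n => φ (n + (k + 1))) = fun n => φ (n + 1 + k) := by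
      funext n; congr 1; omega
    rw [this]
    ring

lemma L_one_le (N : ℕ) (hN : 3 ≤ N) : L (fun _ => 1) N ≤ 2 := by
  have hl : 1 ≤ Real.log N := by
    have h3 : Real.exp 1 ≤ N := by
      have := Real.exp_one_lt_d9
      have h4 : (3 : ℝ) ≤ N := by exact_mod_cast hN
      linarith
    rw [← Real.log_exp 1]
    exact Real.log_le_log (Real.exp_pos 1) h3
  have h1 : ∑ n ∈ Finset.Icc 1 N, (1 : ℝ) / n ≤ 1 + Real.log N := by
    have h2 := harmonic_le_one_add_log N
    rw [harmonic_eq_sum_Icc] at h2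
    push_cast at h2
    simpa [one_div] using h2
  unfold L
  rw [one_div, inv_mul_le_iff₀ (by linarith)]
  linarith

lemma L_cs (g ψ : ℕ → ℝ) (K : ℝ) (hK : ∀ n, |g n| ≤ K) (N : ℕ) (hN : 3 ≤ N) :
    (L (fun n => g n * ψ n) N) ^ 2 ≤ K ^ 2 * 2 * L (fun n => ψ n ^ 2) N := by
  have hl : 0 < Real.log N := Real.log_pos (by exact_mod_cast (by omega : 1 < N))
  have hK0 : 0 ≤ K := (abs_nonneg _).trans (hK 0)
  have h1 : (∑ n ∈ Finset.Icc 1 N, g n * ψ n / n) ^ 2 ≤
      (∑ n ∈ Finset.Icc 1 N, g n ^ 2 / n) * ∑ n ∈ Finset.Icc 1 N, ψ n ^ 2 / n := by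
    have h := Finset.sum_mul_sq_le_sq_mul_sq (Finset.Icc 1 N)
      (fun n : ℕ => g n / Real.sqrt n) (fun n : ℕ => ψ n / Real.sqrt n)
    have e1 : ∀ n ∈ Finset.Icc 1 N, g n / Real.sqrt n * (ψ n / Real.sqrt n) = g n * ψ n / n := by
      intro n _
      rw [div_mul_div_comm, Real.mul_self_sqrt (Nat.cast_nonneg n)]
    have e2 : ∀ n ∈ Finset.Icc 1 N, (g n / Real.sqrt n) ^ 2 = g n ^ 2 / n := by
      intro n _
      rw [div_pow, Real.sq_sqrt (Nat.cast_nonneg n)]
    have e3 : ∀ n ∈ Finset.Icc 1 N, (ψ n / Real.sqrt n) ^ 2 = ψ n ^ 2 / n := by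
      intro n _
      rw [div_pow, Real.sq_sqrt (Nat.cast_nonneg n)]
    rw [Finset.sum_congr rfl e1, Finset.sum_congr rfl e2, Finset.sum_congr rfl e3] at h
    exact h
  have h2 : ∑ n ∈ Finset.Icc 1 N, g n ^ 2 / (n : ℝ) ≤
      K ^ 2 * ∑ n ∈ Finset.Icc 1 N, (1 : ℝ) / n := by
    rw [Finset.mul_sum]
    refine Finset.sum_le_sum fun n _ => ?_
    rw [mul_one_div]
    refine div_le_div_of_nonneg_right ?_ (Nat.cast_nonneg n)
    rw [← sq_abs]
    exact pow_le_pow_left₀ (abs_nonneg _) (hK n) 2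
  have h3 : 0 ≤ ∑ n ∈ Finset.Icc 1 N, ψ n ^ 2 / (n : ℝ) :=
    Finset.sum_nonneg fun n _ => by positivity
  have h4 := L_one_le N hN
  unfold L at h4 ⊢
  rw [mul_pow]
  calc (1 / Real.log N) ^ 2 * (∑ n ∈ Finset.Icc 1 N, g n * ψ n / n) ^ 2
      ≤ (1 / Real.log N) ^ 2 * ((K ^ 2 * ∑ n ∈ Finset.Icc 1 N, (1 : ℝ) / n) *
          ∑ n ∈ Finset.Icc 1 N, ψ n ^ 2 / n) := by
        refine mul_le_mul_of_nonneg_left (h1.trans ?_) (by positivity)
        exact mul_le_mul_of_nonneg_right h2 h3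
    _ = K ^ 2 * (1 / Real.log N * ∑ n ∈ Finset.Icc 1 N, (1 : ℝ) / n) *
          (1 / Real.log N * ∑ n ∈ Finset.Icc 1 N, ψ n ^ 2 / n) := by ring
    _ ≤ K ^ 2 * 2 * (1 / Real.log N * ∑ n ∈ Finset.Icc 1 N, ψ n ^ 2 / n) := by
        refine mul_le_mul_of_nonneg_right ?_ (by positivity)
        exact mul_le_mul_of_nonneg_left h4 (by positivity)

lemma sg_sq (e : ℤˣ) : sg e * sg e = 1 := by
  unfold sg
  rcases Int.units_eq_one_or e with h | h <;> rw [h] <;> simp

lemma abs_sg (e : ℤˣ) : |sg e| = 1 := by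
  unfold sg
  rcases Int.units_eq_one_or e with h | h <;> rw [h] <;> simp

end PerOrtho

open PerOrtho in
theorem per_ortho (u : ℕ → ℤˣ) (l : Filter ℕ) (hl : l ≤ atTop)
    (h : ∀ A : Finset ℕ, A.Nonempty → Tendsto (ncorr u A) l (𝓝 0))
    (A : Finset ℕ) (hA : A.Nonempty) (q : ℕ) (hq : 1 ≤ q) (g : ℕ → ℝ)
    (hg : ∀ n, g (n + q) = g n) :
    Tendsto (fun N : ℕ => (1 / Real.log N) *
      ∑ n ∈ Finset.Icc 1 N, (∏ a ∈ A, sg (u (n + a))) * g n / n) l (𝓝 0) := by
  -- bound for `g`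
  obtain ⟨K, hK⟩ : ∃ K, ∀ n, |g n| ≤ K := by
    refine ⟨∑ i ∈ Finset.range q, |g i|, fun n => ?_⟩
    have h1 : g n = g (n % q) := by
      have hper : Function.Periodic g q := hg
      exact (hper.map_mod_nat n).symm
    rw [h1]
    exact Finset.single_le_sum (f := fun i => |g i|) (fun i _ => abs_nonneg _)
      (Finset.mem_range.2 (Nat.mod_lt _ hq))
  have hK0 : 0 ≤ K := (abs_nonneg _).trans (hK 0)
  set F : ℕ → ℝ := fun n => ∏ a ∈ A, sg (u (n + a)) with hF
  have hF1 : ∀ n, |F n| = 1 := by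
    intro n
    simp only [hF]
    rw [Finset.abs_prod]
    exact Finset.prod_eq_one fun a _ => abs_sg _
  have hFF : ∀ n, F n * F n = 1 := by
    intro n
    rw [← abs_mul_self, abs_mul, hF1, mul_one]
  -- the step `s`
  obtain ⟨s, hs, hsq⟩ : ∃ s, (∀ a ∈ A, a < s) ∧ q ∣ s := by
    refine ⟨q * (A.sup id + 1), fun a ha => ?_, Dvd.intro _ rfl⟩
    have h1 : a ≤ A.sup id := Finset.le_sup (f := id) ha
    have h2 : A.sup id + 1 ≤ q * (A.sup id + 1) := Nat.le_mul_of_pos_left _ hq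
    omega
  have hgs : ∀ i n, g (n + i * s) = g n := by
    intro i n
    obtain ⟨c, rfl⟩ := hsq
    have hper : Function.Periodic g q := hg
    have := hper.nat_mul (i * c) n
    have e : n + i * (q * c) = n + i * c * q := by ring
    rw [e]
    exact_mod_cast this
  -- off-diagonal correlations
  have hoff : ∀ i j, i < j → Tendsto (L (fun n => F (n + i * s) * F (n + j * s))) l (𝓝 0) := by
    intro i j hij
    have hdis : Disjoint (A.map (addRightEmbedding (i * s))) (A.map (addRightEmbedding (j * s))) := by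
      rw [Finset.disjoint_left]
      intro x hx hx'
      rw [Finset.mem_map] at hx hx'
      obtain ⟨a, ha, rfl⟩ := hx
      obtain ⟨b, hb, e⟩ := hx'
      simp only [addRightEmbedding_apply] at e
      have h1 := hs a ha
      have h2 : (i + 1) * s ≤ j * s := Nat.mul_le_mul_right s hij
      have h3 : (i + 1) * s = i * s + s := by ring
      omega
    have h1 := h (A.map (addRightEmbedding (i * s)) ∪ A.map (addRightEmbedding (j * s)))
      (Finset.Nonempty.inl (by simpa using hA))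
    refine h1.congr fun N => ?_
    unfold ncorr L
    congr 1
    refine Finset.sum_congr rfl fun n _ => ?_
    rw [Finset.prod_union hdis, Finset.prod_map, Finset.prod_map]
    simp only [hF, addRightEmbedding_apply]
    congr 2
    · exact Finset.prod_congr rfl fun a _ => by congr 2; omega
    · exact Finset.prod_congr rfl fun a _ => by congr 2; omega
  -- the square of the average
  have hsq2 : ∀ H : ℕ, 0 < H → ∀ δ : ℝ, 0 < δ → ∀ᶠ N in l,
      L (fun n => ((1 / (H : ℝ)) * ∑ i ∈ Finset.range H, F (n + i * s)) ^ 2) N ≤ 2 / H + δ := by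
    intro H hH δ hδ
    have hH0 : (0 : ℝ) < H := by exact_mod_cast hH
    have hT : Tendsto (fun N => ∑ i ∈ Finset.range H, ∑ j ∈ Finset.range H,
        if i = j then (0 : ℝ) else L (fun n => F (n + i * s) * F (n + j * s)) N) l (𝓝 0) := by
      have : (0 : ℝ) = ∑ i ∈ Finset.range H, ∑ j ∈ Finset.range H, (0 : ℝ) := by simp
      rw [this]
      refine tendsto_finsetSum _ fun i _ => tendsto_finsetSum _ fun j _ => ?_
      by_cases hij : i = j
      · subst hij
        have h0 : Tendsto (fun _ : ℕ => (0 : ℝ)) l (𝓝 0) := tendsto_const_nhds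
        refine h0.congr fun N => ?_
        simp
      · simp only [hij, if_false]
        rcases lt_or_gt_of_ne hij with h1 | h1
        · exact hoff i j h1
        · refine (hoff j i h1).congr fun N => ?_
          congr 1
          funext n
          ring
    have hev : ∀ᶠ N in l, (∑ i ∈ Finset.range H, ∑ j ∈ Finset.range H,
        if i = j then (0 : ℝ) else L (fun n => F (n + i * s) * F (n + j * s)) N) < δ :=
      hT.eventually_lt_const hδ
    filter_upwards [hev, hl (eventually_ge_atTop 3)] with N h1 hN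
    have h2 : L (fun n => ((1 / (H : ℝ)) * ∑ i ∈ Finset.range H, F (n + i * s)) ^ 2) N =
        (1 / (H : ℝ)) ^ 2 * ∑ i ∈ Finset.range H, ∑ j ∈ Finset.range H,
          L (fun n => F (n + i * s) * F (n + j * s)) N := by
      have e : (fun n => ((1 / (H : ℝ)) * ∑ i ∈ Finset.range H, F (n + i * s)) ^ 2) =
          fun n => (1 / (H : ℝ)) ^ 2 * ∑ i ∈ Finset.range H, ∑ j ∈ Finset.range H,
            F (n + i * s) * F (n + j * s) := by
        funext n
        rw [mul_pow, sq (∑ i ∈ Finset.range H, F (n + i * s)), Finset.sum_mul_sum]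
      rw [e, L_smul, L_sum]
      congr 1
      exact Finset.sum_congr rfl fun i _ => L_sum _ _ _
    have h3 : ∑ i ∈ Finset.range H, ∑ j ∈ Finset.range H,
          L (fun n => F (n + i * s) * F (n + j * s)) N =
        H * L (fun _ => 1) N + ∑ i ∈ Finset.range H, ∑ j ∈ Finset.range H,
        if i = j then (0 : ℝ) else L (fun n => F (n + i * s) * F (n + j * s)) N := by
      have e1 : ∀ i ∈ Finset.range H, ∑ j ∈ Finset.range H,
          L (fun n => F (n + i * s) * F (n + j * s)) N = L (fun _ => 1) N +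
          ∑ j ∈ Finset.range H,
          (if i = j then (0 : ℝ) else L (fun n => F (n + i * s) * F (n + j * s)) N) := by
        intro i hi
        have e2 : ∀ j ∈ Finset.range H, L (fun n => F (n + i * s) * F (n + j * s)) N =
            (if i = j then L (fun _ => 1) N else 0) +
            (if i = j then (0 : ℝ) else L (fun n => F (n + i * s) * F (n + j * s)) N) := by
          intro j _
          by_cases hij : i = j
          · subst hij
            simp only [hFF, if_true, add_zero]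
          · simp only [hij, if_false, zero_add]
        rw [Finset.sum_congr rfl e2, Finset.sum_add_distrib, Finset.sum_ite_eq, if_pos hi]
      rw [Finset.sum_congr rfl e1, Finset.sum_add_distrib, Finset.sum_const, Finset.card_range,
        nsmul_eq_mul]
    rw [h2, h3]
    have h4 := L_one_le N hN
    have h5 : (1 / (H : ℝ)) ^ 2 ≤ 1 := by
      have : 1 / (H : ℝ) ≤ 1 := by
        rw [div_le_one hH0]
        exact_mod_cast hH
      exact pow_le_one₀ (by positivity) this
    have h6 : (1 / (H : ℝ)) ^ 2 * (H * L (fun _ => 1) N) ≤ 2 / H := by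
      have : (1 / (H : ℝ)) ^ 2 * (H * L (fun _ => 1) N) = L (fun _ => 1) N / H := by
        field_simp
      rw [this]
      exact div_le_div_of_nonneg_right h4 hH0.le
    rw [mul_add]
    refine add_le_add h6 ?_
    by_cases h7 : 0 ≤ ∑ i ∈ Finset.range H, ∑ j ∈ Finset.range H,
        if i = j then (0 : ℝ) else L (fun n => F (n + i * s) * F (n + j * s)) N
    · exact (mul_le_of_le_one_left h7 h5).trans h1.le
    · push Not at h7
      have : (1 / (H : ℝ)) ^ 2 * ∑ i ∈ Finset.range H, ∑ j ∈ Finset.range H,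
        (if i = j then (0 : ℝ) else L (fun n => F (n + i * s) * F (n + j * s)) N) ≤ 0 :=
        mul_nonpos_of_nonneg_of_nonpos (by positivity) h7.le
      linarith
  -- replacing `F g` by the average
  have hrep : ∀ H : ℕ, 0 < H → Tendsto (fun N => L (fun n => g n *
      ((1 / (H : ℝ)) * ∑ i ∈ Finset.range H, F (n + i * s))) N - L (fun n => F n * g n) N)
      l (𝓝 0) := by
    intro H hH
    have hH0 : (0 : ℝ) < H := by exact_mod_cast hH
    have h1 : ∀ i, Tendsto (fun N => L (fun n => F (n + i * s) * g n) N - L (fun n => F n * g n) N)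
        l (𝓝 0) := by
      intro i
      have h2 := (shift_k (fun n => F n * g n) K (fun n => by
        rw [abs_mul, hF1, one_mul]; exact hK n) (i * s)).mono_left hl
      refine h2.congr fun N => ?_
      congr 2
      funext n
      rw [hgs i n]
    have h2 : Tendsto (fun N => (1 / (H : ℝ)) * ∑ i ∈ Finset.range H,
        (L (fun n => F (n + i * s) * g n) N - L (fun n => F n * g n) N)) l (𝓝 0) := by
      have h3 : Tendsto (fun N => ∑ i ∈ Finset.range H,
        (L (fun n => F (n + i * s) * g n) N - L (fun n => F n * g n) N)) l (𝓝 0) := by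
        have : (0 : ℝ) = ∑ i ∈ Finset.range H, (0 : ℝ) := by simp
        rw [this]
        exact tendsto_finsetSum _ fun i _ => h1 i
      have := h3.const_mul (1 / (H : ℝ))
      rwa [mul_zero] at this
    refine h2.congr fun N => ?_
    have e : (fun n => g n * ((1 / (H : ℝ)) * ∑ i ∈ Finset.range H, F (n + i * s))) =
        fun n => (1 / (H : ℝ)) * ∑ i ∈ Finset.range H, F (n + i * s) * g n := by
      funext n
      rw [← Finset.sum_mul]
      ring
    rw [e, L_smul, L_sum, Finset.sum_sub_distrib, Finset.sum_const, Finset.card_range, nsmul_eq_mul,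
      mul_sub]
    congr 1
    field_simp
  -- conclusion
  have hmain : Tendsto (L (fun n => F n * g n)) l (𝓝 0) := by
    rw [Metric.tendsto_nhds]
    intro ε hε
    obtain ⟨H, hH, hH2⟩ : ∃ H : ℕ, 0 < H ∧ K ^ 2 * 2 * (2 / H) ≤ ε ^ 2 / 16 := by
      obtain ⟨H, hH⟩ := exists_nat_gt (64 * K ^ 2 / ε ^ 2)
      have hH0 : (0 : ℝ) < H := lt_of_le_of_lt (by positivity) hH
      refine ⟨H, by exact_mod_cast hH0, ?_⟩
      have h1 : 64 * K ^ 2 < H * ε ^ 2 := by
        rwa [div_lt_iff₀ (by positivity)] at hH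
      rw [show K ^ 2 * 2 * (2 / (H : ℝ)) = 4 * K ^ 2 / H by ring, div_le_iff₀ hH0]
      nlinarith
    have hH0 : (0 : ℝ) < H := by exact_mod_cast hH
    obtain ⟨δ, hδ, hδ2⟩ : ∃ δ : ℝ, 0 < δ ∧ K ^ 2 * 2 * δ ≤ ε ^ 2 / 16 := by
      refine ⟨ε ^ 2 / (32 * (K ^ 2 + 1)), by positivity, ?_⟩
      rw [show K ^ 2 * 2 * (ε ^ 2 / (32 * (K ^ 2 + 1))) = (K ^ 2 / (K ^ 2 + 1)) * (ε ^ 2 / 16) by
        field_simp; ring]
      refine mul_le_of_le_one_left (by positivity) ?_
      rw [div_le_one (by positivity)]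
      linarith
    have e1 := hsq2 H hH δ hδ
    have e2 : ∀ᶠ N in l, |L (fun n => g n *
      ((1 / (H : ℝ)) * ∑ i ∈ Finset.range H, F (n + i * s))) N - L (fun n => F n * g n) N| < ε / 2 := by
      have := (hrep H hH).abs
      rw [abs_zero] at this
      exact this.eventually_lt_const (by linarith)
    filter_upwards [e1, e2, hl (eventually_ge_atTop 3)] with N h1 h2 hN
    rw [Real.dist_eq, sub_zero]
    have h3 := L_cs g (fun n => (1 / (H : ℝ)) * ∑ i ∈ Finset.range H, F (n + i * s)) K hK N hN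
    have h4 : (L (fun n => g n *
        ((1 / (H : ℝ)) * ∑ i ∈ Finset.range H, F (n + i * s))) N) ^ 2 ≤ ε ^ 2 / 8 := by
      refine h3.trans ?_
      have h5 : K ^ 2 * 2 * L (fun n => ((1 / (H : ℝ)) *
          ∑ i ∈ Finset.range H, F (n + i * s)) ^ 2) N ≤ K ^ 2 * 2 * (2 / H + δ) :=
        mul_le_mul_of_nonneg_left h1 (by positivity)
      linarith
    have h5 : |L (fun n => g n *
        ((1 / (H : ℝ)) * ∑ i ∈ Finset.range H, F (n + i * s))) N| < ε / 2 := by
      rw [← abs_of_pos (by linarith : (0 : ℝ) < ε / 2)]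
      rw [← sq_lt_sq]
      nlinarith
    have h6 := abs_sub_abs_le_abs_sub (L (fun n => F n * g n) N) (L (fun n => g n *
        ((1 / (H : ℝ)) * ∑ i ∈ Finset.range H, F (n + i * s))) N)
    rw [abs_sub_comm] at h6
    linarith
  exact hmain

end Pool.Agent.Helper50.FS
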