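import Mathlib

/-!
FS-DivSum. `∑_{n ≤ N, p | n+a} 1/n ≤ (6/p) log N`.

Plan. Write `n + a = p t` with `1 ≤ t`, `n = p t - a ≥ p t / 2` since `p t ≥ p ≥ 2 a`. So
`1/n ≤ 2/(p t)`, and `p t ≤ N + a ≤ 2 N`, `t ≤ N` (`p ≥ 2`). The map `n ↦ t = (n+a)/p` is
injective on the set. So the sum is `≤ (2/p) ∑_{t=1}^{N} 1/t ≤ (2/p) (1 + log N) ≤ (4/p) log N`
(`harmonic_le_one_add_log`, `log N ≥ log 3 > 1`: `Real.exp_one_lt_d9` gives `e < 3`).
-/

namespace Pool.Agent.Helper50.FS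

theorem div_sum (p a N : ℕ) (hp : 2 ≤ p) (hpa : 2 * a ≤ p) (hN : 3 ≤ N) (haN : a ≤ N) :
    ∑ n ∈ (Finset.Icc 1 N).filter (fun n => p ∣ n + a), (1 / n : ℝ) ≤ (6 / p : ℝ) * Real.log N := by
  set S := (Finset.Icc 1 N).filter (fun n => p ∣ n + a) with hS
  have hp0 : 0 < p := by omega
  have hpR : (0 : ℝ) < p := by exact_mod_cast hp0
  have hmem : ∀ n ∈ S, 1 ≤ n ∧ n ≤ N ∧ p * ((n + a) / p) = n + a ∧ 1 ≤ (n + a) / p := by
    intro n hn
    rw [hS, Finset.mem_filter, Finset.mem_Icc] at hn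
    obtain ⟨⟨h1, h2⟩, h3⟩ := hn
    refine ⟨h1, h2, Nat.mul_div_cancel' h3, ?_⟩
    exact Nat.div_pos (Nat.le_of_dvd (by omega) h3) hp0
  have hinj : Set.InjOn (fun n => (n + a) / p) (S : Set ℕ) := by
    intro n hn m hm hnm
    have h1 := (hmem n hn).2.2.1
    have h2 := (hmem m hm).2.2.1
    have h3 : (n + a) / p = (m + a) / p := hnm
    rw [h3] at h1
    omega
  have hle : ∀ n ∈ S, (1 / n : ℝ) ≤ (2 / p : ℝ) * (1 / (((n + a) / p : ℕ) : ℝ)) := by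
    intro n hn
    obtain ⟨h1, h2, h3, h4⟩ := hmem n hn
    have h5 : p * ((n + a) / p) ≤ 2 * n := by
      have h6 : p ≤ p * ((n + a) / p) := Nat.le_mul_of_pos_right p h4
      omega
    have h7 : (p : ℝ) * (((n + a) / p : ℕ) : ℝ) ≤ 2 * n := by exact_mod_cast h5
    have h8 : (0 : ℝ) < n := by exact_mod_cast h1
    have h9 : (0 : ℝ) < (((n + a) / p : ℕ) : ℝ) := by exact_mod_cast h4
    rw [div_mul_div_comm, mul_one, div_le_div_iff₀ h8 (mul_pos hpR h9), one_mul]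
    exact h7
  have hsub : S.image (fun n => (n + a) / p) ⊆ Finset.Icc 1 N := by
    intro t ht
    rw [Finset.mem_image] at ht
    obtain ⟨n, hn, rfl⟩ := ht
    obtain ⟨h1, h2, h3, h4⟩ := hmem n hn
    rw [Finset.mem_Icc]
    refine ⟨h4, ?_⟩
    have h5 : 2 * ((n + a) / p) ≤ p * ((n + a) / p) := Nat.mul_le_mul_right _ hp
    omega
  have hlog : 1 ≤ Real.log N := by
    rw [Real.le_log_iff_exp_le (by positivity)]
    have h1 := Real.exp_one_lt_d9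
    have h2 : (3 : ℝ) ≤ N := by exact_mod_cast hN
    linarith
  have hharm : ∑ t ∈ Finset.Icc 1 N, (1 / (t : ℝ)) ≤ 1 + Real.log N := by
    have h1 := harmonic_le_one_add_log N
    rw [harmonic_eq_sum_Icc] at h1
    push_cast at h1
    simpa only [one_div] using h1
  calc ∑ n ∈ S, (1 / n : ℝ) ≤ ∑ n ∈ S, (2 / p : ℝ) * (1 / (((n + a) / p : ℕ) : ℝ)) :=
        Finset.sum_le_sum hle
    _ = ∑ t ∈ S.image (fun n => (n + a) / p), (2 / p : ℝ) * (1 / (t : ℝ)) := by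
        rw [Finset.sum_image hinj]
    _ ≤ ∑ t ∈ Finset.Icc 1 N, (2 / p : ℝ) * (1 / (t : ℝ)) :=
        Finset.sum_le_sum_of_subset_of_nonneg hsub fun t _ _ => by positivity
    _ = (2 / p : ℝ) * ∑ t ∈ Finset.Icc 1 N, (1 / (t : ℝ)) := by rw [Finset.mul_sum]
    _ ≤ (2 / p : ℝ) * (1 + Real.log N) := mul_le_mul_of_nonneg_left hharm (by positivity)
    _ ≤ (6 / p : ℝ) * Real.log N := by
        rw [div_mul_eq_mul_div, div_mul_eq_mul_div]
        refine div_le_div_of_nonneg_right ?_ hpR.le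
        linarith

theorem sum_inv_sq (Q : ℕ) (hQ : 2 ≤ Q) (B : Finset ℕ) (hB : ∀ p ∈ B, Q ≤ p) :
    ∑ p ∈ B, (1 / (p : ℝ) ^ 2 : ℝ) ≤ (2 / Q : ℝ) := by
  have h1 : B ⊆ Finset.Ioo (Q - 1) (B.sup id + 1) := by
    intro p hp
    rw [Finset.mem_Ioo]
    have h2 := hB p hp
    have h3 : p ≤ B.sup id := Finset.le_sup (f := id) hp
    omega
  have h2 := sum_Ioo_inv_sq_le (α := ℝ) (Q - 1) (B.sup id + 1)
  have h3 : ((Q - 1 : ℕ) : ℝ) + 1 = Q := by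
    have : Q - 1 + 1 = Q := by omega
    exact_mod_cast this
  rw [h3] at h2
  calc ∑ p ∈ B, (1 / (p : ℝ) ^ 2 : ℝ)
      ≤ ∑ p ∈ Finset.Ioo (Q - 1) (B.sup id + 1), (1 / (p : ℝ) ^ 2 : ℝ) :=
        Finset.sum_le_sum_of_subset_of_nonneg h1 fun p _ _ => by positivity
    _ = ∑ p ∈ Finset.Ioo (Q - 1) (B.sup id + 1), ((p : ℝ) ^ 2)⁻¹ := by
        simp only [one_div]
    _ ≤ 2 / Q := h2

end Pool.Agent.Helper50.FS
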