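import Pool.Agent.Helper50.FS.Defs
import Pool.Agent.Helper50.FS.DivSum

/-!
FS-RatApproxMult. If `v` is multiplicative with values in `{-1,1}` and `∑_{v p ≠ 1} 1/p < ∞`, then
`n ↦ ∏_{a ∈ A} v(n+a)` is a limit of periodic functions in the logarithmic `L¹` seminorm.

Plan (same as FS-RatApprox; look at that file, the estimates are the same). For `K, L` let
`v' n = ∏_{p ≤ K, p prime} v (p ^ l_p(n))`, where `l_p(n)` is the largest `l ≤ L` with `p^l ∣ n`: a
function of `n` mod `q = ∏_{p ≤ K} p^L`. For `n ≥ 1`, `v n = ∏_{p ∣ n} v (p ^ v_p n)`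
(`Nat.multiplicative_factorization` or induction `Nat.recOnPosPrimePosCoprime`). If `v n ≠ v' n` then
(i) some prime `p > K` with `v p ≠ 1` divides `n`, or (ii) `p^2 ∣ n` for some prime `p > K`, or
(iii) `p^(L+1) ∣ n` for some `p ≤ K`. For `d ≥ 2 max A`, `d ≥ 2`:
`∑_{n ≤ N, d ∣ n+a} 1/n ≤ (6/d) log N` (`div_sum` in FS/DivSum.lean). So the seminorm of the difference is at
most `2 |A| * 6 * (∑_{p > K, v p ≠ 1} 1/p + ∑_{p > K} 1/p^2 + ∑_{p ≤ K} 1/p^(L+1))`: choose first `K`, then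
`L`. For fixed `N` only finitely many `p` matter (`p ≤ N + max A`).
-/

open Filter Topology MeasureTheory

namespace Pool.Agent.Helper50.FS

private theorem tailM (P : Set ℕ) (hs : Summable (fun p : P => (1 / (p : ℕ) : ℝ))) {η : ℝ}
    (hη : 0 < η) : ∃ K0 : ℕ, ∀ T : Finset ℕ, (∀ p ∈ T, p ∈ P ∧ K0 < p) →
      ∑ p ∈ T, (1 / p : ℝ) ≤ η := by
  classical
  obtain ⟨s, hs'⟩ := summable_iff_vanishing_norm.1 hs η hη
  refine ⟨s.sup (fun p => (p : ℕ)), fun T hT => ?_⟩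
  have h1 := hs' (T.subtype (fun x => x ∈ P)) (by
    rw [Finset.disjoint_left]
    intro p hp hps
    rw [Finset.mem_subtype] at hp
    have h2 := (hT _ hp).2
    have h3 : (p : ℕ) ≤ s.sup (fun p => (p : ℕ)) := Finset.le_sup (f := fun p : P => (p : ℕ)) hps
    omega)
  have h2 : ∑ p ∈ T.subtype (fun x => x ∈ P), (1 / ((p : ℕ) : ℝ)) = ∑ p ∈ T, (1 / (p : ℝ)) :=
    Finset.sum_subtype_of_mem (fun p : ℕ => (1 / (p : ℝ))) (fun p hp => (hT p hp).1)
  rw [← h2]
  exact (le_abs_self _).trans h1.le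

private theorem abs_prod_sgM (A : Finset ℕ) (f : ℕ → ℤˣ) : |∏ a ∈ A, sg (f a)| = 1 := by
  rw [Finset.abs_prod]
  refine Finset.prod_eq_one fun a _ => ?_
  unfold sg
  rcases Int.units_eq_one_or (f a) with h | h <;> rw [h] <;> simp

private theorem swapM (Q A : Finset ℕ) (N : ℕ) (e : ℕ → ℕ) {c : ℝ}
    (h : ∀ a ∈ A, ∀ p ∈ Q, ∑ n ∈ (Finset.Icc 1 N).filter (fun n => e p ∣ n + a), (1 / n : ℝ) ≤
      (6 / (e p : ℕ) : ℝ) * Real.log N) (hc : ∑ p ∈ Q, (1 / (e p : ℕ) : ℝ) ≤ c)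
    (hN : 0 ≤ Real.log N) :
    ∑ n ∈ Finset.Icc 1 N, (∑ a ∈ A, ∑ p ∈ Q, if e p ∣ n + a then (1 : ℝ) else 0) / n ≤
      A.card * (6 * c * Real.log N) := by
  have h1 : ∑ n ∈ Finset.Icc 1 N, (∑ a ∈ A, ∑ p ∈ Q, if e p ∣ n + a then (1 : ℝ) else 0) / n =
      ∑ a ∈ A, ∑ p ∈ Q, ∑ n ∈ (Finset.Icc 1 N).filter (fun n => e p ∣ n + a), (1 / n : ℝ) := by
    have h2 : ∀ n : ℕ, (∑ a ∈ A, ∑ p ∈ Q, if e p ∣ n + a then (1 : ℝ) else 0) / n =
        ∑ a ∈ A, ∑ p ∈ Q, if e p ∣ n + a then (1 / n : ℝ) else 0 := by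
      intro n
      rw [Finset.sum_div]
      refine Finset.sum_congr rfl fun a _ => ?_
      rw [Finset.sum_div]
      refine Finset.sum_congr rfl fun p _ => ?_
      split_ifs
      · rfl
      · rw [zero_div]
    simp only [h2]
    rw [Finset.sum_comm]
    refine Finset.sum_congr rfl fun a _ => ?_
    rw [Finset.sum_comm]
    refine Finset.sum_congr rfl fun p _ => ?_
    rw [Finset.sum_filter]
  rw [h1]
  calc ∑ a ∈ A, ∑ p ∈ Q, ∑ n ∈ (Finset.Icc 1 N).filter (fun n => e p ∣ n + a), (1 / n : ℝ)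
      ≤ ∑ a ∈ A, (6 * c * Real.log N) := by
        refine Finset.sum_le_sum fun a ha => ?_
        calc ∑ p ∈ Q, ∑ n ∈ (Finset.Icc 1 N).filter (fun n => e p ∣ n + a), (1 / n : ℝ)
            ≤ ∑ p ∈ Q, (6 / (e p : ℕ) : ℝ) * Real.log N :=
              Finset.sum_le_sum fun p hp => h a ha p hp
          _ = 6 * (∑ p ∈ Q, (1 / (e p : ℕ) : ℝ)) * Real.log N := by
              rw [Finset.mul_sum, Finset.sum_mul]
              exact Finset.sum_congr rfl fun p _ => by ring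
          _ ≤ 6 * c * Real.log N := by
              apply mul_le_mul_of_nonneg_right _ hN
              linarith
    _ = A.card * (6 * c * Real.log N) := by rw [Finset.sum_const, nsmul_eq_mul]

/-- The truncated function. -/
private noncomputable def vv (v : ℕ → ℤˣ) (K L : ℕ) (n : ℕ) : ℤˣ :=
  ∏ p ∈ (Finset.range (K + 1)).filter Nat.Prime,
    v (p ^ ((Finset.Icc 1 L).filter (fun l => p ^ l ∣ n)).card)

private theorem vv_per (v : ℕ → ℤˣ) (K L n : ℕ) :
    vv v K L (n + K.factorial ^ L) = vv v K L n := by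
  unfold vv
  refine Finset.prod_congr rfl fun p hp => ?_
  rw [Finset.mem_filter, Finset.mem_range] at hp
  congr 3
  refine Finset.filter_congr fun l hl => ?_
  rw [Finset.mem_Icc] at hl
  have h1 : p ∣ K.factorial := Nat.dvd_factorial hp.2.pos (by omega)
  have h2 : p ^ l ∣ K.factorial ^ L := (pow_dvd_pow_of_dvd h1 l).trans (pow_dvd_pow _ hl.2)
  exact (Nat.dvd_add_iff_left h2).symm

private theorem mult_prod (v : ℕ → ℤˣ) (hv : IsMult v) {n : ℕ} (hn : n ≠ 0) :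
    v n = ∏ p ∈ n.primeFactors, v (p ^ n.factorization p) := by
  have hm : ∀ x y : ℕ, Nat.Coprime x y → v (x * y) = v x * v y := by
    intro x y hxy
    rcases Nat.eq_zero_or_pos x with hx | hx
    · subst hx
      have hy : y = 1 := by simpa using hxy
      rw [hy, hv.1, mul_one, mul_one]
    rcases Nat.eq_zero_or_pos y with hy | hy
    · subst hy
      have hx1 : x = 1 := by simpa using hxy
      rw [hx1, hv.1, one_mul, one_mul]
    exact hv.2 x y hx hy hxy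
  rw [Nat.multiplicative_factorization v hm hv.1 hn]
  rfl

private theorem vv_eq (v : ℕ → ℤˣ) (hv : IsMult v) (K L n : ℕ) (hn : n ≠ 0)
    (h1 : ∀ p : ℕ, p.Prime → v p ≠ 1 → K < p → ¬ p ∣ n)
    (h2 : ∀ p : ℕ, p.Prime → K < p → ¬ p ^ 2 ∣ n)
    (h3 : ∀ p : ℕ, p.Prime → p ≤ K → ¬ p ^ (L + 1) ∣ n) :
    v n = vv v K L n := by
  classical
  have hvK : ∀ p : ℕ, p.Prime → p ≤ K →
      ((Finset.Icc 1 L).filter (fun l => p ^ l ∣ n)).card = n.factorization p := by
    intro p hpp hpK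
    have h4 : n.factorization p ≤ L := by
      by_contra hcon
      exact h3 p hpp hpK ((hpp.pow_dvd_iff_le_factorization hn).2 (by omega))
    have h5 : (Finset.Icc 1 L).filter (fun l => p ^ l ∣ n) = Finset.Icc 1 (n.factorization p) := by
      ext l
      rw [Finset.mem_filter, Finset.mem_Icc, Finset.mem_Icc,
        hpp.pow_dvd_iff_le_factorization hn]
      omega
    rw [h5, Nat.card_Icc, Nat.add_sub_cancel]
  rw [mult_prod v hv hn]
  have hL1 : ∏ p ∈ n.primeFactors, v (p ^ n.factorization p) =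
      ∏ p ∈ n.primeFactors.filter (fun p => p ≤ K), v (p ^ n.factorization p) := by
    symm
    refine Finset.prod_subset (Finset.filter_subset _ _) fun p hp hp' => ?_
    have hpp := Nat.prime_of_mem_primeFactors hp
    have hpd := Nat.dvd_of_mem_primeFactors hp
    have hpK : K < p := by
      by_contra hcon
      exact hp' (Finset.mem_filter.2 ⟨hp, by omega⟩)
    have h6 : v p = 1 := by
      by_contra hcon
      exact h1 p hpp hcon hpK hpd
    have h7 : n.factorization p = 1 := by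
      have h8 : 1 ≤ n.factorization p := by
        rw [← hpp.pow_dvd_iff_le_factorization hn, pow_one]
        exact hpd
      have h9 : ¬ 2 ≤ n.factorization p := by
        rw [← hpp.pow_dvd_iff_le_factorization hn]
        exact h2 p hpp hpK
      omega
    rw [h7, pow_one, h6]
  have hL2 : ∏ p ∈ n.primeFactors.filter (fun p => p ≤ K), v (p ^ n.factorization p) =
      ∏ p ∈ (Finset.range (K + 1)).filter Nat.Prime, v (p ^ n.factorization p) := by
    refine Finset.prod_subset ?_ fun p hp hp' => ?_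
    · intro p hp
      rw [Finset.mem_filter] at hp
      rw [Finset.mem_filter, Finset.mem_range]
      exact ⟨by omega, Nat.prime_of_mem_primeFactors hp.1⟩
    · rw [Finset.mem_filter, Finset.mem_range] at hp
      have h5 : n.factorization p = 0 := by
        rw [← Finsupp.notMem_support_iff, Nat.support_factorization]
        intro h6
        exact hp' (Finset.mem_filter.2 ⟨h6, by omega⟩)
      rw [h5, pow_zero, hv.1]
  rw [hL1, hL2]
  unfold vv
  refine Finset.prod_congr rfl fun p hp => ?_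
  rw [Finset.mem_filter, Finset.mem_range] at hp
  rw [hvK p hp.2 (by omega)]

private theorem ind_nonneg (A Q : Finset ℕ) (e : ℕ → ℕ) (n : ℕ) :
    0 ≤ ∑ a ∈ A, ∑ p ∈ Q, if e p ∣ n + a then (1 : ℝ) else 0 :=
  Finset.sum_nonneg fun a _ => Finset.sum_nonneg fun p _ => by split_ifs <;> norm_num

private theorem one_le_ind (A Q : Finset ℕ) (e : ℕ → ℕ) (n : ℕ)
    (h : ∃ a ∈ A, ∃ p ∈ Q, e p ∣ n + a) :
    1 ≤ ∑ a ∈ A, ∑ p ∈ Q, if e p ∣ n + a then (1 : ℝ) else 0 := by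
  obtain ⟨a, ha, p, hp, hd⟩ := h
  calc (1 : ℝ) = (if e p ∣ n + a then (1 : ℝ) else 0) := by rw [if_pos hd]
    _ ≤ ∑ p ∈ Q, if e p ∣ n + a then (1 : ℝ) else 0 :=
        Finset.single_le_sum (f := fun p => if e p ∣ n + a then (1 : ℝ) else 0)
          (fun p _ => by split_ifs <;> norm_num) hp
    _ ≤ _ := Finset.single_le_sum
          (f := fun a => ∑ p ∈ Q, if e p ∣ n + a then (1 : ℝ) else 0)
          (fun a _ => Finset.sum_nonneg fun p _ => by split_ifs <;> norm_num) ha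

theorem rat_approx_mult (v : ℕ → ℤˣ) (hv : IsMult v)
    (hs : Summable (fun p : {p : ℕ // p.Prime ∧ v p ≠ 1} => (1 / (p : ℕ) : ℝ))) (A : Finset ℕ)
    (ε : ℝ) (hε : 0 < ε) :
    ∃ (q : ℕ) (g : ℕ → ℝ), 1 ≤ q ∧ (∀ n, g (n + q) = g n) ∧
      ∀ᶠ N : ℕ in atTop, (1 / Real.log N) *
        ∑ n ∈ Finset.Icc 1 N, |(∏ a ∈ A, sg (v (n + a))) - g n| / n ≤ ε := by
  classical
  obtain ⟨η, hηd⟩ : ∃ η : ℝ, η = ε / (36 * (A.card + 1)) := ⟨_, rfl⟩
  have hη : 0 < η := by rw [hηd]; positivity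
  have hηε : 36 * A.card * η ≤ ε := by
    have : η * (36 * (A.card + 1)) = ε := by rw [hηd]; field_simp
    nlinarith
  obtain ⟨K0, hK0⟩ := tailM {p : ℕ | p.Prime ∧ v p ≠ 1} hs hη
  obtain ⟨K1, hK1⟩ := exists_nat_gt (2 / η)
  obtain ⟨M, hM⟩ : ∃ M : ℕ, ∀ a ∈ A, a ≤ M := ⟨A.sup id, fun a ha => Finset.le_sup (f := id) ha⟩
  obtain ⟨K, hKK0, hKM, hKK1⟩ : ∃ K : ℕ, K0 ≤ K ∧ 2 * M ≤ K ∧ K1 ≤ K :=
    ⟨max K0 (max (2 * M) K1), le_max_left _ _, (le_max_left _ _).trans (le_max_right _ _),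
      (le_max_right _ _).trans (le_max_right _ _)⟩
  have hK2 : (2 : ℝ) / ((K + 1 : ℕ) : ℝ) ≤ η := by
    rw [div_le_iff₀ (by positivity)]
    have h1 : (K1 : ℝ) ≤ ((K + 1 : ℕ) : ℝ) := by exact_mod_cast (by omega : K1 ≤ K + 1)
    have h2 : 2 / η < ((K + 1 : ℕ) : ℝ) := hK1.trans_le h1
    rw [div_lt_iff₀ hη] at h2
    linarith
  obtain ⟨L, hLM, hLη⟩ : ∃ L : ℕ, 2 * M ≤ 2 ^ (L + 1) ∧ ((K : ℝ) + 1) * (1 / 2) ^ (L + 1) ≤ η := by
    have h1 : Tendsto (fun n : ℕ => ((K : ℝ) + 1) * (1 / 2) ^ (n + 1)) atTop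
        (𝓝 (((K : ℝ) + 1) * 0)) := by
      apply Tendsto.const_mul
      exact (tendsto_pow_atTop_nhds_zero_of_lt_one (by norm_num) (by norm_num)).comp
        (tendsto_add_atTop_nat 1)
    rw [mul_zero] at h1
    have h2 : ∀ᶠ n : ℕ in atTop, ((K : ℝ) + 1) * (1 / 2) ^ (n + 1) < η :=
      h1.eventually (gt_mem_nhds hη)
    obtain ⟨L, hL1, hL2⟩ := (h2.and (eventually_ge_atTop (2 * M))).exists
    refine ⟨L, ?_, hL1.le⟩
    have h3 : L + 1 < 2 ^ (L + 1) := Nat.lt_two_pow_self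
    omega
  refine ⟨K.factorial ^ L, fun n => ∏ a ∈ A, sg (vv v K L (n + a)), ?_, ?_, ?_⟩
  · exact Nat.one_le_pow _ _ (Nat.factorial_pos K)
  · intro n
    refine Finset.prod_congr rfl fun a _ => ?_
    rw [add_right_comm, vv_per]
  filter_upwards [eventually_ge_atTop (max 3 M)] with N hN
  have hN3 : 3 ≤ N := (le_max_left _ _).trans hN
  have hNM : M ≤ N := (le_max_right _ _).trans hN
  have hlog : 0 < Real.log N := Real.log_pos (by exact_mod_cast (by omega : 1 < N))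
  obtain ⟨PB, hPB⟩ : ∃ PB : Finset ℕ, ∀ p, p ∈ PB ↔
      (p ∈ Finset.Icc 1 (N + M) ∧ (p.Prime ∧ v p ≠ 1) ∧ K < p) :=
    ⟨(Finset.Icc 1 (N + M)).filter (fun p => (p.Prime ∧ v p ≠ 1) ∧ K < p),
      fun p => by rw [Finset.mem_filter]⟩
  obtain ⟨PQ, hPQ⟩ : ∃ PQ : Finset ℕ, ∀ p, p ∈ PQ ↔
      (p ∈ Finset.Icc 1 (N + M) ∧ p.Prime ∧ K < p) :=
    ⟨(Finset.Icc 1 (N + M)).filter (fun p => p.Prime ∧ K < p), fun p => by rw [Finset.mem_filter]⟩
  obtain ⟨Pk, hPk⟩ : ∃ Pk : Finset ℕ, ∀ p, p ∈ Pk ↔ (p ∈ Finset.range (K + 1) ∧ p.Prime) :=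
    ⟨(Finset.range (K + 1)).filter (fun p => p.Prime), fun p => by rw [Finset.mem_filter]⟩
  have hpt : ∀ n ∈ Finset.Icc 1 N,
      |(∏ a ∈ A, sg (v (n + a))) - ∏ a ∈ A, sg (vv v K L (n + a))| ≤
      2 * ((∑ a ∈ A, ∑ p ∈ PB, if p ∣ n + a then (1 : ℝ) else 0) +
        (∑ a ∈ A, ∑ p ∈ PQ, if p ^ 2 ∣ n + a then (1 : ℝ) else 0) +
        ∑ a ∈ A, ∑ p ∈ Pk, if p ^ (L + 1) ∣ n + a then (1 : ℝ) else 0) := by
    intro n hn
    rw [Finset.mem_Icc] at hn
    have hnn1 := ind_nonneg A PB (fun p => p) n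
    have hnn2 := ind_nonneg A PQ (fun p => p ^ 2) n
    have hnn3 := ind_nonneg A Pk (fun p => p ^ (L + 1)) n
    have htwo : |(∏ a ∈ A, sg (v (n + a))) - ∏ a ∈ A, sg (vv v K L (n + a))| ≤ 2 := by
      refine (abs_sub _ _).trans ?_
      rw [abs_prod_sgM, abs_prod_sgM]
      norm_num
    by_cases hb1 : ∃ a ∈ A, ∃ p ∈ PB, p ∣ n + a
    · have h3 := one_le_ind A PB (fun p => p) n hb1
      linarith
    by_cases hb2 : ∃ a ∈ A, ∃ p ∈ PQ, p ^ 2 ∣ n + a
    · have h3 := one_le_ind A PQ (fun p => p ^ 2) n hb2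
      linarith
    by_cases hb3 : ∃ a ∈ A, ∃ p ∈ Pk, p ^ (L + 1) ∣ n + a
    · have h3 := one_le_ind A Pk (fun p => p ^ (L + 1)) n hb3
      linarith
    · have heq : ∏ a ∈ A, sg (v (n + a)) = ∏ a ∈ A, sg (vv v K L (n + a)) := by
        refine Finset.prod_congr rfl fun a ha => ?_
        congr 1
        have h5 := hM a ha
        apply vv_eq v hv K L (n + a) (by omega)
        · intro p hp hp1 hpK hd
          apply hb1
          refine ⟨a, ha, p, (hPB p).2 ⟨?_, ⟨hp, hp1⟩, hpK⟩, hd⟩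
          rw [Finset.mem_Icc]
          have h4 := Nat.le_of_dvd (by omega) hd
          omega
        · intro p hp hpK hd
          apply hb2
          refine ⟨a, ha, p, (hPQ p).2 ⟨?_, hp, hpK⟩, hd⟩
          rw [Finset.mem_Icc]
          have h4 := Nat.le_of_dvd (by omega) ((dvd_pow_self p (by norm_num)).trans hd)
          omega
        · intro p hp hpK hd
          exact hb3 ⟨a, ha, p, (hPk p).2 ⟨Finset.mem_range.2 (by omega), hp⟩, hd⟩
      rw [heq, sub_self, abs_zero]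
      linarith
  have hsum : ∑ n ∈ Finset.Icc 1 N, |(∏ a ∈ A, sg (v (n + a))) -
      ∏ a ∈ A, sg (vv v K L (n + a))| / n ≤
      2 * (∑ n ∈ Finset.Icc 1 N,
          (∑ a ∈ A, ∑ p ∈ PB, if p ∣ n + a then (1 : ℝ) else 0) / n +
        ∑ n ∈ Finset.Icc 1 N,
          (∑ a ∈ A, ∑ p ∈ PQ, if p ^ 2 ∣ n + a then (1 : ℝ) else 0) / n +
        ∑ n ∈ Finset.Icc 1 N,
          (∑ a ∈ A, ∑ p ∈ Pk, if p ^ (L + 1) ∣ n + a then (1 : ℝ) else 0) / n) := by
    rw [← Finset.sum_add_distrib, ← Finset.sum_add_distrib, Finset.mul_sum]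
    refine Finset.sum_le_sum fun n hn => ?_
    rw [← add_div, ← add_div, ← mul_div_assoc]
    exact div_le_div_of_nonneg_right (hpt n hn) (Nat.cast_nonneg n)
  have hPBs : ∑ p ∈ PB, (1 / ((p : ℕ) : ℝ)) ≤ η := by
    apply hK0 PB
    intro p hp
    obtain ⟨-, h2, h3⟩ := (hPB p).1 hp
    exact ⟨h2, by omega⟩
  have hPQs : ∑ p ∈ PQ, (1 / ((p ^ 2 : ℕ) : ℝ)) ≤ η := by
    push_cast
    refine (sum_inv_sq (K + 1) ?_ PQ ?_).trans hK2
    · have h2 : K1 ≠ 0 := by
        rintro rfl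
        have : 0 < 2 / η := by positivity
        rw [Nat.cast_zero] at hK1
        linarith
      omega
    · intro p hp
      obtain ⟨-, -, h3⟩ := (hPQ p).1 hp
      omega
  have hPks : ∑ p ∈ Pk, (1 / ((p ^ (L + 1) : ℕ) : ℝ)) ≤ η := by
    calc ∑ p ∈ Pk, (1 / ((p ^ (L + 1) : ℕ) : ℝ)) ≤ ∑ p ∈ Pk, (1 / 2 : ℝ) ^ (L + 1) := by
          refine Finset.sum_le_sum fun p hp => ?_
          have hp2 : 2 ≤ p := ((hPk p).1 hp).2.two_le
          have hp2' : (2 : ℝ) ≤ p := by exact_mod_cast hp2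
          push_cast
          rw [← one_div_pow]
          apply pow_le_pow_left₀ (by positivity)
          exact one_div_le_one_div_of_le (by norm_num) hp2'
      _ = Pk.card * (1 / 2 : ℝ) ^ (L + 1) := by rw [Finset.sum_const, nsmul_eq_mul]
      _ ≤ ((K : ℝ) + 1) * (1 / 2) ^ (L + 1) := by
          apply mul_le_mul_of_nonneg_right _ (by positivity)
          have h4 : Pk.card ≤ K + 1 := by
            calc Pk.card ≤ (Finset.range (K + 1)).card :=
                  Finset.card_le_card fun p hp => ((hPk p).1 hp).1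
              _ = K + 1 := Finset.card_range _
          exact_mod_cast h4
      _ ≤ η := hLη
  have hs1 := swapM PB A N (fun p => p) (c := η) (fun a ha p hp => by
    have h5 := hM a ha
    obtain ⟨-, h2, h3⟩ := (hPB p).1 hp
    exact div_sum p a N h2.1.two_le (by omega) hN3 (by omega)) hPBs hlog.le
  have hs2 := swapM PQ A N (fun p => p ^ 2) (c := η) (fun a ha p hp => by
    have h5 := hM a ha
    obtain ⟨-, h2, h3⟩ := (hPQ p).1 hp
    have h6 : p ≤ p ^ 2 := Nat.le_self_pow (by norm_num) p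
    have h7 := h2.two_le
    exact div_sum (p ^ 2) a N (by omega) (by omega) hN3 (by omega)) hPQs hlog.le
  have hs3 := swapM Pk A N (fun p => p ^ (L + 1)) (c := η) (fun a ha p hp => by
    have h5 := hM a ha
    obtain ⟨-, h2⟩ := (hPk p).1 hp
    have h6 : 2 ≤ p := h2.two_le
    have h7 : 2 ^ (L + 1) ≤ p ^ (L + 1) := Nat.pow_le_pow_left h6 _
    have h8 : 2 ≤ 2 ^ (L + 1) := by
      calc 2 = 2 ^ 1 := rfl
        _ ≤ 2 ^ (L + 1) := Nat.pow_le_pow_right (by norm_num) (by omega)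
    exact div_sum (p ^ (L + 1)) a N (by omega) (by omega) hN3 (by omega)) hPks hlog.le
  calc (1 / Real.log N) * ∑ n ∈ Finset.Icc 1 N, |(∏ a ∈ A, sg (v (n + a))) -
      ∏ a ∈ A, sg (vv v K L (n + a))| / n
      ≤ (1 / Real.log N) * (2 * (A.card * (6 * η * Real.log N) + A.card * (6 * η * Real.log N) +
          A.card * (6 * η * Real.log N))) := by
        apply mul_le_mul_of_nonneg_left _ (by positivity)
        linarith
    _ = 36 * A.card * η := by field_simp; ring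
    _ ≤ ε := hηε

end Pool.Agent.Helper50.FS
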