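import Pool.Agent.Helper50.FS.BernIff
import Pool.Agent.Helper50.FS.PerOrtho
import Pool.Agent.Helper50.FS.RatApproxMult

/-!
FS-Distance. Two multiplicative functions at finite distance: one is Bernoulli along `l` iff the
other one is.

Plan. By symmetry one direction. Let `v n = u n * u' n` (so `u' n = u n * v n` because squares are
`1`), multiplicative, `v p ≠ 1` iff `u p ≠ u' p`. By `bernAlong_iff` it is enough that
`ncorr u' A → 0` along `l` for every nonempty `A`. Given `ε`, take `q, g` from `rat_approx_mult` for `v`;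
`∏ sg (u' (n+a)) = ∏ sg (u (n+a)) * ∏ sg (v (n+a))`, so for large `N`
`|ncorr u' A N| ≤ |(1/log N) ∑ (∏ sg (u (n+a))) g n / n| + ε`, and the first term tends to `0` along `l` by
`per_ortho` (`u` has vanishing correlations by `bernAlong_iff`).
-/

open Filter Topology MeasureTheory

namespace Pool.Agent.Helper50.FS

namespace Distance

private theorem sg_mul (a b : ℤˣ) : sg (a * b) = sg a * sg b := by
  simp [sg]

private theorem abs_sg' (a : ℤˣ) : |sg a| = 1 := by
  rcases Int.units_eq_one_or a with h | h <;> simp [sg, h]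

private theorem unit_sq (a : ℤˣ) : a * a = 1 := by
  rcases Int.units_eq_one_or a with h | h <;> simp [h]

private theorem one_dir (u u' : ℕ → ℤˣ) (hu : IsMult u) (hu' : IsMult u')
    (hs : Summable (fun p : {p : ℕ // p.Prime ∧ u p ≠ u' p} => (1 / (p : ℕ) : ℝ)))
    (l : Filter ℕ) (hl : l ≤ atTop) (h : BernAlong u l) : BernAlong u' l := by
  rw [bernAlong_iff u' l hl]
  rw [bernAlong_iff u l hl] at h
  intro A hA
  set v : ℕ → ℤˣ := fun n => u n * u' n with hvdef
  have hv : IsMult v := by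
    refine ⟨by simp [hvdef, hu.1, hu'.1], ?_⟩
    intro m n hm hn hc
    simp only [hvdef, hu.2 m n hm hn hc, hu'.2 m n hm hn hc]
    exact mul_mul_mul_comm _ _ _ _
  have hviff : ∀ p, v p ≠ 1 ↔ u p ≠ u' p := by
    intro p
    refine not_congr ?_
    simp only [hvdef]
    constructor
    · intro h1
      calc u p = u p * 1 := (mul_one _).symm
        _ = u p * (u' p * u' p) := by rw [unit_sq]
        _ = (u p * u' p) * u' p := (mul_assoc _ _ _).symm
        _ = u' p := by rw [h1, one_mul]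
    · intro h1
      rw [h1, unit_sq]
  have hu'v : ∀ n, u' n = u n * v n := by
    intro n
    simp only [hvdef]
    rw [← mul_assoc, unit_sq, one_mul]
  have hsv : Summable (fun p : {p : ℕ // p.Prime ∧ v p ≠ 1} => (1 / (p : ℕ) : ℝ)) := by
    let e : {p : ℕ // p.Prime ∧ v p ≠ 1} ≃ {p : ℕ // p.Prime ∧ u p ≠ u' p} :=
      Equiv.subtypeEquivRight (fun p => and_congr Iff.rfl (hviff p))
    exact (e.summable_iff (f := fun p : {p : ℕ // p.Prime ∧ u p ≠ u' p} =>
      (1 / (p : ℕ) : ℝ))).mpr hs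
  rw [Metric.tendsto_nhds]
  intro ε hε
  obtain ⟨q, g, hq, hg, happ⟩ := rat_approx_mult v hv hsv A (ε / 2) (by positivity)
  have hper := per_ortho u l hl h A hA q hq g hg
  rw [Metric.tendsto_nhds] at hper
  have h1 := hper (ε / 2) (by positivity)
  have h2 := hl happ
  have h3 : ∀ᶠ N : ℕ in l, 2 ≤ N := hl (eventually_ge_atTop 2)
  filter_upwards [h1, h2, h3] with N h1 h2 h3
  rw [Real.dist_eq, sub_zero] at h1 ⊢
  have hlog : 0 ≤ 1 / Real.log (N : ℝ) := by
    have : 0 ≤ Real.log (N : ℝ) := Real.log_natCast_nonneg N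
    positivity
  have hkey : ncorr u' A N = (1 / Real.log N) *
      ∑ n ∈ Finset.Icc 1 N, (∏ a ∈ A, sg (u (n + a))) * g n / n +
      (1 / Real.log N) * ∑ n ∈ Finset.Icc 1 N,
        (∏ a ∈ A, sg (u (n + a))) * ((∏ a ∈ A, sg (v (n + a))) - g n) / n := by
    rw [ncorr, ← mul_add, ← Finset.sum_add_distrib]
    congr 1
    refine Finset.sum_congr rfl fun n _ => ?_
    have : ∏ a ∈ A, sg (u' (n + a)) =
        (∏ a ∈ A, sg (u (n + a))) * ∏ a ∈ A, sg (v (n + a)) := by
      rw [← Finset.prod_mul_distrib]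
      refine Finset.prod_congr rfl fun a _ => ?_
      rw [hu'v, sg_mul]
    rw [this]
    ring
  have hb : |(1 / Real.log N) * ∑ n ∈ Finset.Icc 1 N,
        (∏ a ∈ A, sg (u (n + a))) * ((∏ a ∈ A, sg (v (n + a))) - g n) / n| ≤
      (1 / Real.log N) *
        ∑ n ∈ Finset.Icc 1 N, |(∏ a ∈ A, sg (v (n + a))) - g n| / n := by
    rw [abs_mul, abs_of_nonneg hlog]
    refine mul_le_mul_of_nonneg_left ?_ hlog
    refine (Finset.abs_sum_le_sum_abs _ _).trans (le_of_eq ?_)
    refine Finset.sum_congr rfl fun n _ => ?_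
    rw [abs_div, abs_mul, Finset.abs_prod, Finset.prod_congr rfl (fun a _ => abs_sg' _),
      Finset.prod_const_one, one_mul, Nat.abs_cast]
  rw [hkey]
  calc _ ≤ _ := abs_add_le _ _
    _ < ε / 2 + ε / 2 := add_lt_add_of_lt_of_le h1 (hb.trans h2)
    _ = ε := by ring

end Distance

theorem distance (u u' : ℕ → ℤˣ) (hu : IsMult u) (hu' : IsMult u')
    (hs : Summable (fun p : {p : ℕ // p.Prime ∧ u p ≠ u' p} => (1 / (p : ℕ) : ℝ)))
    (l : Filter ℕ) (hl : l ≤ atTop) :
    BernAlong u l ↔ BernAlong u' l := by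
  refine ⟨Distance.one_dir u u' hu hu' hs l hl, Distance.one_dir u' u hu' hu ?_ l hl⟩
  let e : {p : ℕ // p.Prime ∧ u' p ≠ u p} ≃ {p : ℕ // p.Prime ∧ u p ≠ u' p} :=
    Equiv.subtypeEquivRight (fun p => and_congr Iff.rfl ne_comm)
  exact (e.summable_iff (f := fun p : {p : ℕ // p.Prime ∧ u p ≠ u' p} =>
    (1 / (p : ℕ) : ℝ))).mpr hs

end Pool.Agent.Helper50.FS
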