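import Pool.Agent.Helper50.FS.Defs

/-!
FS-Dense. Every continuous function on `X = {-1,1}^ℤ` is uniformly approximated by finite linear
combinations of Walsh functions.

Plan. Stone-Weierstrass (`ContinuousMap.subalgebra_topologicalClosure_eq_top_of_separatesPoints`,
`X` is compact since `ℤˣ` is finite and discrete) for `Algebra.adjoin ℝ` of the coordinate
functions `x ↦ sg (x a)`. Each element of the adjoin is a linear combination of Walsh functions:
show that the set of `g : C(X, ℝ)` of the form `∑ A ∈ s, c A * walsh A` is closed under sums,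
products (`walsh A * walsh A' = walsh (A ∆ A')`, because `sg e ^ 2 = 1`) and contains the
constants (`A = ∅`) and the coordinates; `Algebra.adjoin_induction` or a `Subalgebra` defined by
hand, or `Submodule.span` of the range of `walsh`, which is a multiplicative set.
Finally unfold membership in the closure (`Metric.mem_closure_iff`, `ContinuousMap.dist_lt_iff`
or `ContinuousMap.norm_coe_le_norm`).
-/

open Filter Topology MeasureTheory

namespace Pool.Agent.Helper50.FS

private theorem sg_sq (e : ℤˣ) : sg e * sg e = 1 := by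
  rcases Int.units_eq_one_or e with h | h <;> simp [h, sg]

private theorem sg_inj {e f : ℤˣ} (h : sg e = sg f) : e = f := by
  rcases Int.units_eq_one_or e with h1 | h1 <;> rcases Int.units_eq_one_or f with h2 | h2 <;>
    subst h1 <;> subst h2
  · rfl
  · exfalso
    simp [sg] at h
    norm_num at h
  · exfalso
    simp [sg] at h
    norm_num at h
  · rfl

private noncomputable def coord (a : ℤ) : C(X, ℝ) :=
  ⟨fun x => sg (x a), (continuous_of_discreteTopology (f := sg)).comp (continuous_apply a)⟩

private noncomputable def wal (A : Finset ℤ) : C(X, ℝ) := ∏ a ∈ A, coord a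

private theorem wal_apply (A : Finset ℤ) (x : X) : wal A x = ∏ a ∈ A, sg (x a) := by
  unfold wal
  rw [ContinuousMap.prod_apply]
  rfl

private theorem coord_sq (a : ℤ) : coord a * coord a = 1 := by
  ext x
  exact sg_sq (x a)

private theorem wal_mul (A B : Finset ℤ) : wal A * wal B = wal (symmDiff A B) := by
  classical
  have h1 : wal A = wal (A \ B) * wal (A ∩ B) := by
    unfold wal
    rw [mul_comm]
    exact (Finset.prod_inter_mul_prod_sdiff A B _).symm
  have h2 : wal B = wal (B \ A) * wal (A ∩ B) := by
    unfold wal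
    rw [mul_comm, Finset.inter_comm]
    exact (Finset.prod_inter_mul_prod_sdiff B A _).symm
  have h3 : wal (A ∩ B) * wal (A ∩ B) = 1 := by
    unfold wal
    rw [← Finset.prod_mul_distrib]
    exact Finset.prod_eq_one (fun a _ => coord_sq a)
  have h4 : wal (symmDiff A B) = wal (A \ B) * wal (B \ A) := by
    unfold wal
    rw [symmDiff_def, Finset.sup_eq_union, Finset.prod_union]
    exact disjoint_sdiff_sdiff
  calc wal A * wal B = (wal (A \ B) * wal (A ∩ B)) * (wal (B \ A) * wal (A ∩ B)) := by
        rw [← h1, ← h2]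
    _ = wal (A \ B) * wal (B \ A) * (wal (A ∩ B) * wal (A ∩ B)) := by ring
    _ = wal (symmDiff A B) := by rw [h3, mul_one, h4]

private noncomputable def WM : Submodule ℝ C(X, ℝ) := Submodule.span ℝ (Set.range wal)

private theorem WM_one : (1 : C(X, ℝ)) ∈ WM := by
  refine Submodule.subset_span ⟨∅, ?_⟩
  simp [wal]

private theorem WM_mul (f g : C(X, ℝ)) (hf : f ∈ WM) (hg : g ∈ WM) : f * g ∈ WM := by
  unfold WM at hf hg ⊢
  induction hf using Submodule.span_induction with
  | mem f hf =>
    obtain ⟨A, rfl⟩ := hf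
    induction hg using Submodule.span_induction with
    | mem g hg =>
      obtain ⟨B, rfl⟩ := hg
      rw [wal_mul]
      exact Submodule.subset_span ⟨_, rfl⟩
    | zero => rw [mul_zero]; exact Submodule.zero_mem _
    | add g1 g2 _ _ h1 h2 => rw [mul_add]; exact Submodule.add_mem _ h1 h2
    | smul c g _ h => rw [mul_smul_comm]; exact Submodule.smul_mem _ _ h
  | zero => rw [zero_mul]; exact Submodule.zero_mem _
  | add f1 f2 _ _ h1 h2 => rw [add_mul]; exact Submodule.add_mem _ h1 h2
  | smul c f _ h => rw [smul_mul_assoc]; exact Submodule.smul_mem _ _ h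

private noncomputable def WA : Subalgebra ℝ C(X, ℝ) := WM.toSubalgebra WM_one WM_mul

private theorem WA_sep : WA.SeparatesPoints := by
  intro x y hxy
  obtain ⟨a, ha⟩ : ∃ a, x a ≠ y a := by
    by_contra h
    push Not at h
    exact hxy (funext h)
  refine ⟨wal {a}, ⟨wal {a}, ?_, rfl⟩, ?_⟩
  · change wal {a} ∈ WM
    exact Submodule.subset_span ⟨_, rfl⟩
  · rw [wal_apply, wal_apply, Finset.prod_singleton, Finset.prod_singleton]
    exact fun h => ha (sg_inj h)

theorem walsh_dense (f : C(X, ℝ)) (ε : ℝ) (hε : 0 < ε) :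
    ∃ (s : Finset (Finset ℤ)) (c : Finset ℤ → ℝ),
      ∀ x : X, |f x - ∑ A ∈ s, c A * ∏ a ∈ A, sg (x a)| ≤ ε := by
  obtain ⟨g, hg⟩ := ContinuousMap.exists_mem_subalgebra_near_continuousMap_of_separatesPoints
    WA WA_sep f ε hε
  have hg2 : (g : C(X, ℝ)) ∈ Submodule.span ℝ (Set.range wal) := g.2
  rw [Finsupp.mem_span_range_iff_exists_finsupp] at hg2
  obtain ⟨c, hc⟩ := hg2
  refine ⟨c.support, c, fun x => ?_⟩
  have h1 : (g : C(X, ℝ)) x = ∑ A ∈ c.support, c A * ∏ a ∈ A, sg (x a) := by
    rw [← hc, Finsupp.sum, ContinuousMap.sum_apply]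
    refine Finset.sum_congr rfl (fun A _ => ?_)
    rw [ContinuousMap.smul_apply, smul_eq_mul, wal_apply]
  rw [← h1]
  have h2 := ContinuousMap.norm_coe_le_norm ((g : C(X, ℝ)) - f) x
  rw [ContinuousMap.sub_apply, Real.norm_eq_abs, abs_sub_comm] at h2
  exact h2.trans hg.le

end Pool.Agent.Helper50.FS
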