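import Pool.Agent.Helper50.FS.Walsh
import Pool.Agent.Helper50.FS.Dense

/-!
FS-BernCorr. Weak-* convergence to the Bernoulli measure is the same as the vanishing of all
correlations.

Plan. (a) `(1/log N) ∑_{n ≤ N} 1/n → 1` along `atTop` (Mathlib: `harmonic` bounds
`log_add_one_le_harmonic`, `harmonic_le_one_add_log`), hence along `l ≤ atTop`.
(b) `f (shift n (pt u))` for `f = walsh A` is `∏ a ∈ A, sg (pt u (a+n))`, so `logAvg u (walsh A) N
= corr u A N`; for `A = ∅` it tends to 1 by (a), for `A` nonempty the integral is `0`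
(`integral_walsh`). (c) For general `f` use `walsh_dense`: both sides change by at most
`ε * (sup of (a))` resp. `ε` (`bern` is a probability measure; `Measure.infinitePi` has the
instance `IsProbabilityMeasure`). Standard `ε/3` argument.
The converse is (b) alone (the Walsh function as an element of `C(X, ℝ)`: `sg` is continuous since
`ℤˣ` is discrete).
-/

open Filter Topology MeasureTheory

namespace Pool.Agent.Helper50.FS

/-- the Walsh function as a continuous function -/
noncomputable def bcWalsh (A : Finset ℤ) : C(X, ℝ) where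
  toFun x := ∏ a ∈ A, sg (x a)
  continuous_toFun := by
    refine continuous_finsetProd _ fun a _ => ?_
    exact (continuous_of_discreteTopology (f := sg)).comp (continuous_apply a)

theorem logAvg_bcWalsh (u : ℕ → ℤˣ) (A : Finset ℤ) (N : ℕ) :
    logAvg u (bcWalsh A) N = corr u A N := rfl

/-- normalised harmonic sums -/
noncomputable def bcHav (N : ℕ) : ℝ := (1 / Real.log N) * ∑ n ∈ Finset.Icc 1 N, (1 : ℝ) / n

theorem bc_tendsto_hav : Tendsto bcHav atTop (𝓝 1) := by
  have hl : Tendsto (fun N : ℕ => Real.log (N : ℝ)) atTop atTop :=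
    Real.tendsto_log_atTop.comp tendsto_natCast_atTop_atTop
  have h1 : Tendsto (fun N : ℕ => 1 + 1 / Real.log (N : ℝ)) atTop (𝓝 1) := by
    have h2 : Tendsto (fun N : ℕ => 1 / Real.log (N : ℝ)) atTop (𝓝 0) := by
      have := hl.inv_tendsto_atTop
      refine this.congr fun N => ?_
      rw [Pi.inv_apply, one_div]
    simpa using h2.const_add 1
  have hH : ∀ N : ℕ, (∑ n ∈ Finset.Icc 1 N, (1 : ℝ) / n) = (harmonic N : ℝ) := by
    intro N
    rw [harmonic_eq_sum_Icc]
    push_cast
    exact Finset.sum_congr rfl fun n _ => by rw [one_div]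
  refine tendsto_of_tendsto_of_tendsto_of_le_of_le' (tendsto_const_nhds (x := (1 : ℝ))) h1 ?_ ?_
  · filter_upwards [Filter.eventually_ge_atTop 2] with N hN
    have hN1 : (1 : ℝ) < N := by exact_mod_cast hN
    have hlog : 0 < Real.log N := Real.log_pos hN1
    unfold bcHav
    rw [hH, one_div, ← div_eq_inv_mul, le_div_iff₀ hlog, one_mul]
    refine le_trans ?_ (log_add_one_le_harmonic N)
    apply Real.log_le_log (by linarith)
    push_cast
    linarith
  · filter_upwards [Filter.eventually_ge_atTop 2] with N hN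
    have hN1 : (1 : ℝ) < N := by exact_mod_cast hN
    have hlog : 0 < Real.log N := Real.log_pos hN1
    unfold bcHav
    rw [hH, one_div, ← div_eq_inv_mul, div_le_iff₀ hlog, add_mul, one_mul,
      inv_mul_cancel₀ hlog.ne']
    have := harmonic_le_one_add_log N
    linarith

theorem bc_hav_nonneg (N : ℕ) : 0 ≤ bcHav N := by
  unfold bcHav
  refine mul_nonneg (one_div_nonneg.2 (Real.log_natCast_nonneg N)) ?_
  exact Finset.sum_nonneg fun n _ => by positivity

instance bc_prob : IsProbabilityMeasure bern := by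
  unfold bern
  infer_instance

instance bc_single : MeasurableSingletonClass ℤˣ := ⟨fun a => by
  have : ({a} : Set ℤˣ) = Units.val ⁻¹' {(a : ℤ)} := by
    ext b
    simp [Units.ext_iff]
  rw [this]
  exact ⟨_, MeasurableSet.singleton _, rfl⟩⟩

instance bc_opens : OpensMeasurableSpace ℤˣ := ⟨fun _ _ => MeasurableSet.of_discrete⟩

theorem bc_corr_tendsto (u : ℕ → ℤˣ) (l : Filter ℕ) (hl : l ≤ atTop)
    (h : ∀ A : Finset ℤ, A.Nonempty → Tendsto (corr u A) l (𝓝 0)) (A : Finset ℤ) :
    Tendsto (corr u A) l (𝓝 (∫ x : X, ∏ a ∈ A, sg (x a) ∂bern)) := by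
  rcases A.eq_empty_or_nonempty with rfl | hA
  · have h1 : (∫ x : X, ∏ a ∈ (∅ : Finset ℤ), sg (x a) ∂bern) = 1 := by
      simp
    rw [h1]
    have h2 : corr u ∅ = bcHav := by
      funext N
      simp [corr, bcHav]
    rw [h2]
    exact bc_tendsto_hav.mono_left hl
  · rw [integral_walsh A hA]
    exact h A hA

theorem bernAlong_of_corr (u : ℕ → ℤˣ) (l : Filter ℕ) (hl : l ≤ atTop)
    (h : ∀ A : Finset ℤ, A.Nonempty → Tendsto (corr u A) l (𝓝 0)) : BernAlong u l := by
  intro f
  rw [Metric.tendsto_nhds]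
  intro ε hε
  obtain ⟨s, c, hsc⟩ := walsh_dense f (ε / 5) (by positivity)
  set g : C(X, ℝ) := ∑ A ∈ s, c A • bcWalsh A with hg
  have hgx : ∀ x, g x = ∑ A ∈ s, c A * ∏ a ∈ A, sg (x a) := by
    intro x
    rw [hg, ContinuousMap.sum_apply]
    rfl
  have hfg : ∀ x, |f x - g x| ≤ ε / 5 := fun x => by rw [hgx]; exact hsc x
  have hgL : ∀ N, logAvg u g N = ∑ A ∈ s, c A * corr u A N := by
    intro N
    unfold logAvg corr
    simp only [hgx, Finset.sum_div, Finset.mul_sum]
    rw [Finset.sum_comm]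
    refine Finset.sum_congr rfl fun A _ => Finset.sum_congr rfl fun n _ => ?_
    simp only [shift]
    ring
  have hint : ∀ F : C(X, ℝ), Integrable (fun x => F x) bern := fun F =>
    F.continuous.integrable_of_hasCompactSupport (HasCompactSupport.of_compactSpace _)
  have hgI : ∫ x, g x ∂bern = ∑ A ∈ s, c A * ∫ x : X, ∏ a ∈ A, sg (x a) ∂bern := by
    simp only [hgx]
    rw [integral_finsetSum _ fun A _ => ?_]
    · exact Finset.sum_congr rfl fun A _ => integral_const_mul _ _
    · exact (hint (bcWalsh A)).const_mul (c A)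
  have hgT : Tendsto (logAvg u g) l (𝓝 (∫ x, g x ∂bern)) := by
    rw [hgI]
    have : logAvg u g = fun N => ∑ A ∈ s, c A * corr u A N := funext hgL
    rw [this]
    exact tendsto_finsetSum _ fun A _ => (bc_corr_tendsto u l hl h A).const_mul (c A)
  have h1 : ∀ᶠ N in l, |logAvg u g N - ∫ x, g x ∂bern| < ε / 5 := by
    have := (Metric.tendsto_nhds.1 hgT) (ε / 5) (by positivity)
    filter_upwards [this] with N hN
    rwa [Real.dist_eq] at hN
  have h2 : ∀ᶠ N in l, bcHav N < 2 :=
    (bc_tendsto_hav.mono_left hl).eventually_lt_const (by norm_num)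
  have h3 : |(∫ x, f x ∂bern) - ∫ x, g x ∂bern| ≤ ε / 5 := by
    rw [← integral_sub (hint f) (hint g)]
    have := norm_integral_le_of_norm_le_const (μ := bern) (f := fun x => f x - g x) (C := ε / 5)
      (Filter.Eventually.of_forall fun x => by rw [Real.norm_eq_abs]; exact hfg x)
    rw [Real.norm_eq_abs] at this
    simpa using this
  have h4 : ∀ N, |logAvg u f N - logAvg u g N| ≤ ε / 5 * bcHav N := by
    intro N
    have e1 : logAvg u f N - logAvg u g N = (1 / Real.log N) * ∑ n ∈ Finset.Icc 1 N,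
        (f (shift (n : ℤ) (pt u)) - g (shift (n : ℤ) (pt u))) / n := by
      unfold logAvg
      rw [← mul_sub, ← Finset.sum_sub_distrib]
      congr 1
      exact Finset.sum_congr rfl fun n _ => by rw [sub_div]
    have hlog : 0 ≤ 1 / Real.log (N : ℝ) := one_div_nonneg.2 (Real.log_natCast_nonneg N)
    rw [e1, abs_mul, abs_of_nonneg hlog]
    have e2 : |∑ n ∈ Finset.Icc 1 N,
        (f (shift (n : ℤ) (pt u)) - g (shift (n : ℤ) (pt u))) / (n : ℝ)| ≤
        ∑ n ∈ Finset.Icc 1 N, ε / 5 * ((1 : ℝ) / n) := by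
      refine (Finset.abs_sum_le_sum_abs _ _).trans (Finset.sum_le_sum fun n _ => ?_)
      rw [abs_div, Nat.abs_cast, div_eq_mul_one_div]
      exact mul_le_mul_of_nonneg_right (hfg _) (by positivity)
    calc (1 / Real.log (N : ℝ)) * |∑ n ∈ Finset.Icc 1 N,
        (f (shift (n : ℤ) (pt u)) - g (shift (n : ℤ) (pt u))) / (n : ℝ)| ≤
        (1 / Real.log (N : ℝ)) * ∑ n ∈ Finset.Icc 1 N, ε / 5 * ((1 : ℝ) / n) :=
          mul_le_mul_of_nonneg_left e2 hlog
      _ = ε / 5 * bcHav N := by
          unfold bcHav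
          rw [← Finset.mul_sum]
          ring
  filter_upwards [h1, h2] with N hN1 hN2
  rw [Real.dist_eq]
  have h5 := h4 N
  have h6 : ε / 5 * bcHav N ≤ ε / 5 * 2 := mul_le_mul_of_nonneg_left hN2.le (by positivity)
  have e3 : logAvg u f N - ∫ x, f x ∂bern = (logAvg u f N - logAvg u g N) +
      (logAvg u g N - ∫ x, g x ∂bern) - ((∫ x, f x ∂bern) - ∫ x, g x ∂bern) := by ring
  rw [e3]
  refine (abs_sub _ _).trans_lt ?_
  have := abs_add_le (logAvg u f N - logAvg u g N) (logAvg u g N - ∫ x, g x ∂bern)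
  linarith

theorem corr_of_bernAlong (u : ℕ → ℤˣ) (l : Filter ℕ)
    (h : BernAlong u l) (A : Finset ℤ) (hA : A.Nonempty) : Tendsto (corr u A) l (𝓝 0) := by
  have h1 := h (bcWalsh A)
  have h2 : (∫ x, bcWalsh A x ∂bern) = 0 := integral_walsh A hA
  rw [h2] at h1
  exact h1

end Pool.Agent.Helper50.FS
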