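import Mathlib

/-!
Project FS (MP_a4fdfa_an): sparse random perturbations of a sequence with values in {-1,1}
have the Bernoulli shift as their unique Furstenberg system.
-/

open Filter Topology MeasureTheory

namespace Pool.Agent.Helper50.FS

/-- Multiplicative functions with values in `{-1,1}` (the value at `0` is irrelevant). -/
def IsMult (u : ℕ → ℤˣ) : Prop :=
  u 1 = 1 ∧ ∀ m n : ℕ, 0 < m → 0 < n → Nat.Coprime m n → u (m * n) = u m * u n

/-- The space of two-sided sequences with values in `{-1,1}`, product topology. -/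
abbrev X : Type := ℤ → ℤˣ

/-- The point of `X` attached to `u`: `u n` for `n > 0` and `1` for `n ≤ 0`. -/
def pt (u : ℕ → ℤˣ) : X := fun n => if 0 < n then u n.toNat else 1

/-- The `n`-th power of the shift: `(S^n x)(m) = x(m+n)`. -/
def shift (n : ℤ) (x : X) : X := fun m => x (m + n)

/-- The logarithmic average `(1/log N) ∑_{n ≤ N} f(S^n u)/n`. -/
noncomputable def logAvg (u : ℕ → ℤˣ) (f : C(X, ℝ)) (N : ℕ) : ℝ :=
  (1 / Real.log N) * ∑ n ∈ Finset.Icc 1 N, f (shift (n : ℤ) (pt u)) / n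

/-- The uniform probability on `{-1,1}`. -/
noncomputable def half : Measure ℤˣ :=
  (2⁻¹ : ENNReal) • (Measure.dirac 1 + Measure.dirac (-1))

instance : IsProbabilityMeasure half := by
  constructor
  simp only [half, Measure.smul_apply, Measure.add_apply, measure_univ, smul_eq_mul]
  rw [one_add_one_eq_two]
  exact ENNReal.inv_mul_cancel (by norm_num) (by norm_num)

/-- The Bernoulli measure `(1/2,1/2)` on `{-1,1}^ℤ`. -/
noncomputable def bern : Measure X := Measure.infinitePi (fun _ : ℤ => half)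

/-- The weak-* limit of the logarithmic averages of `δ_{S^n u}` along the filter `l` (on the
set of upper end points `N`) is the Bernoulli measure. -/
def BernAlong (u : ℕ → ℤˣ) (l : Filter ℕ) : Prop :=
  ∀ f : C(X, ℝ), Tendsto (logAvg u f) l (𝓝 (∫ x, f x ∂bern))

/-- `u` has a unique Furstenberg system, and this is the Bernoulli shift `(X, bern, S)`. -/
def IsBern (u : ℕ → ℤˣ) : Prop := BernAlong u atTop

/-- Independent fair signs `r(0), r(1), ...`. -/
noncomputable def signs : Measure (ℕ → ℤˣ) := Measure.infinitePi (fun _ : ℕ => half)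

open Classical in
/-- `u` multiplied by the completely multiplicative function that is `r p` at the primes `p ∈ P`
and `1` at all other primes. -/
noncomputable def twist (P : Set ℕ) (u : ℕ → ℤˣ) (r : ℕ → ℤˣ) : ℕ → ℤˣ := fun n =>
  u n * ∏ p ∈ n.primeFactors.filter (fun p => p ∈ P), r p ^ n.factorization p

/-- `∑_{p ∈ B} 1/p`. -/
noncomputable def mass (B : Finset ℕ) : ℝ := ∑ p ∈ B, (1 / p : ℝ)

open Classical in
/-- The elements of `P` in `[1,N]`. -/
noncomputable def upTo (P : Set ℕ) (N : ℕ) : Finset ℕ := (Finset.Icc 1 N).filter (fun p => p ∈ P)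

/-- A set of primes is tame if it contains finite sets `B 0, B 1, ...` with `mass (B j) → ∞`,
`B j ⊆ [Q j, T j]` and `∑_j (log (T (j+1)))^2 / Q j < ∞`. -/
def Tame (P : Set ℕ) : Prop :=
  (∀ p ∈ P, p.Prime) ∧
  ∃ (B : ℕ → Finset ℕ) (Q T : ℕ → ℕ),
    (∀ j, ∀ p ∈ B j, p ∈ P ∧ Q j ≤ p ∧ p ≤ T j) ∧
    Tendsto (fun j => mass (B j)) atTop atTop ∧
    (∀ j, 2 ≤ Q j) ∧
    Summable (fun j => (Real.log (T (j + 1))) ^ 2 / Q j)

/-- Sign as a real number. -/
def sg (e : ℤˣ) : ℝ := ((e : ℤ) : ℝ)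

/-- Correlations with integer shifts. -/
noncomputable def corr (u : ℕ → ℤˣ) (A : Finset ℤ) (N : ℕ) : ℝ :=
  (1 / Real.log N) * ∑ n ∈ Finset.Icc 1 N, (∏ a ∈ A, sg (pt u (a + n))) / n

/-- Correlations with nonnegative shifts. -/
noncomputable def ncorr (u : ℕ → ℤˣ) (A : Finset ℕ) (N : ℕ) : ℝ :=
  (1 / Real.log N) * ∑ n ∈ Finset.Icc 1 N, (∏ a ∈ A, sg (u (n + a))) / n

/-- The primes of `B` that divide `∏_{a ∈ A} (n+a)` to an odd power. -/
def odd (B A : Finset ℕ) (n : ℕ) : Finset ℕ :=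
  B.filter (fun p => Odd (∑ a ∈ A, (n + a).factorization p))

/-- The part of the correlation of `twist P u r` over the `n` with `odd B A n ≠ ∅`. -/
noncomputable def hpart (P : Set ℕ) (u : ℕ → ℤˣ) (B A : Finset ℕ) (N : ℕ) (r : ℕ → ℤˣ) : ℝ :=
  (1 / Real.log N) * ∑ n ∈ (Finset.Icc 1 N).filter (fun n => odd B A n ≠ ∅),
    (∏ a ∈ A, sg (twist P u r (n + a))) / n

/-- The part of the correlation of `twist P u r` over the `n` with `odd B A n = ∅`. -/
noncomputable def gpart (P : Set ℕ) (u : ℕ → ℤˣ) (B A : Finset ℕ) (N : ℕ) (r : ℕ → ℤˣ) : ℝ :=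
  (1 / Real.log N) * ∑ n ∈ (Finset.Icc 1 N).filter (fun n => odd B A n = ∅),
    (∏ a ∈ A, sg (twist P u r (n + a))) / n

end Pool.Agent.Helper50.FS
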