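import Mathlib

/-!
FS-Count. Chinese remainder theorem count.

Plan. Induction on `B`. Let `D = ∏_{p ∈ B} p^2` and `E_p(n) : ¬ (p ∣ n+a ∧ ¬ p^2 ∣ n+a)`, a
condition on `n mod p^2`. The number of `n` in a complete residue system mod `p^2` that satisfy
`E_p` is `p^2 - p + 1` (the multiples of `p` are `p` classes, one of them is divisible by `p^2`). For
coprime `m, m'` and conditions `F` mod `m`, `F'` mod `m'`, the number of `n ∈ [1, m m']` with both is
the product of the numbers (`Nat.chineseRemainder`, `ZMod.chineseRemainder`; work with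
`Finset.range`, `Nat.count`, or with `ZMod (m m') ≃ ZMod m × ZMod m'`).
-/

namespace Pool.Agent.Helper50.FS

private theorem card_and (m m' : ℕ) (hm : 0 < m) (hm' : 0 < m') (hco : Nat.Coprime m m')
    (F F' : ℕ → Prop) [DecidablePred F] [DecidablePred F'] (hF : ∀ n, F n ↔ F (n % m))
    (hF' : ∀ n, F' n ↔ F' (n % m')) :
    ((Finset.range (m * m')).filter (fun n => F n ∧ F' n)).card =
      ((Finset.range m).filter F).card * ((Finset.range m').filter F').card := by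
  rw [← Finset.card_product]
  refine Finset.card_bij (fun n _ => (n % m, n % m')) ?_ ?_ ?_
  · intro n hn
    rw [Finset.mem_filter, Finset.mem_range] at hn
    rw [Finset.mem_product, Finset.mem_filter, Finset.mem_filter, Finset.mem_range,
      Finset.mem_range]
    exact ⟨⟨Nat.mod_lt _ hm, (hF n).1 hn.2.1⟩, Nat.mod_lt _ hm', (hF' n).1 hn.2.2⟩
  · intro n hn n' hn' h
    rw [Finset.mem_filter, Finset.mem_range] at hn hn'
    rw [Prod.mk.injEq] at h
    have h1 := (Nat.modEq_and_modEq_iff_modEq_mul hco).1 ⟨h.1, h.2⟩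
    exact Nat.ModEq.eq_of_lt_of_lt h1 hn.1 hn'.1
  · rintro ⟨x, y⟩ hxy
    rw [Finset.mem_product, Finset.mem_filter, Finset.mem_filter, Finset.mem_range,
      Finset.mem_range] at hxy
    obtain ⟨⟨hx, hFx⟩, hy, hFy⟩ := hxy
    change x < m at hx
    change y < m' at hy
    have hk := Nat.chineseRemainder_lt_mul hco x y hm.ne' hm'.ne'
    have h1 : ((Nat.chineseRemainder hco x y : ℕ)) % m = x := by
      have h := (Nat.chineseRemainder hco x y).2.1
      rw [Nat.ModEq, Nat.mod_eq_of_lt hx] at h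
      exact h
    have h2 : ((Nat.chineseRemainder hco x y : ℕ)) % m' = y := by
      have h := (Nat.chineseRemainder hco x y).2.2
      rw [Nat.ModEq, Nat.mod_eq_of_lt hy] at h
      exact h
    refine ⟨(Nat.chineseRemainder hco x y : ℕ), ?_, ?_⟩
    · rw [Finset.mem_filter, Finset.mem_range]
      refine ⟨hk, ?_, ?_⟩
      · rw [hF, h1]
        exact hFx
      · rw [hF', h2]
        exact hFy
    · rw [h1, h2]

private theorem mod_iff (p a n : ℕ) :
    (¬ (p ∣ n + a ∧ ¬ p ^ 2 ∣ n + a)) ↔ ¬ (p ∣ n % p ^ 2 + a ∧ ¬ p ^ 2 ∣ n % p ^ 2 + a) := by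
  have h1 : n + a = p ^ 2 * (n / p ^ 2) + (n % p ^ 2 + a) := by
    have := Nat.div_add_mod n (p ^ 2)
    omega
  have h2 : p ^ 2 ∣ p ^ 2 * (n / p ^ 2) := dvd_mul_right _ _
  have h3 : p ∣ p ^ 2 * (n / p ^ 2) := (dvd_pow_self p two_ne_zero).trans h2
  rw [h1, Nat.dvd_add_right h2, Nat.dvd_add_right h3]

private theorem count_one (p : ℕ) (hp : p.Prime) (a : ℕ) :
    ((Finset.range (p ^ 2)).filter (fun n => ¬ (p ∣ n + a ∧ ¬ p ^ 2 ∣ n + a))).card =
      p ^ 2 - p + 1 := by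
  have hp0 := hp.pos
  have hper : Function.Periodic (fun x : ℕ => ¬ (p ∣ x ∧ ¬ p ^ 2 ∣ x)) (p ^ 2) := by
    intro x
    change (¬ (p ∣ x + p ^ 2 ∧ ¬ p ^ 2 ∣ x + p ^ 2)) = ¬ (p ∣ x ∧ ¬ p ^ 2 ∣ x)
    rw [Nat.dvd_add_left (dvd_refl (p ^ 2)), Nat.dvd_add_left (dvd_pow_self p two_ne_zero)]
  have h1 : ((Finset.range (p ^ 2)).filter (fun n => ¬ (p ∣ n + a ∧ ¬ p ^ 2 ∣ n + a))).card =
      ((Finset.Ico a (a + p ^ 2)).filter (fun x => ¬ (p ∣ x ∧ ¬ p ^ 2 ∣ x))).card := by
    refine Finset.card_bij (fun n _ => n + a) ?_ ?_ ?_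
    · intro n hn
      rw [Finset.mem_filter, Finset.mem_range] at hn
      rw [Finset.mem_filter, Finset.mem_Ico]
      exact ⟨⟨by omega, by omega⟩, hn.2⟩
    · intro n _ n' _ h
      exact Nat.add_right_cancel h
    · intro x hx
      rw [Finset.mem_filter, Finset.mem_Ico] at hx
      refine ⟨x - a, ?_, Nat.sub_add_cancel hx.1.1⟩
      rw [Finset.mem_filter, Finset.mem_range, Nat.sub_add_cancel hx.1.1]
      exact ⟨by omega, hx.2⟩
  rw [h1, Nat.filter_Ico_card_eq_of_periodic _ _ _ hper, Nat.count_eq_card_filter_range]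
  have h2 : (Finset.range (p ^ 2)).filter (fun x => p ∣ x ∧ ¬ p ^ 2 ∣ x) =
      (Finset.Ico 1 p).image (fun k => p * k) := by
    ext x
    rw [Finset.mem_filter, Finset.mem_range, Finset.mem_image]
    constructor
    · rintro ⟨hx, ⟨k, rfl⟩, h⟩
      refine ⟨k, ?_, rfl⟩
      rw [Finset.mem_Ico]
      constructor
      · rcases Nat.eq_zero_or_pos k with hk | hk
        · exfalso
          apply h
          rw [hk, mul_zero]
          exact dvd_zero _
        · exact hk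
      · rw [pow_two] at hx
        exact Nat.lt_of_mul_lt_mul_left hx
    · rintro ⟨k, hk, rfl⟩
      rw [Finset.mem_Ico] at hk
      refine ⟨?_, dvd_mul_right _ _, ?_⟩
      · rw [pow_two]
        exact Nat.mul_lt_mul_of_pos_left hk.2 hp0
      · rw [pow_two]
        intro h
        have h3 := Nat.le_of_dvd hk.1 (Nat.dvd_of_mul_dvd_mul_left hp0 h)
        omega
  have h3 := Finset.card_filter_add_card_filter_not (s := Finset.range (p ^ 2))
    (fun x => p ∣ x ∧ ¬ p ^ 2 ∣ x)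
  rw [h2, Finset.card_image_of_injective _ (fun x y h => Nat.eq_of_mul_eq_mul_left hp0 h),
    Nat.card_Ico, Finset.card_range] at h3
  have h4 : p ≤ p ^ 2 := Nat.le_self_pow two_ne_zero p
  omega

private theorem count_range (B : Finset ℕ) (hB : ∀ p ∈ B, p.Prime) (a : ℕ) :
    ((Finset.range (∏ p ∈ B, p ^ 2)).filter
      (fun n => ∀ p ∈ B, ¬ (p ∣ n + a ∧ ¬ p ^ 2 ∣ n + a))).card = ∏ p ∈ B, (p ^ 2 - p + 1) := by
  induction B using Finset.induction_on with
  | empty =>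
    rw [Finset.prod_empty, Finset.prod_empty]
    simp
  | insert q B hq ih =>
    have hqp := hB q (Finset.mem_insert_self q B)
    have hBp : ∀ p ∈ B, p.Prime := fun p hp => hB p (Finset.mem_insert_of_mem hp)
    have hD : 0 < ∏ p ∈ B, p ^ 2 := Finset.prod_pos fun p hp => pow_pos (hBp p hp).pos 2
    have hco : Nat.Coprime (q ^ 2) (∏ p ∈ B, p ^ 2) := by
      apply Nat.Coprime.prod_right
      intro p hp
      apply Nat.Coprime.pow
      rw [Nat.coprime_primes hqp (hBp p hp)]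
      rintro rfl
      exact hq hp
    have h1 := card_and (q ^ 2) (∏ p ∈ B, p ^ 2) (pow_pos hqp.pos 2) hD hco
      (fun n => ¬ (q ∣ n + a ∧ ¬ q ^ 2 ∣ n + a))
      (fun n => ∀ p ∈ B, ¬ (p ∣ n + a ∧ ¬ p ^ 2 ∣ n + a)) (fun n => mod_iff q a n) (fun n => by
        refine forall₂_congr fun p hp => ?_
        rw [mod_iff p a n, mod_iff p a (n % ∏ p ∈ B, p ^ 2)]
        rw [Nat.mod_mod_of_dvd n (Finset.dvd_prod_of_mem (fun p => p ^ 2) hp)])
    rw [Finset.prod_insert hq, Finset.prod_insert hq, ← ih hBp, ← count_one q hqp a, ← h1]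
    congr 1
    apply Finset.filter_congr
    intro n _
    rw [Finset.forall_mem_insert]

theorem count (B : Finset ℕ) (hB : ∀ p ∈ B, p.Prime) (a : ℕ) :
    ((Finset.Icc 1 (∏ p ∈ B, p ^ 2)).filter
      (fun n => ∀ p ∈ B, ¬ (p ∣ n + a ∧ ¬ p ^ 2 ∣ n + a))).card = ∏ p ∈ B, (p ^ 2 - p + 1) := by
  rw [← count_range B hB a]
  have hper : Function.Periodic (fun n : ℕ => ∀ p ∈ B, ¬ (p ∣ n + a ∧ ¬ p ^ 2 ∣ n + a))
      (∏ p ∈ B, p ^ 2) := by
    intro n
    apply propext
    refine forall₂_congr fun p hp => ?_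
    have h2 : p ^ 2 ∣ ∏ p ∈ B, p ^ 2 := Finset.dvd_prod_of_mem (fun p => p ^ 2) hp
    have h3 : p ∣ ∏ p ∈ B, p ^ 2 := (dvd_pow_self p two_ne_zero).trans h2
    have h4 : n + (∏ p ∈ B, p ^ 2) + a = (∏ p ∈ B, p ^ 2) + (n + a) := by ring
    rw [h4, Nat.dvd_add_right h2, Nat.dvd_add_right h3]
  have h1 := Nat.filter_Ico_card_eq_of_periodic 1 (∏ p ∈ B, p ^ 2) _ hper
  rw [Nat.count_eq_card_filter_range] at h1
  have h5 : Finset.Icc 1 (∏ p ∈ B, p ^ 2) = Finset.Ico 1 (1 + ∏ p ∈ B, p ^ 2) := by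
    ext n
    rw [Finset.mem_Icc, Finset.mem_Ico]
    omega
  rw [h5, h1]

end Pool.Agent.Helper50.FS
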