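import Pool.Agent.Helper50.FS.Mertens

/-!
FS-Exist. Tame sets of primes with extremely slowly growing `∑_{p ≤ N} 1/p`.

Plan. Let `C` be as in `mertens_low`. Define `Q 0 = q0` (large) and
`Q (j+1) = ⌈exp((Q j)^(1/32))⌉`, `T j = ⌈exp(exp(C + j) (log (Q j))^4)⌉`, both real powers. For `q0` large
`Q` grows at least like `Q (j+2) ≥ exp(Q j)` and `Q j ≥ 100^j` etc. The primes in `(Q j, T j]` have
mass `≥ j`; let `B j` be a subset of them of mass in `[j, j+1]` (remove elements one by one: each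
element has `1/p ≤ 1`; or take `B j` minimal among the initial segments with mass `≥ j`).
`P = ⋃ B j`. Tameness: `log T (j+1) ≤ 1 + exp(C+j+1) (log Q (j+1))^4 ≤ 1 + exp(C+j+1) (1 + (Q j)^(1/32))^4`,
so `(log T (j+1))^2/Q j ≤ C' e^(2j) (Q j)^(1/4)/Q j`, summable because `Q j` grows faster than
`100^j`. Slowness: if `Q k ≤ N < Q (k+1)`, then `upTo P N ⊆ ⋃_{j ≤ k} B j`, so
`mass (upTo P N) ≤ ∑_{j ≤ k} (j+1) ≤ (k+1)^2`. On the other side
`log^[m] N ≥ log^[m] (Q k) ≥ Q (k - 2m)` for `k ≥ 2m` (from `Q (j+2) ≥ exp (Q j)`), and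
`Q (k-2m) ≥ 100^(k-2m)`, so the quotient `(k+1)^2/Q (k-2m)` tends to `0` as `k → ∞`.
(For monotonicity of `log^[m]`: only values `> 1` occur for the iterates in question.)
You may change the recursion (for instance use `Q (j+1) = 2^(⌈(Q j)^(1/32)⌉)` or a slower one such that
`Q (j+2) ≥ exp (Q j)` still holds; every choice with the two properties is fine).
-/

open Filter Topology MeasureTheory Asymptotics

namespace Pool.Agent.Helper50.FS

private def exA : ℕ → ℕ
  | 0 => 400
  | j + 1 => 2 ^ (exA j / 16)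

private lemma ex_pow (f : ℕ) (hf : 9 ≤ f) : 32 * (f + 1) ≤ 2 ^ f := by
  induction f, hf using Nat.le_induction with
  | base => norm_num
  | succ n hn ih => rw [pow_succ]; omega

private lemma exA_ge (j : ℕ) : 400 ≤ exA j := by
  induction j with
  | zero => exact le_refl _
  | succ j ih =>
    have h1 : 25 ≤ exA j / 16 := by omega
    calc 400 ≤ 2 ^ 25 := by norm_num
      _ ≤ 2 ^ (exA j / 16) := Nat.pow_le_pow_right (by norm_num) h1

private lemma exA_two (j : ℕ) : 2 * exA j ≤ exA (j + 1) := by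
  have h1 := exA_ge j
  have h2 := ex_pow (exA j / 16) (by omega)
  show 2 * exA j ≤ 2 ^ (exA j / 16)
  omega

private lemma exA_pow (j : ℕ) : 400 * 2 ^ j ≤ exA j := by
  induction j with
  | zero => exact le_refl _
  | succ j ih =>
    have := exA_two j
    rw [pow_succ]; omega

private lemma exA_strict : StrictMono exA := by
  apply strictMono_nat_of_lt_succ
  intro j
  have := exA_two j
  have := exA_ge j
  omega

private noncomputable def exB (j : ℕ) : ℝ := (exA j : ℝ) / 64

private lemma exB_pos (j : ℕ) : 0 < exB j := by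
  have := exA_ge j
  have h : (400 : ℝ) ≤ exA j := by exact_mod_cast this
  unfold exB; linarith

private lemma exB_log (j : ℕ) : exB j ≤ Real.log (exB (j + 1)) := by
  have h1 := exA_ge j
  set f := exA j / 16 with hf
  have hf25 : 25 ≤ f := by omega
  have h2 : exA j ≤ 16 * f + 15 := by omega
  have h3 : exB (j + 1) = 2 ^ f / 64 := by
    unfold exB
    have : exA (j + 1) = 2 ^ f := rfl
    rw [this]; push_cast; ring
  have h64 : (64 : ℝ) = 2 ^ 6 := by norm_num
  rw [h3, Real.log_div (by positivity) (by norm_num), Real.log_pow, h64, Real.log_pow]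
  have h4 : exB j ≤ (16 * f + 15) / 64 := by
    unfold exB
    have : (exA j : ℝ) ≤ 16 * f + 15 := by exact_mod_cast h2
    linarith
  have h5 : (25 : ℝ) ≤ f := by exact_mod_cast hf25
  have h6 := Real.log_two_gt_d9
  push_cast
  nlinarith

private lemma exB_iter (m : ℕ) : ∀ (j : ℕ) (x : ℝ), exB (j + m) ≤ x → exB j ≤ Real.log^[m] x := by
  induction m with
  | zero => intro j x hx; exact hx
  | succ m ih =>
    intro j x hx
    rw [Function.iterate_succ_apply]
    apply ih
    have h1 : exB (j + m) ≤ Real.log (exB (j + m + 1)) := exB_log _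
    exact le_trans h1 (Real.log_le_log (exB_pos _) hx)

private lemma ex_mass_nonneg (S : Finset ℕ) : 0 ≤ mass S :=
  Finset.sum_nonneg fun p _ => by positivity

private lemma ex_mass_mono {S T : Finset ℕ} (h : S ⊆ T) : mass S ≤ mass T :=
  Finset.sum_le_sum_of_subset_of_nonneg h fun p _ _ => by positivity

private lemma ex_mass_union (S T : Finset ℕ) : mass (S ∪ T) ≤ mass S + mass T := by
  have h1 := Finset.sum_union_inter (s₁ := S) (s₂ := T) (f := fun p : ℕ => (1 / p : ℝ))
  have h2 := ex_mass_nonneg (S ∩ T)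
  unfold mass at *
  linarith

private lemma ex_mass_biUnion (B : ℕ → Finset ℕ) (n : ℕ) :
    mass ((Finset.range n).biUnion B) ≤ ∑ j ∈ Finset.range n, mass (B j) := by
  induction n with
  | zero => simp [mass]
  | succ n ih =>
    rw [Finset.range_add_one, Finset.biUnion_insert, Finset.sum_insert Finset.notMem_range_self]
    exact le_trans (ex_mass_union _ _) (by linarith)

private lemma ex_sub (S : Finset ℕ) (r : ℝ) (hr : 0 ≤ r) (h : r ≤ mass S) :
    ∃ B ⊆ S, r ≤ mass B ∧ mass B ≤ r + 1 := by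
  induction S using Finset.induction_on with
  | empty =>
    refine ⟨∅, le_refl _, h, ?_⟩
    simp only [mass, Finset.sum_empty] at *
    linarith
  | insert p S hp ih =>
    by_cases h1 : r ≤ mass S
    · obtain ⟨B, hB, h2⟩ := ih h1
      exact ⟨B, hB.trans (Finset.subset_insert _ _), h2⟩
    · refine ⟨insert p S, le_refl _, h, ?_⟩
      have h2 : mass (insert p S) = 1 / p + mass S := by
        unfold mass; rw [Finset.sum_insert hp]
      have h3 : (1 / p : ℝ) ≤ 1 := by
        rcases Nat.eq_zero_or_pos p with h0 | h0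
        · subst h0; simp
        · rw [div_le_one (by exact_mod_cast h0)]
          exact_mod_cast h0
      rw [h2]; push Not at h1; linarith

theorem exists_sparse_tame : ∃ P : Set ℕ, Tame P ∧
    ∀ m : ℕ, (fun N : ℕ => mass (upTo P N)) =o[atTop] (fun N : ℕ => Real.log^[m] (N : ℝ)) := by
  obtain ⟨C, hC0, hC⟩ := mertens_low
  let Q : ℕ → ℕ := fun j => 2 ^ exA j
  let E : ℕ → ℝ := fun j => Real.exp (C + j) * (Real.log (Q j)) ^ 4
  let T : ℕ → ℕ := fun j => ⌈Real.exp (E j)⌉₊
  have hQ3 : ∀ j, 3 ≤ Q j := by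
    intro j
    calc 3 ≤ 2 ^ 2 := by norm_num
      _ ≤ 2 ^ exA j := Nat.pow_le_pow_right (by norm_num) (by have := exA_ge j; omega)
  have hQs : StrictMono Q := fun i j hij => Nat.pow_lt_pow_right (by norm_num) (exA_strict hij)
  have hT : ∀ j, E j ≤ Real.log (T j) := by
    intro j
    have h1 : Real.exp (E j) ≤ T j := Nat.le_ceil _
    have := Real.log_le_log (Real.exp_pos _) h1
    rwa [Real.log_exp] at this
  have hex : ∀ j : ℕ, ∃ B : Finset ℕ, B ⊆ (Finset.Ioc (Q j) (T j)).filter Nat.Prime ∧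
      (j : ℝ) ≤ mass B ∧ mass B ≤ j + 1 := by
    intro j
    obtain ⟨B, h1, h2, h3⟩ := ex_sub _ (j : ℝ) (Nat.cast_nonneg j) (hC (Q j) (T j) j (hQ3 j) (hT j))
    exact ⟨B, h1, h2, h3⟩
  choose B hBsub hBlo hBhi using hex
  have hBmem : ∀ j, ∀ p ∈ B j, Q j < p ∧ p ≤ T j ∧ p.Prime := by
    intro j p hp
    have := hBsub j hp
    rw [Finset.mem_filter, Finset.mem_Ioc] at this
    exact ⟨this.1.1, this.1.2, this.2⟩
  refine ⟨⋃ j, (B j : Set ℕ), ⟨?_, B, Q, T, ?_, ?_, ?_, ?_⟩, ?_⟩
  · intro p hp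
    obtain ⟨j, hj⟩ := Set.mem_iUnion.mp hp
    exact (hBmem j p hj).2.2
  · intro j p hp
    exact ⟨Set.mem_iUnion.mpr ⟨j, hp⟩, (hBmem j p hp).1.le, (hBmem j p hp).2.1⟩
  · exact tendsto_atTop_mono hBlo tendsto_natCast_atTop_atTop
  · intro j; exact le_trans (by norm_num) (hQ3 j)
  · -- summability
    have hgeo : Summable (fun j : ℕ => 4 * Real.exp (2 * (C + 1)) * (Real.exp 2 / 256) ^ j) := by
      refine Summable.mul_left _ (summable_geometric_of_lt_one (by positivity) ?_)
      rw [div_lt_one (by norm_num)]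
      have h1 : Real.exp 2 = Real.exp 1 * Real.exp 1 := by rw [← Real.exp_add]; norm_num
      have h2 := Real.exp_one_lt_d9
      have h3 := Real.exp_pos 1
      rw [h1]; nlinarith
    refine Summable.of_nonneg_of_le (fun j => by positivity) (fun j => ?_) hgeo
    set f := exA j / 16 with hf
    have ha1 : exA (j + 1) = 2 ^ f := rfl
    have hfj : j ≤ f := by
      have h1 := exA_pow j
      have h2 : j < 2 ^ j := Nat.lt_two_pow_self
      omega
    have hlogQ : Real.log (Q (j + 1)) ≤ 2 ^ f := by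
      have : (Q (j + 1) : ℝ) = 2 ^ (exA (j + 1)) := by simp [Q]
      rw [this, Real.log_pow, ha1]
      push_cast
      have h2 : Real.log 2 ≤ 1 := by linarith [Real.log_two_lt_d9]
      calc (2 : ℝ) ^ f * Real.log 2 ≤ 2 ^ f * 1 := by gcongr
        _ = 2 ^ f := mul_one _
    have hlogQ0 : 0 ≤ Real.log (Q (j + 1)) := by
      apply Real.log_nonneg
      have := hQ3 (j + 1)
      have h : (3 : ℝ) ≤ Q (j + 1) := by exact_mod_cast this
      linarith
    have hE1 : E (j + 1) ≤ Real.exp (C + (j + 1)) * (2 ^ f) ^ 4 := by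
      show Real.exp (C + ((j + 1 : ℕ) : ℝ)) * (Real.log (Q (j + 1))) ^ 4 ≤ _
      push_cast
      gcongr
    have hE0 : 0 ≤ E (j + 1) := by
      show 0 ≤ Real.exp (C + ((j + 1 : ℕ) : ℝ)) * (Real.log (Q (j + 1))) ^ 4
      positivity
    have hTle : Real.log (T (j + 1)) ≤ 1 + E (j + 1) := by
      have h1 : (T (j + 1) : ℝ) < Real.exp (E (j + 1)) + 1 := Nat.ceil_lt_add_one (Real.exp_pos _).le
      have h2 : (1 : ℝ) ≤ Real.exp (E (j + 1)) := Real.one_le_exp hE0
      have h3 : (T (j + 1) : ℝ) ≤ Real.exp (1 + E (j + 1)) := by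
        rw [Real.exp_add]
        have h4 : (2 : ℝ) ≤ Real.exp 1 := by linarith [Real.exp_one_gt_d9]
        nlinarith
      have hT0 : (0 : ℝ) < T (j + 1) := by
        have : (0 : ℝ) < Real.exp (E (j + 1)) := Real.exp_pos _
        exact lt_of_lt_of_le this (Nat.le_ceil _)
      have := Real.log_le_log hT0 h3
      rwa [Real.log_exp] at this
    have hT0' : 0 ≤ Real.log (T (j + 1)) := le_trans hE0 (hT (j + 1))
    have hone : (1 : ℝ) ≤ Real.exp (C + (j + 1)) * (2 ^ f) ^ 4 := by
      have h1 : (1 : ℝ) ≤ Real.exp (C + (j + 1)) := Real.one_le_exp (by positivity)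
      have h2 : (1 : ℝ) ≤ ((2 : ℝ) ^ f) ^ 4 := one_le_pow₀ (one_le_pow₀ (by norm_num))
      nlinarith
    have hT2 : Real.log (T (j + 1)) ≤ 2 * (Real.exp (C + (j + 1)) * (2 ^ f) ^ 4) := by linarith
    have hQj : (2 : ℝ) ^ (16 * f) ≤ Q j := by
      have : 2 ^ (16 * f) ≤ 2 ^ exA j := Nat.pow_le_pow_right (by norm_num) (by omega)
      exact_mod_cast this
    have hQpos : (0 : ℝ) < Q j := lt_of_lt_of_le (by positivity) hQj
    calc Real.log (T (j + 1)) ^ 2 / Q j
        ≤ (2 * (Real.exp (C + (j + 1)) * (2 ^ f) ^ 4)) ^ 2 / Q j := by gcongr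
      _ ≤ (2 * (Real.exp (C + (j + 1)) * (2 ^ f) ^ 4)) ^ 2 / 2 ^ (16 * f) := by gcongr
      _ = 4 * Real.exp (C + (j + 1)) ^ 2 * (1 / 2 ^ (8 * f)) := by
          have h1 : (2 : ℝ) ^ (16 * f) = 2 ^ (8 * f) * 2 ^ (8 * f) := by
            rw [← pow_add]; congr 1; ring
          have h2 : ((2 : ℝ) ^ f) ^ 4 * ((2 : ℝ) ^ f) ^ 4 = 2 ^ (8 * f) := by
            rw [← pow_mul, ← pow_add]; congr 1; ring
          have h3 : (0 : ℝ) < 2 ^ (8 * f) := by positivity
          rw [h1]
          have h4 : (2 * (Real.exp (C + (j + 1)) * (2 ^ f) ^ 4)) ^ 2 =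
              4 * Real.exp (C + (j + 1)) ^ 2 * (((2 : ℝ) ^ f) ^ 4 * ((2 : ℝ) ^ f) ^ 4) := by ring
          rw [h4, h2]
          field_simp
      _ ≤ 4 * Real.exp (C + (j + 1)) ^ 2 * (1 / 2 ^ (8 * j)) := by
          gcongr
          norm_num
      _ = 4 * Real.exp (2 * (C + 1)) * (Real.exp 2 / 256) ^ j := by
          have h1 : Real.exp (C + (j + 1)) ^ 2 = Real.exp (2 * (C + 1)) * Real.exp 2 ^ j := by
            rw [← Real.exp_nat_mul, ← Real.exp_nat_mul, ← Real.exp_add]
            congr 1; push_cast; ring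
          have h2 : (2 : ℝ) ^ (8 * j) = 256 ^ j := by rw [pow_mul]; norm_num
          rw [h1, h2, div_pow]; ring
  · -- slowness
    intro m
    rw [isLittleO_iff]
    intro c hc
    have hlim := tendsto_pow_const_div_const_pow_of_one_lt 2 (by norm_num : (1 : ℝ) < 2)
    have hev := (hlim.eventually (gt_mem_nhds
      (show (0 : ℝ) < c / (4 * 2 ^ m) by positivity))).and (eventually_ge_atTop (m + 1))
    obtain ⟨K, hK⟩ := eventually_atTop.mp hev
    filter_upwards [eventually_ge_atTop (Q K)] with N hN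
    -- find `k`
    have hunb : ∃ k, N < Q (k + 1) := by
      refine ⟨N, ?_⟩
      exact lt_of_lt_of_le (Nat.lt_succ_self N) (hQs.id_le (N + 1))
    classical
    set k0 := Nat.find hunb with hk0
    have hk1 : N < Q (k0 + 1) := Nat.find_spec hunb
    have hk2 : Q k0 ≤ N := by
      rcases Nat.eq_zero_or_pos k0 with h | h
      · rw [h]; exact le_trans (hQs.monotone (Nat.zero_le K)) hN
      · have := Nat.find_min hunb (m := k0 - 1) (by omega)
        rw [not_lt] at this
        have h3 : k0 - 1 + 1 = k0 := by omega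
        rwa [h3] at this
    have hKk : K ≤ k0 := by
      by_contra hcon
      push Not at hcon
      have : Q (k0 + 1) ≤ Q K := hQs.monotone hcon
      omega
    obtain ⟨hk3, hk4⟩ := hK k0 hKk
    have hmass : mass (upTo (⋃ j, (B j : Set ℕ)) N) ≤ ((k0 : ℝ) + 1) ^ 2 := by
      have hsub : upTo (⋃ j, (B j : Set ℕ)) N ⊆ (Finset.range (k0 + 1)).biUnion B := by
        intro p hp
        rw [upTo, Finset.mem_filter, Finset.mem_Icc] at hp
        obtain ⟨⟨-, hpN⟩, hpP⟩ := hp
        obtain ⟨j, hj⟩ := Set.mem_iUnion.mp hpP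
        have h1 := (hBmem j p hj).1
        have h2 : Q j < Q (k0 + 1) := by omega
        have h3 := hQs.lt_iff_lt.mp h2
        rw [Finset.mem_biUnion]
        exact ⟨j, Finset.mem_range.mpr h3, hj⟩
      refine le_trans (ex_mass_mono hsub) (le_trans (ex_mass_biUnion B _) ?_)
      have h4 : ∑ j ∈ Finset.range (k0 + 1), mass (B j) ≤
          ∑ _j ∈ Finset.range (k0 + 1), ((k0 : ℝ) + 1) := by
        refine Finset.sum_le_sum fun j hj => ?_
        have h5 := hBhi j
        have h6 : (j : ℝ) ≤ k0 := by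
          have := Finset.mem_range.mp hj
          exact_mod_cast Nat.lt_succ_iff.mp this
        linarith
      refine le_trans h4 ?_
      rw [Finset.sum_const, Finset.card_range, nsmul_eq_mul]
      push_cast
      nlinarith
    have hlow : exB (k0 - m) ≤ Real.log^[m] (N : ℝ) := by
      apply exB_iter
      have h1 : k0 - m + m = k0 := by omega
      rw [h1]
      have h2 : (Q k0 : ℝ) ≤ N := by exact_mod_cast hk2
      refine le_trans ?_ h2
      have h3 : exA k0 < 2 ^ exA k0 := Nat.lt_two_pow_self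
      have h4 : (exA k0 : ℝ) ≤ Q k0 := by exact_mod_cast h3.le
      have h5 : (0 : ℝ) ≤ exA k0 := Nat.cast_nonneg _
      unfold exB; linarith
    have hBpos := exB_pos (k0 - m)
    rw [Real.norm_of_nonneg (ex_mass_nonneg _), Real.norm_of_nonneg (by linarith)]
    refine le_trans hmass (le_trans ?_ (mul_le_mul_of_nonneg_left hlow hc.le))
    have hb2 : (2 : ℝ) ^ (k0 - m) ≤ exB (k0 - m) := by
      have h1 := exA_pow (k0 - m)
      have h2 : (400 : ℝ) * 2 ^ (k0 - m) ≤ exA (k0 - m) := by exact_mod_cast h1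
      have h3 : (0 : ℝ) < 2 ^ (k0 - m) := by positivity
      unfold exB; linarith
    have hk5 : (1 : ℝ) ≤ k0 := by
      have : 1 ≤ k0 := by omega
      exact_mod_cast this
    have hpow : (2 : ℝ) ^ k0 = 2 ^ (k0 - m) * 2 ^ m := by
      rw [← pow_add]; congr 1; omega
    rw [div_lt_div_iff₀ (by positivity) (by positivity)] at hk3
    have h7 : ((k0 : ℝ) + 1) ^ 2 ≤ 4 * (k0 : ℝ) ^ 2 := by nlinarith
    have h8 : 4 * (k0 : ℝ) ^ 2 * 2 ^ m < c * 2 ^ (k0 - m) * 2 ^ m := by
      rw [hpow] at hk3; nlinarith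
    have h9 : 4 * (k0 : ℝ) ^ 2 < c * 2 ^ (k0 - m) := lt_of_mul_lt_mul_right h8 (by positivity)
    calc ((k0 : ℝ) + 1) ^ 2 ≤ 4 * (k0 : ℝ) ^ 2 := h7
      _ ≤ c * 2 ^ (k0 - m) := h9.le
      _ ≤ c * exB (k0 - m) := by gcongr

end Pool.Agent.Helper50.FS
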