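import Mathlib

/-!
FS-Periodic. Logarithmic sums over a periodic set.

Plan. Let `k` be the number of `n ∈ [1,D]` in `E`. For `t ≥ 1` the block `(tD, (t+1)D]` contains
exactly `k` elements of `E` (periodicity), each with `1/n ≤ 1/(tD)`, so the block contributes at
most `(k/D)/t`. The blocks with `t ≥ 1` meeting `[1,N]` have `t ≤ (N-1)/D ≤ N`, so together
at most `(k/D) (1 + log N)` with `k ≤ D` (`harmonic_le_one_add_log`), and the block `t = 0`
contributes at most `1 + log D`. Total `≤ 2 + log D + (k/D) log N`.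
A convenient way: compare `1/n` for `n = tD + s` via the bijection `n ↦ (t,s)`, or induct
on the number of blocks: `∑_{n ∈ (D, (T+1) D], E} 1/n ≤ (k/D) ∑_{t=1}^{T} 1/t`, then choose
`T = N / D` so that `N ≤ (T+1) D`; `∑_{t=1}^{T} 1/t ≤ 1 + log T ≤ 1 + log N` if `T ≥ 1`
(for `T = 0` the sum is empty; note `0 ≤ log N`).
-/

namespace Pool.Agent.Helper50.FS

private theorem sum_icc_filter (E : ℕ → Prop) [DecidablePred E] (N : ℕ) (g : ℕ → ℝ) :
    ∑ n ∈ (Finset.Icc 1 N).filter E, g n =
      ∑ j ∈ Finset.range N, if E (j + 1) then g (j + 1) else 0 := by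
  rw [Finset.sum_filter]
  induction N with
  | zero => simp
  | succ N ih =>
    rw [Finset.sum_Icc_succ_top (by omega), ih, Finset.sum_range_succ]

private theorem per_mul (D : ℕ) (E : ℕ → Prop) (hE : ∀ n, E (n + D) ↔ E n) (t n : ℕ) :
    E (n + t * D) ↔ E n := by
  induction t with
  | zero => simp
  | succ t ih =>
    rw [Nat.succ_mul, ← Nat.add_assoc, hE, ih]

private theorem blocks (D : ℕ) (hD : 1 ≤ D) (E : ℕ → Prop) [DecidablePred E]
    (hE : ∀ n, E (n + D) ↔ E n) (T : ℕ) :
    (∑ j ∈ Finset.range ((T + 1) * D), if E (j + 1) then (1 / ((j + 1 : ℕ) : ℝ) : ℝ) else 0) ≤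
      1 + Real.log D + (((Finset.Icc 1 D).filter E).card / D : ℝ) *
        ∑ t ∈ Finset.range T, (1 / ((t : ℝ) + 1)) := by
  have hk : (((Finset.Icc 1 D).filter E).card : ℝ) =
      ∑ j ∈ Finset.range D, if E (j + 1) then (1 : ℝ) else 0 := by
    have h := sum_icc_filter E D (fun _ => (1 : ℝ))
    rw [← h]
    simp
  have hD' : (0 : ℝ) < D := by exact_mod_cast hD
  induction T with
  | zero =>
    rw [Finset.range_zero, Finset.sum_empty, mul_zero, add_zero, zero_add, one_mul]
    have h1 := harmonic_le_one_add_log D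
    refine le_trans ?_ h1
    unfold harmonic
    push_cast
    refine Finset.sum_le_sum fun j _ => ?_
    split_ifs
    · rw [one_div]
    · positivity
  | succ T ih =>
    have e : (T + 1 + 1) * D = (T + 1) * D + D := by ring
    rw [e, Finset.sum_range_add, Finset.sum_range_succ, mul_add, ← add_assoc]
    refine add_le_add ih ?_
    have hT : (0 : ℝ) < (T : ℝ) + 1 := by positivity
    rw [hk, div_mul_div_comm, mul_one, Finset.sum_div]
    refine Finset.sum_le_sum fun j _ => ?_
    have hiff : E ((T + 1) * D + j + 1) ↔ E (j + 1) := by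
      have := per_mul D E hE (T + 1) (j + 1)
      have e2 : (T + 1) * D + j + 1 = j + 1 + (T + 1) * D := by ring
      rw [e2]; exact this
    by_cases h : E (j + 1)
    · rw [if_pos (hiff.2 h), if_pos h]
      refine one_div_le_one_div_of_le (by positivity) ?_
      push_cast
      nlinarith [(Nat.cast_nonneg j : (0 : ℝ) ≤ j)]
    · rw [if_neg (fun hh => h (hiff.1 hh)), if_neg h]
      simp

theorem periodic_log (D : ℕ) (hD : 1 ≤ D) (E : ℕ → Prop) [DecidablePred E]
    (hE : ∀ n, E (n + D) ↔ E n) (N : ℕ) (hN : 1 ≤ N) :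
    ∑ n ∈ (Finset.Icc 1 N).filter E, (1 / n : ℝ) ≤
      2 + Real.log D + (((Finset.Icc 1 D).filter E).card / D : ℝ) * Real.log N := by
  have hD' : (0 : ℝ) < D := by exact_mod_cast hD
  have hlogN : 0 ≤ Real.log N := Real.log_nonneg (by exact_mod_cast hN)
  have hle : N ≤ (N / D + 1) * D := by
    have h1 := Nat.div_add_mod N D
    have h2 := Nat.mod_lt N hD
    nlinarith
  have h1 : ∑ n ∈ (Finset.Icc 1 N).filter E, (1 / n : ℝ) ≤
      ∑ j ∈ Finset.range ((N / D + 1) * D),
        if E (j + 1) then (1 / ((j + 1 : ℕ) : ℝ) : ℝ) else 0 := by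
    rw [sum_icc_filter E N (fun n => (1 / n : ℝ))]
    refine Finset.sum_le_sum_of_subset_of_nonneg (fun j hj => ?_) fun j _ _ => ?_
    · rw [Finset.mem_range] at hj ⊢; omega
    · split_ifs
      · positivity
      · exact le_refl _
  have h2 := blocks D hD E hE (N / D)
  have h3 : ∑ t ∈ Finset.range (N / D), (1 / ((t : ℝ) + 1)) ≤ 1 + Real.log N := by
    have h4 := harmonic_le_one_add_log (N / D)
    have h5 : ∑ t ∈ Finset.range (N / D), (1 / ((t : ℝ) + 1)) = (harmonic (N / D) : ℝ) := by
      unfold harmonic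
      push_cast
      refine Finset.sum_congr rfl fun t _ => ?_
      rw [one_div]
    rw [h5]
    refine le_trans h4 ?_
    rcases Nat.eq_zero_or_pos (N / D) with h0 | h0
    · rw [h0]; simp [hlogN]
    · have h6 : ((N / D : ℕ) : ℝ) ≤ N := by exact_mod_cast Nat.div_le_self N D
      have h7 : (0 : ℝ) < ((N / D : ℕ) : ℝ) := by exact_mod_cast h0
      linarith [Real.log_le_log h7 h6]
  have hk0 : (0 : ℝ) ≤ (((Finset.Icc 1 D).filter E).card / D : ℝ) := by positivity
  have hk1 : (((Finset.Icc 1 D).filter E).card / D : ℝ) ≤ 1 := by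
    rw [div_le_one hD']
    have := Finset.card_filter_le (Finset.Icc 1 D) E
    rw [Nat.card_Icc, Nat.add_sub_cancel] at this
    exact_mod_cast this
  have h8 := mul_le_mul_of_nonneg_left h3 hk0
  nlinarith

end Pool.Agent.Helper50.FS
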