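import Pool.Agent.Helper50.FS.Defs
import Pool.Agent.Helper50.FS.Periodic
import Pool.Agent.Helper50.FS.Count

/-!
FS-GBound. Bound for `gpart`.

Plan. Fix `a0 ∈ A`. If `odd B A n = ∅` then for every `p ∈ B`: not (`p ∣ n+a0` and
`¬ p^2 ∣ n+a0`). Indeed otherwise `(n+a0).factorization p = 1`, and for the other `a ∈ A`,
`p ∤ n+a` (else `p` divides `|a - a0| < p`, nonzero), so the sum of the factorizations is `1`, odd.
Each term has absolute value `1/n` (`|sg| = 1`), so `|gpart| ≤ (1/log N) ∑_{n ≤ N, E n} 1/n` with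
`E n : ∀ p ∈ B, ¬ (p ∣ n+a0 ∧ ¬ p^2 ∣ n+a0)`, periodic mod `D = ∏_{p ∈ B} p^2`. `periodic_log` and
`count` give `≤ (2 + log D)/log N + ∏_{p ∈ B} (p^2-p+1)/p^2`, `log D = 2 ∑ log p`, and
`(p^2-p+1)/p^2 = 1 - 1/p + 1/p^2 ≤ 1 - 1/(2p) ≤ exp(-1/(2p))`.
-/

open Filter Topology MeasureTheory

namespace Pool.Agent.Helper50.FS

private lemma abs_sg (e : ℤˣ) : |sg e| = 1 := by
  rcases Int.units_eq_one_or e with h | h <;> simp [sg, h]

private lemma no_simple (B A : Finset ℕ) (hB : ∀ p ∈ B, p.Prime)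
    (hBA : ∀ p ∈ B, ∀ a ∈ A, a < p) (n : ℕ) (hn : 1 ≤ n) (h : odd B A n = ∅) (a0 : ℕ)
    (ha0 : a0 ∈ A) : ∀ p ∈ B, ¬ (p ∣ n + a0 ∧ ¬ p ^ 2 ∣ n + a0) := by
  rintro p hp ⟨h1, h2⟩
  have hpp := hB p hp
  have hne : n + a0 ≠ 0 := by omega
  have hf1 : (n + a0).factorization p = 1 := by
    have hge : 1 ≤ (n + a0).factorization p :=
      (hpp.dvd_iff_one_le_factorization hne).1 h1
    have hlt : ¬ 2 ≤ (n + a0).factorization p := fun hh =>
      h2 ((hpp.pow_dvd_iff_le_factorization hne).2 hh)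
    omega
  have hf0 : ∀ a ∈ A, a ≠ a0 → (n + a).factorization p = 0 := by
    intro a ha haa
    apply Nat.factorization_eq_zero_of_not_dvd
    intro hd
    have hap := hBA p hp a ha
    have ha0p := hBA p hp a0 ha0
    rcases lt_or_gt_of_ne haa with hl | hl
    · have : p ∣ (n + a0) - (n + a) := Nat.dvd_sub h1 hd
      have h3 : (n + a0) - (n + a) = a0 - a := by omega
      rw [h3] at this
      have := Nat.le_of_dvd (by omega) this
      omega
    · have : p ∣ (n + a) - (n + a0) := Nat.dvd_sub hd h1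
      have h3 : (n + a) - (n + a0) = a - a0 := by omega
      rw [h3] at this
      have := Nat.le_of_dvd (by omega) this
      omega
  have hsum : ∑ a ∈ A, (n + a).factorization p = 1 := by
    rw [Finset.sum_eq_single_of_mem a0 ha0 (fun b hb hbn => hf0 b hb hbn), hf1]
  have hmem : p ∈ odd B A n := by
    unfold odd
    rw [Finset.mem_filter, hsum]
    exact ⟨hp, odd_one⟩
  rw [h] at hmem
  exact absurd hmem (Finset.notMem_empty p)

private lemma factor_le (p : ℕ) (hp : p.Prime) :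
    (((p ^ 2 - p + 1 : ℕ) : ℝ) / ((p ^ 2 : ℕ) : ℝ)) ≤ Real.exp (-(1 / p) / 2) := by
  have hp2 : (2 : ℝ) ≤ p := by exact_mod_cast hp.two_le
  have hle : p ≤ p ^ 2 := by nlinarith [hp.two_le]
  have hcast : ((p ^ 2 - p + 1 : ℕ) : ℝ) = (p : ℝ) ^ 2 - p + 1 := by
    push_cast [Nat.cast_sub hle]
    ring
  have hexp : -(1 / (p : ℝ)) / 2 + 1 ≤ Real.exp (-(1 / (p : ℝ)) / 2) :=
    Real.add_one_le_exp _
  refine le_trans ?_ hexp
  rw [hcast, Nat.cast_pow]
  have hpos : (0 : ℝ) < p := by linarith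
  have e1 : ((p : ℝ) ^ 2 - p + 1) / (p : ℝ) ^ 2 = 1 - 1 / p + (1 / p) * (1 / p) := by
    field_simp
  rw [e1]
  have h3 : (1 / (p : ℝ)) ≤ 1 / 2 := by
    apply one_div_le_one_div_of_le (by norm_num) hp2
  have h4 : (0 : ℝ) < 1 / (p : ℝ) := by positivity
  nlinarith

theorem gpart_bound (P : Set ℕ) (u : ℕ → ℤˣ) (B A : Finset ℕ) (hB : ∀ p ∈ B, p.Prime)
    (hA : A.Nonempty) (hBA : ∀ p ∈ B, ∀ a ∈ A, a < p) (N : ℕ) (hN : 3 ≤ N) (r : ℕ → ℤˣ) :
    |gpart P u B A N r| ≤
      Real.exp (-(mass B) / 2) + (2 + 2 * ∑ p ∈ B, Real.log p) / Real.log N := by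
  obtain ⟨a0, ha0⟩ := hA
  have hNr : (3 : ℝ) ≤ N := by exact_mod_cast hN
  have hlog : 0 < Real.log N := Real.log_pos (by linarith)
  set E : ℕ → Prop := fun n => ∀ p ∈ B, ¬ (p ∣ n + a0 ∧ ¬ p ^ 2 ∣ n + a0) with hEdef
  set D : ℕ := ∏ p ∈ B, p ^ 2 with hDdef
  have hDpos : 1 ≤ D := Nat.succ_le_of_lt (Finset.prod_pos fun p hp => by
    have := (hB p hp).pos
    positivity)
  have hEper : ∀ n, E (n + D) ↔ E n := by
    intro n
    refine forall₂_congr fun p hp => ?_
    have hd2 : p ^ 2 ∣ D := Finset.dvd_prod_of_mem (fun p => p ^ 2) hp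
    have hd1 : p ∣ D := dvd_trans (dvd_pow_self p two_ne_zero) hd2
    have e : n + D + a0 = n + a0 + D := by ring
    rw [e, (Nat.dvd_add_left hd1), (Nat.dvd_add_left hd2)]
  -- the trivial bound
  have hT : |gpart P u B A N r| ≤ (1 / Real.log N) *
      ∑ n ∈ (Finset.Icc 1 N).filter E, (1 / n : ℝ) := by
    unfold gpart
    rw [abs_mul, abs_of_pos (by positivity : (0 : ℝ) < 1 / Real.log N)]
    refine mul_le_mul_of_nonneg_left ?_ (by positivity)
    refine (Finset.abs_sum_le_sum_abs _ _).trans ?_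
    calc ∑ n ∈ (Finset.Icc 1 N).filter (fun n => odd B A n = ∅),
          |(∏ a ∈ A, sg (twist P u r (n + a))) / (n : ℝ)|
        = ∑ n ∈ (Finset.Icc 1 N).filter (fun n => odd B A n = ∅), (1 / n : ℝ) := by
          refine Finset.sum_congr rfl fun n _ => ?_
          rw [abs_div, Finset.abs_prod, Nat.abs_cast]
          simp [abs_sg]
      _ ≤ ∑ n ∈ (Finset.Icc 1 N).filter E, (1 / n : ℝ) := by
          refine Finset.sum_le_sum_of_subset_of_nonneg ?_ fun n _ _ => by positivity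
          intro n hn
          rw [Finset.mem_filter] at hn ⊢
          refine ⟨hn.1, ?_⟩
          exact no_simple B A hB hBA n (Finset.mem_Icc.1 hn.1).1 hn.2 a0 ha0
  have hper := periodic_log D hDpos E hEper N (by omega)
  have hcnt : ((Finset.Icc 1 D).filter E).card = ∏ p ∈ B, (p ^ 2 - p + 1) := count B hB a0
  have hlogD : Real.log D = 2 * ∑ p ∈ B, Real.log p := by
    rw [hDdef, Nat.cast_prod, Real.log_prod, Finset.mul_sum]
    · refine Finset.sum_congr rfl fun p _ => ?_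
      rw [Nat.cast_pow, Real.log_pow]
      norm_num
    · intro p hp
      have := (hB p hp).pos
      positivity
  have hratio : (((Finset.Icc 1 D).filter E).card / D : ℝ) ≤ Real.exp (-(mass B) / 2) := by
    rw [hcnt, hDdef, Nat.cast_prod, Nat.cast_prod, ← Finset.prod_div_distrib]
    have e2 : Real.exp (-(mass B) / 2) = ∏ p ∈ B, Real.exp (-(1 / (p : ℝ)) / 2) := by
      rw [← Real.exp_sum]
      congr 1
      unfold mass
      rw [← Finset.sum_div, Finset.sum_neg_distrib]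
    rw [e2]
    refine Finset.prod_le_prod (fun p _ => by positivity) fun p hp => factor_le p (hB p hp)
  calc |gpart P u B A N r| ≤ (1 / Real.log N) *
      ∑ n ∈ (Finset.Icc 1 N).filter E, (1 / n : ℝ) := hT
    _ ≤ (1 / Real.log N) * (2 + Real.log D +
        (((Finset.Icc 1 D).filter E).card / D : ℝ) * Real.log N) :=
        mul_le_mul_of_nonneg_left hper (by positivity)
    _ = (((Finset.Icc 1 D).filter E).card / D : ℝ) + (2 + Real.log D) / Real.log N := by
        field_simp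
        ring
    _ ≤ Real.exp (-(mass B) / 2) + (2 + 2 * ∑ p ∈ B, Real.log p) / Real.log N := by
        rw [hlogD]
        linarith

end Pool.Agent.Helper50.FS
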