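import Pool.Agent.Helper50.FS.Second
import Pool.Agent.Helper50.FS.DivSum

/-!
FS-HBound. The second moment of `hpart` is `O(|A|^2 / Q)`.

Plan. `second_moment`; if `p ∈ odd B A n` then `p ∣ n + a` for some `a ∈ A` (an odd sum is not
zero, so some factorization is nonzero; `Nat.factorization_eq_zero_of_not_dvd`), hence the inner
sum is at most `∑_{a ∈ A} ∑_{n ≤ N, p | n+a} 1/n ≤ |A| (6/p) log N` by `div_sum`. The
square is `36 |A|^2 (log N)^2 / p^2`; sum over `p ∈ B` by `sum_inv_sq`: `72 |A|^2 / Q`.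
-/

open Filter Topology MeasureTheory

namespace Pool.Agent.Helper50.FS

private theorem hb_dvd (B A : Finset ℕ) (p n : ℕ) (h : p ∈ odd B A n) : ∃ a ∈ A, p ∣ n + a := by
  unfold odd at h
  rw [Finset.mem_filter] at h
  by_contra hc
  have h0 : ∑ a ∈ A, (n + a).factorization p = 0 := by
    refine Finset.sum_eq_zero fun a ha => ?_
    exact Nat.factorization_eq_zero_of_not_dvd fun hd => hc ⟨a, ha, hd⟩
  rw [h0] at h
  exact absurd h.2 (by decide)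

private theorem hb_inner (B A : Finset ℕ) (p Q N : ℕ) (hpQ : Q ≤ p) (hQ : 2 ≤ Q)
    (hQA : ∀ a ∈ A, 2 * a ≤ Q) (hN : 3 ≤ N) (hNA : ∀ a ∈ A, a ≤ N) :
    ∑ n ∈ (Finset.Icc 1 N).filter (fun n => p ∈ odd B A n), (1 / n : ℝ) ≤
      (A.card : ℝ) * ((6 / p : ℝ) * Real.log N) := by
  have hnn : ∀ n : ℕ, (0 : ℝ) ≤ 1 / n := fun n => by positivity
  have key : ∀ n ∈ Finset.Icc 1 N, (if p ∈ odd B A n then (1 / n : ℝ) else 0) ≤
      ∑ a ∈ A, if p ∣ n + a then (1 / n : ℝ) else 0 := by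
    intro n _
    have hs : ∀ a ∈ A, (0 : ℝ) ≤ if p ∣ n + a then (1 / n : ℝ) else 0 := by
      intro a _
      split_ifs
      · exact hnn n
      · exact le_rfl
    by_cases h : p ∈ odd B A n
    · obtain ⟨a, ha, hd⟩ := hb_dvd B A p n h
      rw [if_pos h]
      calc (1 / n : ℝ) = if p ∣ n + a then (1 / n : ℝ) else 0 := by rw [if_pos hd]
        _ ≤ _ := Finset.single_le_sum hs ha
    · rw [if_neg h]
      exact Finset.sum_nonneg hs
  calc ∑ n ∈ (Finset.Icc 1 N).filter (fun n => p ∈ odd B A n), (1 / n : ℝ)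
      = ∑ n ∈ Finset.Icc 1 N, (if p ∈ odd B A n then (1 / n : ℝ) else 0) := by
        rw [Finset.sum_filter]
    _ ≤ ∑ n ∈ Finset.Icc 1 N, ∑ a ∈ A, (if p ∣ n + a then (1 / n : ℝ) else 0) :=
        Finset.sum_le_sum key
    _ = ∑ a ∈ A, ∑ n ∈ (Finset.Icc 1 N).filter (fun n => p ∣ n + a), (1 / n : ℝ) := by
        rw [Finset.sum_comm]
        exact Finset.sum_congr rfl fun a _ => (Finset.sum_filter _ _).symm
    _ ≤ ∑ a ∈ A, ((6 / p : ℝ) * Real.log N) :=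
        Finset.sum_le_sum fun a ha => div_sum p a N (le_trans hQ hpQ)
          (le_trans (hQA a ha) hpQ) hN (hNA a ha)
    _ = (A.card : ℝ) * ((6 / p : ℝ) * Real.log N) := by
        rw [Finset.sum_const, nsmul_eq_mul]

theorem hpart_bound (P : Set ℕ) (hP : ∀ p ∈ P, p.Prime) (u : ℕ → ℤˣ) (B A : Finset ℕ)
    (Q N : ℕ) (hB : ∀ p ∈ B, p ∈ P ∧ Q ≤ p) (hQ : 2 ≤ Q) (hQA : ∀ a ∈ A, 2 * a ≤ Q)
    (hN : 3 ≤ N) (hNA : ∀ a ∈ A, a ≤ N) :
    ∫ r, (hpart P u B A N r) ^ 2 ∂signs ≤ 72 * (A.card : ℝ) ^ 2 / Q := by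
  have hlog : 0 < Real.log N := Real.log_pos (by exact_mod_cast (by omega : 1 < N))
  have hQ0 : (0 : ℝ) < Q := by exact_mod_cast (by omega : 0 < Q)
  refine (second_moment P hP u B A (fun p hp => (hB p hp).1) N).trans ?_
  have h1 : ∑ p ∈ B, (∑ n ∈ (Finset.Icc 1 N).filter (fun n => p ∈ odd B A n), (1 / n : ℝ)) ^ 2 ≤
      ∑ p ∈ B, (36 * (A.card : ℝ) ^ 2 * Real.log N ^ 2) * (1 / (p : ℝ) ^ 2) := by
    refine Finset.sum_le_sum fun p hp => ?_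
    have h2 := hb_inner B A p Q N (hB p hp).2 hQ hQA hN hNA
    have h3 : (0 : ℝ) ≤ ∑ n ∈ (Finset.Icc 1 N).filter (fun n => p ∈ odd B A n), (1 / n : ℝ) :=
      Finset.sum_nonneg fun n _ => by positivity
    calc (∑ n ∈ (Finset.Icc 1 N).filter (fun n => p ∈ odd B A n), (1 / n : ℝ)) ^ 2
        ≤ ((A.card : ℝ) * ((6 / p : ℝ) * Real.log N)) ^ 2 := by gcongr
      _ = (36 * (A.card : ℝ) ^ 2 * Real.log N ^ 2) * (1 / (p : ℝ) ^ 2) := by ring
  have h4 := sum_inv_sq Q hQ B fun p hp => (hB p hp).2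
  calc (1 / Real.log N) ^ 2 *
        ∑ p ∈ B, (∑ n ∈ (Finset.Icc 1 N).filter (fun n => p ∈ odd B A n), (1 / n : ℝ)) ^ 2
      ≤ (1 / Real.log N) ^ 2 *
        ∑ p ∈ B, (36 * (A.card : ℝ) ^ 2 * Real.log N ^ 2) * (1 / (p : ℝ) ^ 2) := by gcongr
    _ = 36 * (A.card : ℝ) ^ 2 * ∑ p ∈ B, (1 / (p : ℝ) ^ 2) := by
        rw [← Finset.mul_sum]
        field_simp
    _ ≤ 36 * (A.card : ℝ) ^ 2 * (2 / Q : ℝ) := by gcongr
    _ = 72 * (A.card : ℝ) ^ 2 / Q := by ring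

end Pool.Agent.Helper50.FS
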