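import Pool.Agent.Helper50.FS.Defs

/-!
FS-Interp. It is enough to control the scales `s i = ⌊exp(exp(√i))⌋`.

For `N` large put `x = log log N` and `i = ⌊x^2⌋`, so that `s i ≤ N` and `0 ≤ x - √i ≤ 1/x`. Then
`ncorr u A N = (log (s i)/log N) * ncorr u A (s i) + (1/log N) ∑_{s i < n ≤ N} ±1/n`, and
`∑_{s i < n ≤ N} 1/n ≤ log N - log (s i)` (each `1/n ≤ log n - log (n-1)`). So
`|ncorr u A N| ≤ |ncorr u A (s i)| + 1 - log (s i)/log N`, with
`log (s i)/log N ≥ exp(√i - x) - log 2/log N → 1`.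
-/

open Filter Topology MeasureTheory

namespace Pool.Agent.Helper50.FS

private lemma sum_bound (w : ℕ → ℝ) (hw : ∀ n, |w n| ≤ 1) (m : ℕ) (hm : 1 ≤ m) (N : ℕ)
    (h : m ≤ N) :
    |∑ n ∈ Finset.Icc 1 N, w n / n - ∑ n ∈ Finset.Icc 1 m, w n / n|
      ≤ Real.log N - Real.log m := by
  induction N, h using Nat.le_induction with
  | base => simp
  | succ N hN ih =>
    have hN0 : (0 : ℝ) < N := by
      have : 0 < N := by omega
      exact_mod_cast this
    rw [Finset.sum_Icc_succ_top (by omega : 1 ≤ N + 1)]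
    have e : (∑ n ∈ Finset.Icc 1 N, w n / n + w (N + 1) / ((N + 1 : ℕ) : ℝ)
        - ∑ n ∈ Finset.Icc 1 m, w n / n)
        = (∑ n ∈ Finset.Icc 1 N, w n / n - ∑ n ∈ Finset.Icc 1 m, w n / n)
          + w (N + 1) / ((N + 1 : ℕ) : ℝ) := by ring
    rw [e]
    have h1 : |w (N + 1) / ((N + 1 : ℕ) : ℝ)| ≤ 1 / ((N : ℝ) + 1) := by
      rw [abs_div]
      have h2 : |(((N + 1 : ℕ)) : ℝ)| = (N : ℝ) + 1 := by
        rw [abs_of_nonneg (by positivity)]; push_cast; ring
      rw [h2]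
      have := hw (N + 1)
      gcongr
    have h3 : 1 / ((N : ℝ) + 1) ≤ Real.log ((N + 1 : ℕ) : ℝ) - Real.log N := by
      have h4 := Real.one_sub_inv_le_log_of_pos (x := ((N : ℝ) + 1) / N) (by positivity)
      rw [Real.log_div (by positivity) (by positivity)] at h4
      have h5 : 1 - (((N : ℝ) + 1) / N)⁻¹ = 1 / ((N : ℝ) + 1) := by
        field_simp
        ring
      rw [h5] at h4
      push_cast
      exact h4
    calc |(∑ n ∈ Finset.Icc 1 N, w n / n - ∑ n ∈ Finset.Icc 1 m, w n / n)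
          + w (N + 1) / ((N + 1 : ℕ) : ℝ)|
        ≤ |∑ n ∈ Finset.Icc 1 N, w n / n - ∑ n ∈ Finset.Icc 1 m, w n / n|
          + |w (N + 1) / ((N + 1 : ℕ) : ℝ)| := abs_add_le _ _
      _ ≤ (Real.log N - Real.log m) + (Real.log ((N + 1 : ℕ) : ℝ) - Real.log N) := by
          linarith
      _ = Real.log ((N + 1 : ℕ) : ℝ) - Real.log m := by ring

private lemma abs_sg (e : ℤˣ) : |sg e| = 1 := by
  rcases Int.units_eq_one_or e with h | h <;> simp [sg, h]

private lemma ncorr_bound (u : ℕ → ℤˣ) (A : Finset ℕ) (m N : ℕ) (hm : 1 ≤ m) (h : m ≤ N)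
    (hlm : 0 < Real.log m) :
    |ncorr u A N| ≤ |ncorr u A m| + (1 - Real.log m / Real.log N) := by
  set w : ℕ → ℝ := fun n => ∏ a ∈ A, sg (u (n + a)) with hwdef
  have hw : ∀ n, |w n| ≤ 1 := by
    intro n
    rw [hwdef]
    simp only [Finset.abs_prod, abs_sg, Finset.prod_const_one, le_refl]
  have hb := sum_bound w hw m hm N h
  have hle : Real.log m ≤ Real.log N := by
    have h0 : (0 : ℝ) < m := by exact_mod_cast (by omega : 0 < m)
    exact Real.log_le_log h0 (by exact_mod_cast h)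
  have hN : 0 < Real.log N := lt_of_lt_of_le hlm hle
  set SN := ∑ n ∈ Finset.Icc 1 N, w n / n with hSN
  set Sm := ∑ n ∈ Finset.Icc 1 m, w n / n with hSm
  have e1 : ncorr u A N = SN / Real.log N := by
    simp only [ncorr, hSN, hwdef]; ring
  have e2 : ncorr u A m = Sm / Real.log m := by
    simp only [ncorr, hSm, hwdef]; ring
  have h1 : |SN| ≤ |Sm| + (Real.log N - Real.log m) := by
    have : |SN| ≤ |Sm| + |SN - Sm| := by
      calc |SN| = |Sm + (SN - Sm)| := by ring_nf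
        _ ≤ _ := abs_add_le _ _
    linarith
  rw [e1, e2, abs_div, abs_div, abs_of_pos hN, abs_of_pos hlm]
  have h2 : |SN| / Real.log N ≤ (|Sm| + (Real.log N - Real.log m)) / Real.log N := by
    gcongr
  have h3 : |Sm| / Real.log N ≤ |Sm| / Real.log m := by gcongr
  have h4 : (|Sm| + (Real.log N - Real.log m)) / Real.log N
      = |Sm| / Real.log N + (1 - Real.log m / Real.log N) := by
    field_simp
  linarith

/-- `x - √⌊x²⌋ ≤ 1/x`. -/
private lemma sqrt_floor (x : ℝ) (hx : 0 < x) :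
    x - Real.sqrt (⌊x ^ 2⌋₊ : ℕ) ≤ 1 / x ∧ Real.sqrt (⌊x ^ 2⌋₊ : ℕ) ≤ x := by
  have h1 : ((⌊x ^ 2⌋₊ : ℕ) : ℝ) ≤ x ^ 2 := Nat.floor_le (by positivity)
  have h2 : x ^ 2 < ((⌊x ^ 2⌋₊ : ℕ) : ℝ) + 1 := Nat.lt_floor_add_one _
  have h3 : Real.sqrt (⌊x ^ 2⌋₊ : ℕ) ≤ x := by
    calc Real.sqrt (⌊x ^ 2⌋₊ : ℕ) ≤ Real.sqrt (x ^ 2) := Real.sqrt_le_sqrt h1
      _ = x := Real.sqrt_sq hx.le
  refine ⟨?_, h3⟩
  set y := Real.sqrt (⌊x ^ 2⌋₊ : ℕ) with hy
  have hy0 : 0 ≤ y := Real.sqrt_nonneg _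
  have hysq : y ^ 2 = ((⌊x ^ 2⌋₊ : ℕ) : ℝ) := Real.sq_sqrt (by positivity)
  rw [le_div_iff₀ hx]
  nlinarith

private lemma log_floor (y : ℝ) (hy : 1 ≤ y) : Real.log y - Real.log 2 ≤ Real.log (⌊y⌋₊ : ℕ) := by
  rw [← Real.log_div (by linarith) (by norm_num)]
  apply Real.log_le_log (by linarith)
  have h1 : y < (⌊y⌋₊ : ℕ) + 1 := Nat.lt_floor_add_one _
  have h2 : (1 : ℝ) ≤ (⌊y⌋₊ : ℕ) := by
    have : 1 ≤ ⌊y⌋₊ := by
      rw [Nat.one_le_floor_iff]
      exact hy
    exact_mod_cast this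
  linarith

theorem interp (u : ℕ → ℤˣ) (A : Finset ℕ)
    (h : Tendsto (fun i : ℕ => ncorr u A (⌊Real.exp (Real.exp (Real.sqrt i))⌋₊)) atTop (𝓝 0)) :
    Tendsto (ncorr u A) atTop (𝓝 0) := by
  have hL : Tendsto (fun N : ℕ => Real.log (N : ℝ)) atTop atTop :=
    Real.tendsto_log_atTop.comp tendsto_natCast_atTop_atTop
  have hx : Tendsto (fun N : ℕ => Real.log (Real.log (N : ℝ))) atTop atTop :=
    Real.tendsto_log_atTop.comp hL
  have hx2 : Tendsto (fun N : ℕ => Real.log (Real.log (N : ℝ)) ^ 2) atTop atTop :=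
    (tendsto_pow_atTop (by norm_num)).comp hx
  have hi : Tendsto (fun N : ℕ => ⌊Real.log (Real.log (N : ℝ)) ^ 2⌋₊) atTop atTop :=
    tendsto_nat_floor_atTop.comp hx2
  set x : ℕ → ℝ := fun N => Real.log (Real.log (N : ℝ)) with hxdef
  set i : ℕ → ℕ := fun N => ⌊x N ^ 2⌋₊ with hidef
  set t : ℕ → ℕ := fun N => ⌊Real.exp (Real.exp (Real.sqrt (i N)))⌋₊ with htdef
  have h1 : Tendsto (fun N => |ncorr u A (t N)|) atTop (𝓝 0) := by
    have := (h.comp hi).abs
    rw [abs_zero] at this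
    exact this
  -- the ratio of the logarithms
  have h2 : Tendsto (fun N : ℕ => 1 - (Real.exp (-(1 / x N)) - Real.log 2 / Real.log N))
      atTop (𝓝 0) := by
    have a1 : Tendsto (fun N : ℕ => 1 / x N) atTop (𝓝 0) := by
      simp only [one_div]
      exact tendsto_inv_atTop_zero.comp hx
    have a2 : Tendsto (fun N : ℕ => Real.exp (-(1 / x N))) atTop (𝓝 1) := by
      have := (Real.continuous_exp.tendsto (-0)).comp a1.neg
      simpa [Function.comp_def] using this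
    have a3 : Tendsto (fun N : ℕ => Real.log 2 / Real.log N) atTop (𝓝 0) :=
      hL.const_div_atTop _
    have := (tendsto_const_nhds (x := (1 : ℝ)) (f := (atTop : Filter ℕ))).sub (a2.sub a3)
    simpa using this
  have h3 := h1.add h2
  rw [add_zero] at h3
  apply squeeze_zero_norm' _ h3
  filter_upwards [hx.eventually_gt_atTop 0, hL.eventually_gt_atTop 0,
    eventually_ge_atTop 1] with N hxN hLN hN1
  have hexp : Real.exp (x N) = Real.log N := Real.exp_log hLN
  obtain ⟨hs1, hs2⟩ := sqrt_floor (x N) hxN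
  have hs0 : 0 ≤ Real.sqrt (i N) := Real.sqrt_nonneg _
  have hN0 : (0 : ℝ) < N := by exact_mod_cast (by omega : 0 < N)
  have ht1 : t N ≤ N := by
    have : Real.exp (Real.exp (Real.sqrt (i N))) ≤ N := by
      calc Real.exp (Real.exp (Real.sqrt (i N))) ≤ Real.exp (Real.exp (x N)) := by
            apply Real.exp_le_exp.2
            apply Real.exp_le_exp.2
            exact hs2
        _ = N := by rw [hexp, Real.exp_log hN0]
    have h5 : ((t N : ℕ) : ℝ) ≤ N := le_trans (Nat.floor_le (Real.exp_pos _).le) this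
    exact_mod_cast h5
  have hee : 1 ≤ Real.exp (Real.sqrt (i N)) := Real.one_le_exp hs0
  have hbig : 2 < Real.exp (Real.exp (Real.sqrt (i N))) := by
    calc (2 : ℝ) < Real.exp 1 := by
          have := Real.exp_one_gt_d9
          linarith
      _ ≤ _ := Real.exp_le_exp.2 hee
  have ht2 : 2 ≤ t N := by
    apply Nat.le_floor
    exact_mod_cast hbig.le
  have hlt : 0 < Real.log (t N : ℕ) := by
    apply Real.log_pos
    exact_mod_cast (by omega : 1 < t N)
  have hb := ncorr_bound u A (t N) N (by omega) ht1 hlt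
  rw [Real.norm_eq_abs]
  refine hb.trans ?_
  gcongr
  have hlf := log_floor (Real.exp (Real.exp (Real.sqrt (i N)))) (by linarith)
  rw [Real.log_exp] at hlf
  have h6 : Real.exp (-(1 / x N)) * Real.log N ≤ Real.exp (Real.sqrt (i N)) := by
    rw [← hexp, ← Real.exp_add]
    apply Real.exp_le_exp.2
    linarith
  rw [sub_le_iff_le_add, ← add_div, le_div_iff₀ hLN]
  linarith

end Pool.Agent.Helper50.FS
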