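import Pool.Agent.Helper50.FS.Defs

/-!
FS-Scales. The choice of a block `B (J i)` for every scale `s i = ⌊exp(exp(√i))⌋`.

Plan. WLOG (finitely many `j` do not matter, see below) `B j` nonempty, so `2 ≤ Q j ≤ T j`.
`mass (B j) ≤ ∑_{n ≤ T j} 1/n ≤ 1 + log (T j)`, so `T j → ∞`. Put `L j = 2 + 2 ∑_{p ∈ B j} log p`
and `M j = exp(T j * L j)`. As `B j ⊆ [1, T j]`, `L j ≤ 2 + 2 (T j)^2`, so
`log M j ≤ 2 T j + 2 (T j)^3 ≤ 4 (T j)^3`. For large `i` let `J i` be the least `j` with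
`s i < M (j+1)`, `j ≥ j0` (exists because `M j → ∞`). Then `M (J i) ≤ s i` as soon as
`s i ≥ M (j0)`, hence `L (J i)/log (s i) ≤ 1/T (J i)`; `J i → ∞` because each `M (j+1)` is finite and
`s i → ∞`. Conversely `J i = j` implies `exp(exp √i) - 1 < s i < M (j+1)`, so
`exp(√i) ≤ 1 + log M(j+1) ≤ 1 + 4 T(j+1)^3 ≤ T(j+1)^6` (if `T (j+1) ≥ 2`), `√i ≤ 6 log T(j+1)`, so
at most `36 (log T(j+1))^2 + 1` indices `i` have `J i = j`. Therefore
`∑_i 1/Q (J i) ≤ ∑_j (36 (log T(j+1))^2 + 1)/Q j < ∞` (for large `j`, `log T(j+1) ≥ log 2`,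
so `1 ≤ 3 (log T(j+1))^2`). To sum over fibres: `summable_of_sum_le` for partial sums
(`Finset.sum_fiberwise`/`Finset.sum_comp`), or `Summable` on the sigma type of the fibres.
Choose `j0` such that for `j ≥ j0` everything above holds, and `J i = j0` for the small `i`
(finitely many).
-/

open Filter Topology MeasureTheory

namespace Pool.Agent.Helper50.FS

private theorem sc_ge (i : ℕ) : Real.exp (Real.sqrt i) - 1 ≤
    Real.log (⌊Real.exp (Real.exp (Real.sqrt i))⌋₊ : ℕ) := by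
  have hx : 1 ≤ Real.exp (Real.sqrt i) := Real.one_le_exp (Real.sqrt_nonneg _)
  have h1 : Real.exp (Real.exp (Real.sqrt i) - 1) ≤ Real.exp (Real.exp (Real.sqrt i)) - 1 := by
    have h2 : Real.exp (Real.exp (Real.sqrt i)) =
        Real.exp (Real.exp (Real.sqrt i) - 1) * Real.exp 1 := by
      rw [← Real.exp_add, sub_add_cancel]
    have h3 : 1 ≤ Real.exp (Real.exp (Real.sqrt i) - 1) := Real.one_le_exp (by linarith)
    have h4 : 2 ≤ Real.exp 1 := by
      have := Real.add_one_le_exp (1 : ℝ)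
      linarith
    rw [h2]
    nlinarith
  have h5 : Real.exp (Real.exp (Real.sqrt i) - 1) ≤
      ((⌊Real.exp (Real.exp (Real.sqrt i))⌋₊ : ℕ) : ℝ) :=
    h1.trans (Nat.sub_one_lt_floor _).le
  have h6 : (0 : ℝ) < ((⌊Real.exp (Real.exp (Real.sqrt i))⌋₊ : ℕ) : ℝ) :=
    lt_of_lt_of_le (Real.exp_pos _) h5
  rw [Real.le_log_iff_exp_le h6]
  exact h5

private theorem sc_sqrt (i : ℕ) : Real.sqrt i ≤
    Real.log (⌊Real.exp (Real.exp (Real.sqrt i))⌋₊ : ℕ) := by
  have h1 := sc_ge i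
  have h2 := Real.add_one_le_exp (Real.sqrt i)
  linarith

private theorem sc_tendsto : Tendsto
    (fun i : ℕ => Real.log (⌊Real.exp (Real.exp (Real.sqrt i))⌋₊ : ℕ)) atTop atTop :=
  tendsto_atTop_mono sc_sqrt (Real.tendsto_sqrt_atTop.comp tendsto_natCast_atTop_atTop)

theorem scales (B : ℕ → Finset ℕ) (Q T : ℕ → ℕ)
    (hB : ∀ j, ∀ p ∈ B j, Q j ≤ p ∧ p ≤ T j)
    (hm : Tendsto (fun j => mass (B j)) atTop atTop)
    (hQ : ∀ j, 2 ≤ Q j)
    (hs : Summable (fun j => (Real.log (T (j + 1))) ^ 2 / Q j)) :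
    ∃ J : ℕ → ℕ, Tendsto J atTop atTop ∧
      Tendsto (fun i => (2 + 2 * ∑ p ∈ B (J i), Real.log p) /
        Real.log (⌊Real.exp (Real.exp (Real.sqrt i))⌋₊ : ℕ)) atTop (𝓝 0) ∧
      Summable (fun i => (1 / Q (J i) : ℝ)) := by
  classical
  -- cardinality and masses
  have hcard : ∀ j, ((B j).card : ℝ) ≤ T j := by
    intro j
    have h1 : B j ⊆ Finset.Icc 1 (T j) := by
      intro p hp
      have h2 := hB j p hp
      have h3 := hQ j
      rw [Finset.mem_Icc]
      omega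
    have h2 := Finset.card_le_card h1
    rw [Nat.card_Icc, Nat.add_sub_cancel] at h2
    exact_mod_cast h2
  have hmass : ∀ j, mass (B j) ≤ T j := by
    intro j
    unfold mass
    have h1 : ∑ p ∈ B j, (1 / p : ℝ) ≤ ∑ p ∈ B j, (1 : ℝ) := by
      refine Finset.sum_le_sum fun p hp => ?_
      have h2 := hB j p hp
      have h3 := hQ j
      have h4 : (1 : ℝ) ≤ p := by
        have : 1 ≤ p := by omega
        exact_mod_cast this
      rw [div_le_one (by linarith)]
      exact h4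
    rw [Finset.sum_const, nsmul_eq_mul, mul_one] at h1
    exact h1.trans (hcard j)
  have hT : Tendsto (fun j => (T j : ℝ)) atTop atTop := tendsto_atTop_mono hmass hm
  set L : ℕ → ℝ := fun j => 2 + 2 * ∑ p ∈ B j, Real.log p with hL
  have hL2 : ∀ j, 2 ≤ L j := by
    intro j
    have h1 : 0 ≤ ∑ p ∈ B j, Real.log (p : ℝ) :=
      Finset.sum_nonneg fun p _ => Real.log_natCast_nonneg p
    change 2 ≤ 2 + 2 * ∑ p ∈ B j, Real.log (p : ℝ)
    linarith
  have hLT : ∀ j, L j ≤ 2 + 2 * (T j : ℝ) ^ 2 := by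
    intro j
    have h1 : ∑ p ∈ B j, Real.log (p : ℝ) ≤ ∑ _p ∈ B j, (T j : ℝ) := by
      refine Finset.sum_le_sum fun p hp => ?_
      have h2 : (p : ℝ) ≤ T j := by exact_mod_cast (hB j p hp).2
      have h3 : (0 : ℝ) < p := by
        have h4 := hB j p hp
        have h5 := hQ j
        have : 0 < p := by omega
        exact_mod_cast this
      have h4 := Real.log_le_sub_one_of_pos h3
      linarith
    rw [Finset.sum_const, nsmul_eq_mul] at h1
    have h2 : ((B j).card : ℝ) * T j ≤ T j * T j :=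
      mul_le_mul_of_nonneg_right (hcard j) (Nat.cast_nonneg _)
    change 2 + 2 * ∑ p ∈ B j, Real.log (p : ℝ) ≤ _
    nlinarith
  have hM0 : ∀ j, (0 : ℝ) ≤ T j * L j := by
    intro j
    have := hL2 j
    have h1 : (0 : ℝ) ≤ T j := Nat.cast_nonneg _
    positivity
  have hex : ∀ i : ℕ, ∃ j : ℕ, Real.log (⌊Real.exp (Real.exp (Real.sqrt i))⌋₊ : ℕ) <
      T (j + 1) * L (j + 1) := by
    intro i
    obtain ⟨j, hj⟩ := ((tendsto_add_atTop_iff_nat 1).mpr hT).eventually_gt_atTop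
      (Real.log (⌊Real.exp (Real.exp (Real.sqrt i))⌋₊ : ℕ)) |>.exists
    refine ⟨j, lt_of_lt_of_le hj ?_⟩
    have h1 : (0 : ℝ) ≤ T (j + 1) := Nat.cast_nonneg _
    have h2 := hL2 (j + 1)
    nlinarith
  set J : ℕ → ℕ := fun i => Nat.find (hex i) with hJ
  have hJs : ∀ i : ℕ, Real.log (⌊Real.exp (Real.exp (Real.sqrt i))⌋₊ : ℕ) <
      T (J i + 1) * L (J i + 1) := fun i => Nat.find_spec (hex i)
  have hJm : ∀ i k : ℕ, k < J i → T (k + 1) * L (k + 1) ≤
      Real.log (⌊Real.exp (Real.exp (Real.sqrt i))⌋₊ : ℕ) := by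
    intro i k hk
    exact not_lt.mp (Nat.find_min (hex i) hk)
  have hJt : Tendsto J atTop atTop := by
    rw [tendsto_atTop]
    intro b
    filter_upwards [sc_tendsto.eventually_ge_atTop
      (∑ k ∈ Finset.range b, T (k + 1) * L (k + 1))] with i hi
    by_contra hlt
    push Not at hlt
    have h1 : T (J i + 1) * L (J i + 1) ≤ ∑ k ∈ Finset.range b, T (k + 1) * L (k + 1) :=
      Finset.single_le_sum (f := fun k => T (k + 1) * L (k + 1)) (fun k _ => hM0 (k + 1))
        (Finset.mem_range.mpr hlt)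
    exact absurd (hJs i) (not_lt.mpr (h1.trans hi))
  refine ⟨J, hJt, ?_, ?_⟩
  · have h1 : Tendsto (fun i => ((T (J i) : ℝ))⁻¹) atTop (𝓝 0) :=
      tendsto_inv_atTop_zero.comp (hT.comp hJt)
    refine squeeze_zero' ?_ ?_ h1
    · filter_upwards [sc_tendsto.eventually_gt_atTop 0] with i hi
      have h2 := hL2 (J i)
      change 0 ≤ L (J i) / _
      positivity
    · filter_upwards [sc_tendsto.eventually_gt_atTop 0, hJt.eventually_ge_atTop 1,
        (hT.comp hJt).eventually_gt_atTop 0] with i hi hi1 hi2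
      change L (J i) / _ ≤ ((T (J i) : ℝ))⁻¹
      have h3 := hJm i (J i - 1) (by omega)
      have h4 : J i - 1 + 1 = J i := by omega
      rw [h4] at h3
      have hi2' : (0 : ℝ) < T (J i) := hi2
      rw [div_le_iff₀ hi, inv_mul_eq_div, le_div_iff₀ hi2', mul_comm]
      exact h3
  · obtain ⟨j0, hj0⟩ := eventually_atTop.mp
      (((tendsto_add_atTop_iff_nat 1).mpr hT).eventually_ge_atTop 2)
    obtain ⟨N0, hN0⟩ := eventually_atTop.mp (hJt.eventually_ge_atTop j0)
    have hidx : ∀ i, N0 ≤ i → (i : ℝ) ≤ 36 * Real.log (T (J i + 1)) ^ 2 := by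
      intro i hi
      have hT2 : (2 : ℝ) ≤ T (J i + 1) := hj0 (J i) (hN0 i hi)
      have h1 : Real.exp (Real.sqrt i) < T (J i + 1) * L (J i + 1) + 1 := by
        have h2 := sc_ge i
        have h3 := hJs i
        linarith
      have h4 : T (J i + 1) * L (J i + 1) + 1 ≤ (T (J i + 1) : ℝ) ^ 6 := by
        have h5 := hLT (J i + 1)
        have h6 : (T (J i + 1) : ℝ) * L (J i + 1) ≤
            T (J i + 1) * (2 + 2 * (T (J i + 1) : ℝ) ^ 2) :=
          mul_le_mul_of_nonneg_left h5 (by linarith)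
        set t : ℝ := (T (J i + 1) : ℝ) with ht
        have h7 : (8 : ℝ) ≤ t ^ 3 := by
          have : (2 : ℝ) ^ 3 ≤ t ^ 3 := pow_le_pow_left₀ (by norm_num) hT2 3
          linarith
        have h8 : t ^ 6 = t ^ 3 * t ^ 3 := by ring
        have h9 : t ≤ t ^ 3 := by nlinarith [sq_nonneg t]
        nlinarith
      have h5 : Real.sqrt i ≤ 6 * Real.log (T (J i + 1)) := by
        have h6 : Real.exp (Real.sqrt i) ≤ (T (J i + 1) : ℝ) ^ 6 := (h1.trans_le h4).le
        have h7 := Real.log_le_log (Real.exp_pos _) h6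
        rw [Real.log_exp, Real.log_pow] at h7
        exact_mod_cast h7
      have h6 : (i : ℝ) = Real.sqrt i ^ 2 := (Real.sq_sqrt (Nat.cast_nonneg i)).symm
      rw [h6]
      have h7 : Real.sqrt i ^ 2 ≤ (6 * Real.log (T (J i + 1))) ^ 2 :=
        pow_le_pow_left₀ (Real.sqrt_nonneg _) h5 2
      calc Real.sqrt i ^ 2 ≤ (6 * Real.log (T (J i + 1))) ^ 2 := h7
        _ = 36 * Real.log (T (J i + 1)) ^ 2 := by ring
    rw [← summable_nat_add_iff N0]
    refine summable_of_sum_le (c := 39 * ∑' j, (Real.log (T (j + 1))) ^ 2 / (Q j : ℝ))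
      (fun i => by positivity) ?_
    intro u
    rw [Finset.sum_comp (fun j => (1 / (Q j : ℝ))) (fun i => J (i + N0))]
    rw [← tsum_mul_left]
    refine le_trans (Finset.sum_le_sum (fun j hj => ?_))
      ((hs.mul_left 39).sum_le_tsum (u.image fun i => J (i + N0)) fun j _ => by positivity)
    obtain ⟨i0, _, hi0⟩ := Finset.mem_image.mp hj
    have hT2 : (2 : ℝ) ≤ T (j + 1) := by
      rw [← hi0]
      exact hj0 _ (hN0 _ (by omega))
    have hlog : (1 : ℝ) ≤ 3 * Real.log (T (j + 1)) ^ 2 := by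
      have h1 : Real.log 2 ≤ Real.log (T (j + 1)) := Real.log_le_log (by norm_num) hT2
      have h2 := Real.log_two_gt_d9
      nlinarith
    have hc : (((u.filter fun i => J (i + N0) = j).card : ℕ) : ℝ) ≤
        39 * Real.log (T (j + 1)) ^ 2 := by
      have h1 : (u.filter fun i => J (i + N0) = j) ⊆
          Finset.range (⌊36 * Real.log (T (j + 1)) ^ 2⌋₊ + 1) := by
        intro i hi
        rw [Finset.mem_filter] at hi
        rw [Finset.mem_range, Nat.lt_succ_iff]
        apply Nat.le_floor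
        have h2 := hidx (i + N0) (by omega)
        rw [hi.2] at h2
        have h3 : (i : ℝ) ≤ ((i + N0 : ℕ) : ℝ) := by
          exact_mod_cast Nat.le_add_right i N0
        exact h3.trans h2
      have h2 := Finset.card_le_card h1
      rw [Finset.card_range] at h2
      have h3 : (⌊36 * Real.log (T (j + 1)) ^ 2⌋₊ : ℝ) ≤ 36 * Real.log (T (j + 1)) ^ 2 :=
        Nat.floor_le (by positivity)
      have h4 : (((u.filter fun i => J (i + N0) = j).card : ℕ) : ℝ) ≤
          (⌊36 * Real.log (T (j + 1)) ^ 2⌋₊ : ℝ) + 1 := by exact_mod_cast h2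
      linarith
    rw [nsmul_eq_mul]
    calc (((u.filter fun i => J (i + N0) = j).card : ℕ) : ℝ) * (1 / (Q j : ℝ)) ≤
        39 * Real.log (T (j + 1)) ^ 2 * (1 / (Q j : ℝ)) :=
          mul_le_mul_of_nonneg_right hc (by positivity)
      _ = 39 * (Real.log (T (j + 1)) ^ 2 / (Q j : ℝ)) := by ring

end Pool.Agent.Helper50.FS
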