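import Pool.Agent.Helper50.FS.HBound
import Pool.Agent.Helper50.FS.GBound
import Pool.Agent.Helper50.FS.BernIff
import Pool.Agent.Helper50.FS.Interp
import Pool.Agent.Helper50.FS.Scales

/-!
FS-PartThree. For tame `P`, every `u` and almost every `r`: `twist P u r` is Bernoulli.

Plan. Take `B, Q, T` from `Tame P` and `J` from `scales`; `s i = ⌊exp(exp(√i))⌋`. Fix a nonempty
`A : Finset ℕ`. `Q (J i) → ∞` (its inverses are summable), so for `i` large `2 a < Q (J i)` and
`a ≤ s i`, `3 ≤ s i`. `gpart_bound` with `B (J i)`: `|gpart| ≤ exp(-mass(B (J i))/2) + o(1) → 0` for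
every `r`. `hpart_bound`: `∫ hpart^2 ≤ 72 |A|^2 / Q (J i)`, summable in `i`, so `hpart → 0` for
a.e. `r` (as in PartTwo). So `ncorr (twist P u r) A (s i) → 0` (`split`), and `interp` gives the
full limit. Countably many `A` (`ae_all_iff`), then `bernAlong_iff` with `l = atTop`.
-/

open Filter Topology MeasureTheory

namespace Pool.Agent.Helper50.FS

namespace PartThree

/-- Summable second moments imply almost sure convergence to `0`. -/
lemma ae_tendsto {Ω : Type*} [MeasurableSpace Ω] {μ : Measure Ω} (f : ℕ → Ω → ℝ)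
    (hint : ∀ i, Integrable (fun r => (f i r) ^ 2) μ) (c : ℕ → ℝ) (hc : Summable c) (i0 : ℕ)
    (hle : ∀ i, i0 ≤ i → ∫ r, (f i r) ^ 2 ∂μ ≤ c i) :
    ∀ᵐ r ∂μ, Tendsto (fun i => f i r) atTop (𝓝 0) := by
  -- shift the index
  have hc' : Summable (fun i => c (i + i0)) := (summable_nat_add_iff i0).2 hc
  have hc0 : ∀ i, 0 ≤ c (i + i0) := fun i =>
    (integral_nonneg fun r => sq_nonneg _).trans (hle (i + i0) (by omega))
  have hmeas : ∀ i, AEMeasurable (fun r => ENNReal.ofReal ((f (i + i0) r) ^ 2)) μ := fun i =>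
    (hint (i + i0)).aestronglyMeasurable.aemeasurable.ennreal_ofReal
  have h1 : ∫⁻ r, ∑' i, ENNReal.ofReal ((f (i + i0) r) ^ 2) ∂μ ≠ ⊤ := by
    rw [lintegral_tsum hmeas]
    have h2 : ∀ i, ∫⁻ r, ENNReal.ofReal ((f (i + i0) r) ^ 2) ∂μ ≤ ENNReal.ofReal (c (i + i0)) := by
      intro i
      rw [← ofReal_integral_eq_lintegral_ofReal (hint (i + i0))
        (Eventually.of_forall fun r => sq_nonneg _)]
      exact ENNReal.ofReal_le_ofReal (hle (i + i0) (by omega))
    refine ne_top_of_le_ne_top ?_ (ENNReal.tsum_le_tsum h2)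
    rw [← ENNReal.ofReal_tsum_of_nonneg hc0 hc']
    exact ENNReal.ofReal_ne_top
  have h3 : ∀ᵐ r ∂μ, ∑' i, ENNReal.ofReal ((f (i + i0) r) ^ 2) < ⊤ :=
    ae_lt_top' (AEMeasurable.ennreal_tsum hmeas) h1
  filter_upwards [h3] with r hr
  have h4 : Tendsto (fun i => ENNReal.ofReal ((f (i + i0) r) ^ 2)) atTop (𝓝 0) :=
    ENNReal.tendsto_atTop_zero_of_tsum_ne_top hr.ne
  have h5 : Tendsto (fun i => (f (i + i0) r) ^ 2) atTop (𝓝 0) := by
    have := (ENNReal.tendsto_toReal ENNReal.zero_ne_top).comp h4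
    rw [ENNReal.toReal_zero] at this
    refine this.congr fun i => ?_
    simp only [Function.comp]
    exact ENNReal.toReal_ofReal (sq_nonneg _)
  have h6 : Tendsto (fun i => f (i + i0) r) atTop (𝓝 0) := by
    have := h5.sqrt
    rw [Real.sqrt_zero] at this
    rw [tendsto_zero_iff_abs_tendsto_zero]
    refine this.congr fun i => ?_
    simp only [Function.comp]
    exact Real.sqrt_sq_eq_abs _
  exact (tendsto_add_atTop_iff_nat i0).1 h6

/-- The scales tend to infinity. -/
lemma scale_tendsto :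
    Tendsto (fun i : ℕ => ⌊Real.exp (Real.exp (Real.sqrt i))⌋₊) atTop atTop := by
  refine tendsto_nat_floor_atTop.comp ?_
  exact Real.tendsto_exp_atTop.comp (Real.tendsto_exp_atTop.comp
    (Real.tendsto_sqrt_atTop.comp tendsto_natCast_atTop_atTop))

end PartThree

open PartThree in
theorem part_three (P : Set ℕ) (hP : Tame P) (u : ℕ → ℤˣ) :
    ∀ᵐ r ∂signs, IsBern (twist P u r) := by
  obtain ⟨hPp, B, Q, T, hB, hm, hQ, hs⟩ := hP
  obtain ⟨J, hJ, hJL, hJQ⟩ := scales B Q T (fun j p hp => ⟨(hB j p hp).2.1, (hB j p hp).2.2⟩)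
    hm hQ hs
  -- `Q (J i)` tends to infinity
  have hQJ : Tendsto (fun i => (Q (J i) : ℝ)) atTop atTop := by
    have h1 := hJQ.tendsto_atTop_zero
    have h2 : Tendsto (fun i => ((1 / Q (J i) : ℝ))⁻¹) atTop atTop := by
      refine Tendsto.inv_tendsto_nhdsGT_zero ?_
      rw [tendsto_nhdsWithin_iff]
      refine ⟨h1, Eventually.of_forall fun i => ?_⟩
      have : (0 : ℝ) < Q (J i) := by
        have := hQ (J i)
        exact_mod_cast (by omega : 0 < Q (J i))
      exact div_pos one_pos this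
    refine h2.congr fun i => ?_
    rw [one_div, inv_inv]
  have hA : ∀ A : {A : Finset ℕ // A.Nonempty}, ∀ᵐ r ∂signs,
      Tendsto (ncorr (twist P u r) A.1) atTop (𝓝 0) := by
    rintro ⟨A, hA⟩
    -- from some index on all conditions hold
    obtain ⟨M, hM⟩ : ∃ M : ℕ, ∀ a ∈ A, a ≤ M := ⟨A.sup id, fun a ha => Finset.le_sup (f := id) ha⟩
    have e1 : ∀ᶠ i in atTop, 2 * M + 1 ≤ Q (J i) := by
      filter_upwards [hQJ.eventually_ge_atTop ((2 * M + 1 : ℕ) : ℝ)] with i hi
      exact_mod_cast hi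
    have e2 : ∀ᶠ i : ℕ in atTop, max 3 M ≤ ⌊Real.exp (Real.exp (Real.sqrt i))⌋₊ :=
      scale_tendsto.eventually_ge_atTop _
    obtain ⟨i0, hi0⟩ := eventually_atTop.1 (e1.and e2)
    have hh : ∀ᵐ r ∂signs, Tendsto (fun i : ℕ => hpart P u (B (J i)) A
        (⌊Real.exp (Real.exp (Real.sqrt i))⌋₊) r) atTop (𝓝 0) := by
      refine ae_tendsto _ (fun i => integrable_hpart_sq P u _ A _)
        (fun i => 72 * (A.card : ℝ) ^ 2 / Q (J i)) ?_ i0 ?_
      · have := hJQ.mul_left (72 * (A.card : ℝ) ^ 2)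
        refine this.congr fun i => ?_
        rw [mul_one_div]
      · intro i hi
        obtain ⟨h1, h2⟩ := hi0 i hi
        exact hpart_bound P hPp u (B (J i)) A (Q (J i)) _
          (fun p hp => ⟨(hB _ p hp).1, (hB _ p hp).2.1⟩) (hQ _)
          (fun a ha => by have := hM a ha; omega) ((le_max_left _ _).trans h2)
          (fun a ha => (hM a ha).trans ((le_max_right _ _).trans h2))
    have hg : ∀ r, Tendsto (fun i : ℕ => gpart P u (B (J i)) A
        (⌊Real.exp (Real.exp (Real.sqrt i))⌋₊) r) atTop (𝓝 0) := by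
      intro r
      have h1 : Tendsto (fun i => Real.exp (-(mass (B (J i))) / 2) +
          (2 + 2 * ∑ p ∈ B (J i), Real.log p) /
            Real.log (⌊Real.exp (Real.exp (Real.sqrt i))⌋₊ : ℕ)) atTop (𝓝 0) := by
        have h2 : Tendsto (fun i => Real.exp (-(mass (B (J i))) / 2)) atTop (𝓝 0) := by
          refine Real.tendsto_exp_atBot.comp ?_
          have h3 : Tendsto (fun i => mass (B (J i))) atTop atTop := hm.comp hJ
          exact (tendsto_neg_atTop_atBot.comp h3).atBot_div_const (by norm_num)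
        have := h2.add hJL
        rwa [add_zero] at this
      refine squeeze_zero_norm' ?_ h1
      filter_upwards [eventually_ge_atTop i0] with i hi
      obtain ⟨h2, h3⟩ := hi0 i hi
      rw [Real.norm_eq_abs]
      exact gpart_bound P u (B (J i)) A (fun p hp => hPp p (hB _ p hp).1) hA
        (fun p hp a ha => by
          have h4 := hM a ha
          have h5 := (hB _ p hp).2.1
          omega) _ ((le_max_left _ _).trans h3) r
    filter_upwards [hh] with r hr
    refine interp _ A ?_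
    have h1 := (hg r).add hr
    rw [add_zero] at h1
    refine h1.congr fun i => ?_
    exact (split P u (B (J i)) A _ r).symm
  have hall := ae_all_iff.2 hA
  filter_upwards [hall] with r hr
  exact (bernAlong_iff (twist P u r) atTop le_rfl).2 fun A hA' => hr ⟨A, hA'⟩

end Pool.Agent.Helper50.FS
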