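import Pool.Agent.Helper50.FS.HBound
import Pool.Agent.Helper50.FS.GBound
import Pool.Agent.Helper50.FS.BernIff

/-!
FS-PartTwo. For every set `P` of primes with divergent `∑ 1/p` there is a sequence `N j → ∞` such
that for every `u` and almost every `r` the averages of `twist P u r` along `N j` converge to the
Bernoulli measure.

Plan. Since `∑_{p ∈ P} 1/p = ∞`, for each `j` there is a finite `B j ⊆ P` with all elements `≥ 2^j`
(`≥ 2` too) and `mass (B j) ≥ j`. Choose `N j ≥ max 3 j` with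
`(2 + 2 ∑_{p ∈ B j} log p) / log (N j) ≤ 1/(j+1)`. Fix `u` and a nonempty `A : Finset ℕ`. For `j`
large (`2 a < 2^j` for `a ∈ A`, `a ≤ N j`): `gpart_bound` gives
`|gpart| ≤ exp(-j/2) + 1/(j+1) → 0` for every `r`; `hpart_bound` gives
`∫ hpart^2 ≤ 72 |A|^2 / 2^j`, summable, so `∑_j hpart_j^2 < ∞` a.e. and `hpart_j → 0` a.e.
(use `lintegral_tsum` and `ae_lt_top`, or `MeasureTheory.hasSum_integral_of_summable_integral_norm`,
or Markov and Borel-Cantelli `measure_limsup_atTop_eq_zero`). There are countably many `A`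
(`ae_all_iff`). Conclude with `split` and `bernAlong_iff` for `l = map N atTop ≤ atTop`.
-/

open Filter Topology MeasureTheory

namespace Pool.Agent.Helper50.FS

private lemma exB (P : Set ℕ)
    (hinf : ¬ Summable (fun p : P => (1 / (p : ℕ) : ℝ))) (Q : ℕ) (M : ℝ) :
    ∃ B : Finset ℕ, (∀ p ∈ B, p ∈ P ∧ Q ≤ p) ∧ M ≤ mass B := by
  classical
  by_contra hcon
  push Not at hcon
  apply hinf
  refine summable_of_sum_le (c := (∑ p ∈ Finset.range Q, (1 / p : ℝ)) + M) (fun p => by positivity)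
    ?_
  intro F
  rw [← Finset.sum_filter_add_sum_filter_not F (fun p : P => (p : ℕ) < Q)]
  refine add_le_add ?_ ?_
  · have h1 : ∑ p ∈ F.filter (fun p : P => (p : ℕ) < Q), (1 / (p : ℕ) : ℝ) =
        ∑ p ∈ (F.filter (fun p : P => (p : ℕ) < Q)).map (Function.Embedding.subtype _),
          (1 / p : ℝ) := by
      rw [Finset.sum_map]
      rfl
    rw [h1]
    refine Finset.sum_le_sum_of_subset_of_nonneg ?_ (fun p _ _ => by positivity)
    intro p hp
    simp only [Finset.mem_map, Finset.mem_filter, Function.Embedding.coe_subtype] at hp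
    obtain ⟨q, ⟨_, hq⟩, rfl⟩ := hp
    exact Finset.mem_range.2 hq
  · have h1 : ∑ p ∈ F.filter (fun p : P => ¬ (p : ℕ) < Q), (1 / (p : ℕ) : ℝ) =
        mass ((F.filter (fun p : P => ¬ (p : ℕ) < Q)).map (Function.Embedding.subtype _)) := by
      rw [mass, Finset.sum_map]
      rfl
    rw [h1]
    refine (hcon _ ?_).le
    intro p hp
    simp only [Finset.mem_map, Finset.mem_filter, Function.Embedding.coe_subtype] at hp
    obtain ⟨q, ⟨_, hq⟩, rfl⟩ := hp
    exact ⟨q.2, not_lt.1 hq⟩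

private lemma exN (c : ℝ) (j : ℕ) :
    ∃ N : ℕ, 3 ≤ N ∧ j ≤ N ∧ c / Real.log N ≤ 1 / (j + 1) := by
  have h1 : Tendsto (fun N : ℕ => c / Real.log N) atTop (𝓝 0) :=
    (Real.tendsto_log_atTop.comp tendsto_natCast_atTop_atTop).const_div_atTop c
  have h2 : ∀ᶠ N : ℕ in atTop, c / Real.log N < 1 / ((j : ℝ) + 1) :=
    h1.eventually_lt_const (by positivity)
  obtain ⟨N, h3, h4, h5⟩ := (h2.and ((eventually_ge_atTop 3).and (eventually_ge_atTop j))).exists
  exact ⟨N, h4, h5, h3.le⟩

private lemma ae_tendsto {Ω : Type*} [MeasurableSpace Ω] (μ : Measure Ω) (f : ℕ → Ω → ℝ)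
    (hf : ∀ j, Measurable (f j)) (hi : ∀ j, Integrable (fun r => (f j r) ^ 2) μ) (c : ℕ → ℝ)
    (hc : Summable c) (hfc : ∀ j, ∫ r, (f j r) ^ 2 ∂μ ≤ c j) :
    ∀ᵐ r ∂μ, Tendsto (fun j => f j r) atTop (𝓝 0) := by
  have hc0 : ∀ j, 0 ≤ c j := fun j => (integral_nonneg fun r => sq_nonneg _).trans (hfc j)
  have h1 : ∫⁻ r, ∑' j, ENNReal.ofReal ((f j r) ^ 2) ∂μ ≠ ⊤ := by
    rw [lintegral_tsum (fun j => ((hf j).pow_const 2).ennreal_ofReal.aemeasurable)]
    have h2 : ∀ j, ∫⁻ r, ENNReal.ofReal ((f j r) ^ 2) ∂μ ≤ ENNReal.ofReal (c j) := by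
      intro j
      rw [← ofReal_integral_eq_lintegral_ofReal (hi j) (Eventually.of_forall fun r => sq_nonneg _)]
      exact ENNReal.ofReal_le_ofReal (hfc j)
    refine ne_top_of_le_ne_top ?_ (ENNReal.tsum_le_tsum h2)
    rw [← ENNReal.ofReal_tsum_of_nonneg hc0 hc]
    exact ENNReal.ofReal_ne_top
  have h3 : ∀ᵐ r ∂μ, ∑' j, ENNReal.ofReal ((f j r) ^ 2) < ⊤ :=
    ae_lt_top (Measurable.tsum fun j => ((hf j).pow_const 2).ennreal_ofReal) h1
  filter_upwards [h3] with r hr
  have h4 : Tendsto (fun j => ENNReal.ofReal ((f j r) ^ 2)) atTop (𝓝 0) :=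
    ENNReal.tendsto_atTop_zero_of_tsum_ne_top hr.ne
  have h5 : Tendsto (fun j => (f j r) ^ 2) atTop (𝓝 0) := by
    have h6 := (ENNReal.tendsto_toReal ENNReal.zero_ne_top).comp h4
    simpa [Function.comp_def, ENNReal.toReal_ofReal (sq_nonneg _)] using h6
  have h7 : Tendsto (fun j => Real.sqrt ((f j r) ^ 2)) atTop (𝓝 (Real.sqrt 0)) :=
    (Real.continuous_sqrt.tendsto 0).comp h5
  rw [Real.sqrt_zero] at h7
  refine (tendsto_zero_iff_abs_tendsto_zero _).2 ?_
  refine h7.congr fun j => ?_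
  rw [Real.sqrt_sq_eq_abs]
  rfl

theorem part_two (P : Set ℕ) (hP : ∀ p ∈ P, p.Prime)
    (hinf : ¬ Summable (fun p : P => (1 / (p : ℕ) : ℝ))) :
    ∃ N : ℕ → ℕ, Tendsto N atTop atTop ∧
      ∀ u : ℕ → ℤˣ, ∀ᵐ r ∂signs, BernAlong (twist P u r) (map N atTop) := by
  classical
  choose B hB1 hB2 using fun j : ℕ => exB P hinf (2 ^ (j + 1)) (j : ℝ)
  choose N hN1 hN2 hN3 using fun j : ℕ => exN (2 + 2 * ∑ p ∈ B j, Real.log p) j
  have hNt : Tendsto N atTop atTop := tendsto_atTop_mono hN2 tendsto_id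
  refine ⟨N, hNt, fun u => ?_⟩
  have key : ∀ A : Finset ℕ, ∀ᵐ r ∂signs, A.Nonempty →
      Tendsto (fun j => ncorr (twist P u r) A (N j)) atTop (𝓝 0) := by
    intro A
    by_cases hA : A.Nonempty
    swap
    · exact Eventually.of_forall fun r h => absurd h hA
    set m := A.sup id with hm
    have hAm : ∀ a ∈ A, a ≤ m := fun a ha => Finset.le_sup (f := id) ha
    have hpow : ∀ j, m ≤ j → ∀ a ∈ A, 2 * a ≤ 2 ^ (j + 1) ∧ a < 2 ^ (j + 1) ∧ a ≤ N j := by
      intro j hj a ha
      have h1 := hAm a ha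
      have h2 : j < 2 ^ j := Nat.lt_two_pow_self
      refine ⟨?_, ?_, ?_⟩
      · rw [pow_succ]; omega
      · rw [pow_succ]; omega
      · exact (h1.trans hj).trans (hN2 j)
    have hh : ∀ᵐ r ∂signs,
        Tendsto (fun j => hpart P u (B (j + m)) A (N (j + m)) r) atTop (𝓝 0) := by
      refine ae_tendsto signs (fun j => hpart P u (B (j + m)) A (N (j + m)))
        (fun j => measurable_hpart P u _ A _) (fun j => integrable_hpart_sq P u _ A _)
        (fun j => 72 * (A.card : ℝ) ^ 2 * (1 / 2) ^ j) ?_ ?_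
      · exact (summable_geometric_of_lt_one (by norm_num) (by norm_num)).mul_left _
      · intro j
        refine (hpart_bound P hP u (B (j + m)) A (2 ^ (j + m + 1)) (N (j + m))
          (fun p hp => hB1 _ p hp) ?_ ?_ (hN1 _) ?_).trans ?_
        · exact Nat.le_self_pow (by omega) 2
        · intro a ha
          exact (hpow (j + m) (by omega) a ha).1
        · intro a ha
          exact (hpow (j + m) (by omega) a ha).2.2
        · have h2 : ((2 ^ (j + m + 1) : ℕ) : ℝ) = 2 ^ j * 2 ^ (m + 1) := by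
            push_cast
            rw [add_assoc, pow_add]
          rw [h2, one_div, inv_pow, div_le_iff₀ (by positivity)]
          have h3 : (1 : ℝ) ≤ 2 ^ (m + 1) := one_le_pow₀ (by norm_num)
          have h4 : (2 ^ j : ℝ) ≠ 0 := by positivity
          have h5 : 72 * (A.card : ℝ) ^ 2 * (2 ^ j)⁻¹ * (2 ^ j * 2 ^ (m + 1)) =
              72 * (A.card : ℝ) ^ 2 * 2 ^ (m + 1) := by
            field_simp
          rw [h5]
          exact le_mul_of_one_le_right (by positivity) h3
    have hg : ∀ r, Tendsto (fun j => gpart P u (B (j + m)) A (N (j + m)) r) atTop (𝓝 0) := by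
      intro r
      have h1 : Tendsto (fun j : ℕ => Real.exp (-((j + m : ℕ) : ℝ) / 2) +
          1 / (((j + m : ℕ) : ℝ) + 1)) atTop (𝓝 0) := by
        have h2 : Tendsto (fun j : ℕ => Real.exp (-(j : ℝ) / 2) + 1 / ((j : ℝ) + 1)) atTop
            (𝓝 (0 + 0)) := by
          refine Tendsto.add ?_ tendsto_one_div_add_atTop_nhds_zero_nat
          refine Real.tendsto_exp_atBot.comp ?_
          have h3 : Tendsto (fun j : ℕ => (j : ℝ) / 2) atTop atTop :=
            tendsto_natCast_atTop_atTop.atTop_div_const (by norm_num)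
          refine (tendsto_neg_atTop_atBot.comp h3).congr fun j => ?_
          simp [neg_div]
        rw [add_zero] at h2
        exact (tendsto_add_atTop_iff_nat m).2 h2
      refine squeeze_zero_norm (fun j => ?_) h1
      rw [Real.norm_eq_abs]
      refine (gpart_bound P u (B (j + m)) A (fun p hp => hP p (hB1 _ p hp).1) hA ?_
        (N (j + m)) (hN1 _) r).trans ?_
      · intro p hp a ha
        exact lt_of_lt_of_le (hpow (j + m) (by omega) a ha).2.1 (hB1 _ p hp).2
      · refine add_le_add ?_ (hN3 _)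
        refine Real.exp_le_exp.2 ?_
        have := hB2 (j + m)
        linarith
    filter_upwards [hh] with r hr _
    refine (tendsto_add_atTop_iff_nat m).1 ?_
    have h1 := (hg r).add hr
    rw [add_zero] at h1
    refine h1.congr fun j => ?_
    exact (split P u (B (j + m)) A (N (j + m)) r).symm
  have hall := ae_all_iff.2 key
  filter_upwards [hall] with r hr
  refine (bernAlong_iff _ _ hNt).2 fun A hA => ?_
  exact tendsto_map'_iff.2 (hr A hA)

end Pool.Agent.Helper50.FS
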