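import Pool.Agent.Helper50.FS.PartOne
import Pool.Agent.Helper50.FS.PartTwo
import Pool.Agent.Helper50.FS.PartThree
import Pool.Agent.Helper50.FS.Exist

/-!
FS-Main (assembly, compiles from the parts).
-/

open Filter Topology MeasureTheory Asymptotics

namespace Pool.Agent.Helper50.FS

theorem main :
    -- twisting preserves multiplicativity
    (∀ (P : Set ℕ) (u r : ℕ → ℤˣ), IsMult u → IsMult (twist P u r)) ∧
    -- (1) finite mass: nothing changes
    (∀ P : Set ℕ, (∀ p ∈ P, p.Prime) → Summable (fun p : P => (1 / (p : ℕ) : ℝ)) →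
      ∀ (u r : ℕ → ℤˣ) (l : Filter ℕ), l ≤ atTop → (BernAlong (twist P u r) l ↔ BernAlong u l)) ∧
    -- (2) infinite mass: Bernoulli along a sequence that depends only on `P`
    (∀ P : Set ℕ, (∀ p ∈ P, p.Prime) → ¬ Summable (fun p : P => (1 / (p : ℕ) : ℝ)) →
      ∃ N : ℕ → ℕ, Tendsto N atTop atTop ∧
        ∀ u : ℕ → ℤˣ, ∀ᵐ r ∂signs, BernAlong (twist P u r) (map N atTop)) ∧
    -- (3) tame sets: Bernoulli along all `N`
    (∀ P : Set ℕ, Tame P → ∀ u : ℕ → ℤˣ, ∀ᵐ r ∂signs, IsBern (twist P u r)) ∧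
    -- (4) tame sets can be extremely sparse
    (∃ P : Set ℕ, Tame P ∧
      ∀ m : ℕ, (fun N : ℕ => mass (upTo P N)) =o[atTop] (fun N : ℕ => Real.log^[m] (N : ℝ))) :=
  ⟨fun P u r hu => twist_mult P u r hu, fun P hP hs u r l hl => part_one P hP hs u r l hl,
    fun P hP hi => part_two P hP hi, fun P hP u => part_three P hP u, exists_sparse_tame⟩

end Pool.Agent.Helper50.FS
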