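import Pool.Agent.Helper50.FS.Defs
import Pool.Agent.Helper24.Mertens
import Pool.Agent.Helper52.PrimeSums

/-!
FS-Mertens. A quantitative lower bound for `∑_{x < p ≤ y} 1/p`.
-/

open Filter Topology MeasureTheory

namespace Pool.Agent.Helper50.FS

private lemma log_one_sub_ge {t : ℝ} (h0 : 0 ≤ t) (h1 : t ≤ 1 / 2) :
    -(t + t ^ 2) ≤ Real.log (1 - t) := by
  have h2 : 0 < 1 - t := by linarith
  rw [Real.le_log_iff_exp_le h2]
  have h3 : Real.exp (-(t + t ^ 2)) = (Real.exp (t + t ^ 2))⁻¹ := Real.exp_neg _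
  rw [h3]
  have h4 : 1 + (t + t ^ 2) ≤ Real.exp (t + t ^ 2) := by
    have := Real.add_one_le_exp (t + t ^ 2)
    linarith
  have h5 : 1 ≤ (1 - t) * Real.exp (t + t ^ 2) := by
    have h6 : (1 - t) * (1 + (t + t ^ 2)) ≤ (1 - t) * Real.exp (t + t ^ 2) :=
      mul_le_mul_of_nonneg_left h4 h2.le
    have h7 : (1 + (t + t ^ 2) + (t + t ^ 2) ^ 2 / 2) ≤ Real.exp (t + t ^ 2) := by
      have := Real.quadratic_le_exp_of_nonneg (x := t + t ^ 2) (by positivity)
      linarith
    have h8 : (1 - t) * (1 + (t + t ^ 2) + (t + t ^ 2) ^ 2 / 2) ≤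
        (1 - t) * Real.exp (t + t ^ 2) := mul_le_mul_of_nonneg_left h7 h2.le
    have h9 : 1 ≤ (1 - t) * (1 + (t + t ^ 2) + (t + t ^ 2) ^ 2 / 2) := by
      have e : (1 - t) * (1 + (t + t ^ 2) + (t + t ^ 2) ^ 2 / 2) - 1 =
          t ^ 2 * (1 / 2 - t / 2 - t ^ 2 / 2 - t ^ 3 / 2) := by ring
      have e2 : 0 ≤ 1 / 2 - t / 2 - t ^ 2 / 2 - t ^ 3 / 2 := by
        nlinarith [mul_nonneg h0 h0, mul_nonneg (mul_nonneg h0 h0) h0]
      have e3 : 0 ≤ t ^ 2 * (1 / 2 - t / 2 - t ^ 2 / 2 - t ^ 3 / 2) := by positivity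
      linarith
    linarith
  have h6 : 0 < Real.exp (t + t ^ 2) := Real.exp_pos _
  rw [inv_le_iff_one_le_mul₀ h6]
  exact h5

private lemma sum_inv_sq_le (N : ℕ) :
    ∑ q ∈ Pool.Agent.Helper52.pr 0 N, (1 / (q : ℝ)) ^ 2 ≤ 1 := by
  have h1 : ∀ n : ℕ, ∑ q ∈ Finset.Ioc 1 (n + 1), (1 / (q : ℝ)) ^ 2 ≤ 1 - 1 / (n + 1 : ℝ) := by
    intro n
    induction n with
    | zero => simp
    | succ n ih =>
      rw [← Finset.insert_Ioc_right_eq_Ioc_add_one (by omega), Finset.sum_insert (by simp)]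
      have hn : (0 : ℝ) < n + 1 := by positivity
      have h2 : (1 / ((n + 1 + 1 : ℕ) : ℝ)) ^ 2 ≤ 1 / (n + 1 : ℝ) - 1 / (n + 1 + 1 : ℝ) := by
        push_cast
        rw [div_sub_div _ _ hn.ne' (by positivity), div_pow, div_le_div_iff₀ (by positivity)
          (by positivity)]
        nlinarith
      push_cast at h2 ⊢
      linarith
  have h3 : Pool.Agent.Helper52.pr 0 N ⊆ Finset.Ioc 1 (N + 1) := by
    intro q hq
    rw [Pool.Agent.Helper52.mem_pr] at hq
    rw [Finset.mem_Ioc]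
    exact ⟨hq.2.2.one_lt, by omega⟩
  refine (Finset.sum_le_sum_of_subset_of_nonneg h3 (fun _ _ _ => by positivity)).trans
    ((h1 N).trans ?_)
  have : (0 : ℝ) ≤ 1 / (N + 1 : ℝ) := by positivity
  linarith

theorem mertens_low : ∃ C : ℝ, 0 < C ∧ ∀ (x y j : ℕ), 3 ≤ x →
    Real.exp (C + j) * (Real.log x) ^ 4 ≤ Real.log y →
    (j : ℝ) ≤ mass ((Finset.Ioc x y).filter Nat.Prime) := by
  refine ⟨10, by norm_num, ?_⟩
  intro x y j hx h
  have hxr : (3 : ℝ) ≤ x := by exact_mod_cast hx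
  have hlx : 1 < Real.log x := by
    rw [Real.lt_log_iff_exp_lt (by linarith)]
    have := Real.exp_one_lt_d9
    linarith
  have hpow : 1 < (Real.log x) ^ 4 := one_lt_pow₀ hlx (by norm_num)
  have hpow2 : Real.log x ≤ (Real.log x) ^ 4 := by
    calc Real.log x = (Real.log x) ^ 1 := (pow_one _).symm
      _ ≤ _ := pow_le_pow_right₀ hlx.le (by norm_num)
  have hexp : 2 ≤ Real.exp (10 + j) := by
    have h1 : (1 : ℝ) ≤ 10 + j := by
      have : (0 : ℝ) ≤ j := by positivity
      linarith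
    have h2 := Real.add_one_le_exp ((10 : ℝ) + j)
    linarith
  have hL : Real.log x < Real.log y := by
    refine lt_of_lt_of_le ?_ h
    nlinarith
  have hyx : x ≤ y := by
    by_contra hcon
    push_neg at hcon
    rcases Nat.eq_zero_or_pos y with hy | hy
    · rw [hy] at hL
      simp at hL
      linarith
    · have : Real.log y ≤ Real.log x := by
        apply Real.log_le_log
        · exact_mod_cast hy
        · exact_mod_cast hcon.le
      linarith
  have hy3 : 3 ≤ y := hx.trans hyx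
  have hyr : (3 : ℝ) ≤ y := by exact_mod_cast hy3
  set L := Real.log y with hLdef
  have hLpos : 0 < L := by linarith
  set b := Nat.log 2 y with hb
  have hb1 : 1 ≤ b := by
    rw [hb]
    exact Nat.log_pos (by norm_num) (by omega)
  have hb2 : 2 ^ b ≤ y := Nat.pow_log_le_self 2 (by omega)
  have hb3 : y < 2 ^ (b + 1) := Nat.lt_pow_succ_log_self (by norm_num) y
  have hl2 : 0 < Real.log 2 := Real.log_pos (by norm_num)
  have hbr : (1 : ℝ) ≤ b := by exact_mod_cast hb1
  have hbL : L / 2 ≤ b * Real.log 2 := by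
    have h1 : L ≤ (b + 1) * Real.log 2 := by
      have h2 : Real.log y ≤ Real.log ((2 : ℝ) ^ (b + 1)) := by
        apply Real.log_le_log (by linarith)
        exact_mod_cast hb3.le
      rw [Real.log_pow] at h2
      push_cast at h2
      exact h2
    nlinarith
  -- lower bound
  have hprod := Pool.Agent.Helper52.prod_upper hb1
  have hpos : ∀ q ∈ Pool.Agent.Helper52.pr 0 (2 ^ b), (0 : ℝ) < 1 - 1 / (q : ℝ) := by
    intro q hq
    rw [Pool.Agent.Helper52.mem_pr] at hq
    have h1 : (1 : ℝ) < q := by exact_mod_cast hq.2.2.one_lt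
    have h2 : 1 / (q : ℝ) < 1 := by
      rw [div_lt_one (by linarith)]
      exact h1
    linarith
  have hlog := Real.log_le_log (Finset.prod_pos hpos) hprod
  rw [Real.log_prod (fun q hq => (hpos q hq).ne')] at hlog
  have hlog2 : Real.log (1 / (b * Real.log 2)) = -Real.log (b * Real.log 2) := by
    rw [one_div, Real.log_inv]
  rw [hlog2] at hlog
  have hlow : ∑ q ∈ Pool.Agent.Helper52.pr 0 (2 ^ b), -((1 / (q : ℝ)) + (1 / (q : ℝ)) ^ 2) ≤
      ∑ q ∈ Pool.Agent.Helper52.pr 0 (2 ^ b), Real.log (1 - 1 / (q : ℝ)) := by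
    apply Finset.sum_le_sum
    intro q hq
    rw [Pool.Agent.Helper52.mem_pr] at hq
    have h1 : (2 : ℝ) ≤ q := by exact_mod_cast hq.2.2.two_le
    apply log_one_sub_ge (by positivity)
    rw [div_le_div_iff₀ (by linarith) (by norm_num)]
    linarith
  rw [Finset.sum_neg_distrib, Finset.sum_add_distrib] at hlow
  have hsq := sum_inv_sq_le (2 ^ b)
  have hT : Real.log (L / 2) - 1 ≤ ∑ q ∈ Pool.Agent.Helper52.pr 0 (2 ^ b), 1 / (q : ℝ) := by
    have h1 : Real.log (L / 2) ≤ Real.log (b * Real.log 2) :=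
      Real.log_le_log (by linarith) hbL
    linarith
  -- upper bound
  have hup := Pool.Agent.Helper24.sum_inv_primes_le x (by omega)
  -- splitting
  have hsplit : ∑ q ∈ Pool.Agent.Helper52.pr 0 (2 ^ b), 1 / (q : ℝ) ≤
      ∑ p ∈ Nat.primesLE x, 1 / (p : ℝ) + mass ((Finset.Ioc x y).filter Nat.Prime) := by
    unfold mass
    rw [← Finset.sum_union]
    · apply Finset.sum_le_sum_of_subset_of_nonneg
      · intro q hq
        rw [Pool.Agent.Helper52.mem_pr] at hq
        rw [Finset.mem_union, Finset.mem_filter, Finset.mem_Ioc, Nat.mem_primesLE]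
        by_cases hqx : q ≤ x
        · left; exact ⟨hqx, hq.2.2⟩
        · right; exact ⟨⟨by omega, by omega⟩, hq.2.2⟩
      · intro _ _ _
        positivity
    · rw [Finset.disjoint_left]
      intro q hq1 hq2
      rw [Nat.mem_primesLE] at hq1
      rw [Finset.mem_filter, Finset.mem_Ioc] at hq2
      omega
  have hlogL : 10 + (j : ℝ) + 4 * Real.log (Real.log x) ≤ Real.log L := by
    have h1 := Real.log_le_log (by positivity) h
    rw [Real.log_mul (Real.exp_pos _).ne' (by positivity), Real.log_exp, Real.log_pow] at h1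
    push_cast at h1
    exact h1
  have hlogL2 : Real.log (L / 2) = Real.log L - Real.log 2 := Real.log_div hLpos.ne' (by norm_num)
  have hll : 0 < Real.log (Real.log x) := Real.log_pos hlx
  have hl2' : Real.log 2 < 1 := by
    have := Real.log_two_lt_d9
    linarith
  linarith

end Pool.Agent.Helper50.FS
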