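import Pool.Agent.Helper50.FS.Defs
import Pool.Agent.Helper50.FS.DivSum

/-!
FS-RatApprox. If `∑_{p ∈ P} 1/p < ∞`, the function `n ↦ ∏_{a ∈ A} ρ(n+a)`,
`ρ = twist P 1 r`, is a limit of periodic functions in the logarithmic `L¹` seminorm.

Plan. For `K, L` let `ρ' n = ∏_{p ∈ P, p ≤ K} r p ^ (min (v_p n) L)` (for `n ≥ 1`; a function of `n` mod
`q = ∏_{p ≤ K} p^L`: `min (v_p n) L` is determined by `n` mod `p^L`; to get an honest periodic
function also at multiples of everything, define it by `v_p` replaced with the largest `l ≤ L` with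
`p^l ∣ n`). If `ρ n ≠ ρ' n` then either some `p ∈ P`, `p > K`, divides `n`, or `p^(L+1) ∣ n` for some
`p ≤ K`. Let `g n = ∏_{a ∈ A} sg (ρ' (n+a))`, periodic. `|R n - g n| ≤ 2 ∑_{a ∈ A} 1[ρ(n+a) ≠ ρ'(n+a)]`.
For `d ≥ 1` and every `N`: `∑_{n ≤ N, d | n+a} 1/n ≤ C_a (1 + log N)/d`, hmm, precisely: `n + a = d t`;
the terms with `d ≥ 2a` contribute at most `(2/d)(1 + log N)` (as in FS-DivSum); choose `K ≥ 2 max A` so
that all `p > K` are covered, and `p^(L+1) ≥ 2^(L+1) ≥ 2 max A` for large `L`. So the seminorm is at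
most `|A| * 2 * (∑_{p ∈ P, p > K} 3/p + ∑_{p ≤ K} 3/p^(L+1))` up to `o(1)`; first choose `K` then `L`.
Note for fixed `N` only finitely many `p` matter in the first sum (`p ≤ N + max A`).
-/

open Filter Topology MeasureTheory

namespace Pool.Agent.Helper50.FS

private theorem tail (P : Set ℕ) (hs : Summable (fun p : P => (1 / (p : ℕ) : ℝ))) {η : ℝ}
    (hη : 0 < η) : ∃ K0 : ℕ, ∀ T : Finset ℕ, (∀ p ∈ T, p ∈ P ∧ K0 < p) →
      ∑ p ∈ T, (1 / p : ℝ) ≤ η := by
  classical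
  obtain ⟨s, hs'⟩ := summable_iff_vanishing_norm.1 hs η hη
  refine ⟨s.sup (fun p => (p : ℕ)), fun T hT => ?_⟩
  have h1 := hs' (T.subtype (fun x => x ∈ P)) (by
    rw [Finset.disjoint_left]
    intro p hp hps
    rw [Finset.mem_subtype] at hp
    have h2 := (hT _ hp).2
    have h3 : (p : ℕ) ≤ s.sup (fun p => (p : ℕ)) := Finset.le_sup (f := fun p : P => (p : ℕ)) hps
    omega)
  have h2 : ∑ p ∈ T.subtype (fun x => x ∈ P), (1 / ((p : ℕ) : ℝ)) = ∑ p ∈ T, (1 / (p : ℝ)) :=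
    Finset.sum_subtype_of_mem (fun p : ℕ => (1 / (p : ℝ))) (fun p hp => (hT p hp).1)
  rw [← h2]
  exact (le_abs_self _).trans h1.le

open Classical in
private noncomputable def rr (P : Set ℕ) (r : ℕ → ℤˣ) (K L : ℕ) (n : ℕ) : ℤˣ :=
  ∏ p ∈ (Finset.range (K + 1)).filter (fun p => p ∈ P),
    r p ^ ((Finset.Icc 1 L).filter (fun l => p ^ l ∣ n)).card

private theorem rr_per (P : Set ℕ) (hP : ∀ p ∈ P, p.Prime) (r : ℕ → ℤˣ) (K L n : ℕ) :
    rr P r K L (n + K.factorial ^ L) = rr P r K L n := by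
  classical
  unfold rr
  refine Finset.prod_congr rfl fun p hp => ?_
  rw [Finset.mem_filter, Finset.mem_range] at hp
  congr 2
  refine Finset.filter_congr fun l hl => ?_
  rw [Finset.mem_Icc] at hl
  have h1 : p ∣ K.factorial := Nat.dvd_factorial (hP p hp.2).pos (by omega)
  have h2 : p ^ l ∣ K.factorial ^ L := (pow_dvd_pow_of_dvd h1 l).trans (pow_dvd_pow _ hl.2)
  exact (Nat.dvd_add_iff_left h2).symm

private theorem rr_eq (P : Set ℕ) (hP : ∀ p ∈ P, p.Prime) (r : ℕ → ℤˣ) (K L n : ℕ) (hn : n ≠ 0)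
    (h1 : ∀ p ∈ P, K < p → ¬ p ∣ n) (h2 : ∀ p ∈ P, p ≤ K → ¬ p ^ (L + 1) ∣ n) :
    twist P (fun _ => 1) r n = rr P r K L n := by
  classical
  have hv : ∀ p ∈ P, p ≤ K →
      ((Finset.Icc 1 L).filter (fun l => p ^ l ∣ n)).card = n.factorization p := by
    intro p hp hpK
    have hpp := hP p hp
    have h3 : n.factorization p ≤ L := by
      by_contra hcon
      exact h2 p hp hpK ((hpp.pow_dvd_iff_le_factorization hn).2 (by omega))
    have h4 : (Finset.Icc 1 L).filter (fun l => p ^ l ∣ n) = Finset.Icc 1 (n.factorization p) := by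
      ext l
      rw [Finset.mem_filter, Finset.mem_Icc, Finset.mem_Icc,
        hpp.pow_dvd_iff_le_factorization hn]
      omega
    rw [h4, Nat.card_Icc, Nat.add_sub_cancel]
  unfold twist rr
  rw [one_mul]
  have hsub : n.primeFactors.filter (fun p => p ∈ P) ⊆
      (Finset.range (K + 1)).filter (fun p => p ∈ P) := by
    intro p hp
    rw [Finset.mem_filter, Nat.mem_primeFactors] at hp
    rw [Finset.mem_filter, Finset.mem_range]
    refine ⟨?_, hp.2⟩
    by_contra hcon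
    exact h1 p hp.2 (by omega) hp.1.2.1
  have hL : ∏ p ∈ n.primeFactors.filter (fun p => p ∈ P), r p ^ n.factorization p =
      ∏ p ∈ (Finset.range (K + 1)).filter (fun p => p ∈ P), r p ^ n.factorization p := by
    refine Finset.prod_subset hsub fun p hp hp' => ?_
    rw [Finset.mem_filter, Finset.mem_range] at hp
    have h5 : n.factorization p = 0 := by
      rw [← Finsupp.notMem_support_iff, Nat.support_factorization]
      intro h6
      exact hp' (Finset.mem_filter.2 ⟨h6, hp.2⟩)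
    rw [h5, pow_zero]
  rw [hL]
  refine Finset.prod_congr rfl fun p hp => ?_
  rw [Finset.mem_filter, Finset.mem_range] at hp
  rw [hv p hp.2 (by omega)]

private theorem abs_prod_sg (A : Finset ℕ) (f : ℕ → ℤˣ) : |∏ a ∈ A, sg (f a)| = 1 := by
  rw [Finset.abs_prod]
  refine Finset.prod_eq_one fun a _ => ?_
  unfold sg
  rcases Int.units_eq_one_or (f a) with h | h <;> rw [h] <;> simp

private theorem swap (Q A : Finset ℕ) (N : ℕ) (e : ℕ → ℕ) {c : ℝ}
    (h : ∀ a ∈ A, ∀ p ∈ Q, ∑ n ∈ (Finset.Icc 1 N).filter (fun n => e p ∣ n + a), (1 / n : ℝ) ≤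
      (6 / (e p : ℕ) : ℝ) * Real.log N) (hc : ∑ p ∈ Q, (1 / (e p : ℕ) : ℝ) ≤ c)
    (hN : 0 ≤ Real.log N) :
    ∑ n ∈ Finset.Icc 1 N, (∑ a ∈ A, ∑ p ∈ Q, if e p ∣ n + a then (1 : ℝ) else 0) / n ≤
      A.card * (6 * c * Real.log N) := by
  have h1 : ∑ n ∈ Finset.Icc 1 N, (∑ a ∈ A, ∑ p ∈ Q, if e p ∣ n + a then (1 : ℝ) else 0) / n =
      ∑ a ∈ A, ∑ p ∈ Q, ∑ n ∈ (Finset.Icc 1 N).filter (fun n => e p ∣ n + a), (1 / n : ℝ) := by
    have h2 : ∀ n : ℕ, (∑ a ∈ A, ∑ p ∈ Q, if e p ∣ n + a then (1 : ℝ) else 0) / n =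
        ∑ a ∈ A, ∑ p ∈ Q, if e p ∣ n + a then (1 / n : ℝ) else 0 := by
      intro n
      rw [Finset.sum_div]
      refine Finset.sum_congr rfl fun a _ => ?_
      rw [Finset.sum_div]
      refine Finset.sum_congr rfl fun p _ => ?_
      split_ifs
      · rfl
      · rw [zero_div]
    simp only [h2]
    rw [Finset.sum_comm]
    refine Finset.sum_congr rfl fun a _ => ?_
    rw [Finset.sum_comm]
    refine Finset.sum_congr rfl fun p _ => ?_
    rw [Finset.sum_filter]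
  rw [h1]
  calc ∑ a ∈ A, ∑ p ∈ Q, ∑ n ∈ (Finset.Icc 1 N).filter (fun n => e p ∣ n + a), (1 / n : ℝ)
      ≤ ∑ a ∈ A, (6 * c * Real.log N) := by
        refine Finset.sum_le_sum fun a ha => ?_
        calc ∑ p ∈ Q, ∑ n ∈ (Finset.Icc 1 N).filter (fun n => e p ∣ n + a), (1 / n : ℝ)
            ≤ ∑ p ∈ Q, (6 / (e p : ℕ) : ℝ) * Real.log N :=
              Finset.sum_le_sum fun p hp => h a ha p hp
          _ = 6 * (∑ p ∈ Q, (1 / (e p : ℕ) : ℝ)) * Real.log N := by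
              rw [Finset.mul_sum, Finset.sum_mul]
              exact Finset.sum_congr rfl fun p _ => by ring
          _ ≤ 6 * c * Real.log N := by
              apply mul_le_mul_of_nonneg_right _ hN
              linarith
    _ = A.card * (6 * c * Real.log N) := by rw [Finset.sum_const, nsmul_eq_mul]

theorem rat_approx (P : Set ℕ) (hP : ∀ p ∈ P, p.Prime)
    (hs : Summable (fun p : P => (1 / (p : ℕ) : ℝ))) (r : ℕ → ℤˣ) (A : Finset ℕ)
    (ε : ℝ) (hε : 0 < ε) :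
    ∃ (q : ℕ) (g : ℕ → ℝ), 1 ≤ q ∧ (∀ n, g (n + q) = g n) ∧
      ∀ᶠ N : ℕ in atTop, (1 / Real.log N) *
        ∑ n ∈ Finset.Icc 1 N, |(∏ a ∈ A, sg (twist P (fun _ => 1) r (n + a))) - g n| / n ≤ ε := by
  classical
  have hA0 : (0 : ℝ) < 24 * (A.card + 1) := by positivity
  obtain ⟨η, hηd⟩ : ∃ η : ℝ, η = ε / (24 * (A.card + 1)) := ⟨_, rfl⟩
  have hη : 0 < η := by rw [hηd]; positivity
  have hηε : 24 * A.card * η ≤ ε := by
    have : η * (24 * (A.card + 1)) = ε := by rw [hηd]; field_simp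
    nlinarith
  obtain ⟨K0, hK0⟩ := tail P hs hη
  obtain ⟨M, hM⟩ : ∃ M : ℕ, ∀ a ∈ A, a ≤ M := ⟨A.sup id, fun a ha => Finset.le_sup (f := id) ha⟩
  obtain ⟨K, hKK0, hKM⟩ : ∃ K : ℕ, K0 ≤ K ∧ 2 * M ≤ K := ⟨max K0 (2 * M), le_max_left _ _, le_max_right _ _⟩
  obtain ⟨L, hLM, hLη⟩ : ∃ L : ℕ, 2 * M ≤ 2 ^ (L + 1) ∧ ((K : ℝ) + 1) * (1 / 2) ^ (L + 1) ≤ η := by
    have h1 : Tendsto (fun n : ℕ => ((K : ℝ) + 1) * (1 / 2) ^ (n + 1)) atTop
        (𝓝 (((K : ℝ) + 1) * 0)) := by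
      apply Tendsto.const_mul
      exact (tendsto_pow_atTop_nhds_zero_of_lt_one (by norm_num) (by norm_num)).comp
        (tendsto_add_atTop_nat 1)
    rw [mul_zero] at h1
    have h2 : ∀ᶠ n : ℕ in atTop, ((K : ℝ) + 1) * (1 / 2) ^ (n + 1) < η :=
      h1.eventually (gt_mem_nhds hη)
    obtain ⟨L, hL1, hL2⟩ := (h2.and (eventually_ge_atTop (2 * M))).exists
    refine ⟨L, ?_, hL1.le⟩
    have h3 : L + 1 < 2 ^ (L + 1) := Nat.lt_two_pow_self
    omega
  refine ⟨K.factorial ^ L, fun n => ∏ a ∈ A, sg (rr P r K L (n + a)), ?_, ?_, ?_⟩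
  · exact Nat.one_le_pow _ _ (Nat.factorial_pos K)
  · intro n
    refine Finset.prod_congr rfl fun a _ => ?_
    rw [add_right_comm, rr_per P hP]
  filter_upwards [eventually_ge_atTop (max 3 M)] with N hN
  have hN3 : 3 ≤ N := (le_max_left _ _).trans hN
  have hNM : M ≤ N := (le_max_right _ _).trans hN
  have hlog : 0 < Real.log N := Real.log_pos (by exact_mod_cast (by omega : 1 < N))
  obtain ⟨PB, hPB⟩ : ∃ PB : Finset ℕ, ∀ p, p ∈ PB ↔ (p ∈ Finset.Icc 1 (N + M) ∧ p ∈ P ∧ K < p) :=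
    ⟨(Finset.Icc 1 (N + M)).filter (fun p => p ∈ P ∧ K < p), fun p => by rw [Finset.mem_filter]⟩
  obtain ⟨Pk, hPk⟩ : ∃ Pk : Finset ℕ, ∀ p, p ∈ Pk ↔ (p ∈ Finset.range (K + 1) ∧ p ∈ P) :=
    ⟨(Finset.range (K + 1)).filter (fun p => p ∈ P), fun p => by rw [Finset.mem_filter]⟩
  have hpt : ∀ n ∈ Finset.Icc 1 N,
      |(∏ a ∈ A, sg (twist P (fun _ => 1) r (n + a))) - ∏ a ∈ A, sg (rr P r K L (n + a))| ≤
      2 * ((∑ a ∈ A, ∑ p ∈ PB, if p ∣ n + a then (1 : ℝ) else 0) +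
        ∑ a ∈ A, ∑ p ∈ Pk, if p ^ (L + 1) ∣ n + a then (1 : ℝ) else 0) := by
    intro n hn
    rw [Finset.mem_Icc] at hn
    have hnn1 : 0 ≤ ∑ a ∈ A, ∑ p ∈ PB, if p ∣ n + a then (1 : ℝ) else 0 :=
      Finset.sum_nonneg fun a _ => Finset.sum_nonneg fun p _ => by split_ifs <;> norm_num
    have hnn2 : 0 ≤ ∑ a ∈ A, ∑ p ∈ Pk, if p ^ (L + 1) ∣ n + a then (1 : ℝ) else 0 :=
      Finset.sum_nonneg fun a _ => Finset.sum_nonneg fun p _ => by split_ifs <;> norm_num
    have htwo : |(∏ a ∈ A, sg (twist P (fun _ => 1) r (n + a))) -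
        ∏ a ∈ A, sg (rr P r K L (n + a))| ≤ 2 := by
      refine (abs_sub _ _).trans ?_
      rw [abs_prod_sg, abs_prod_sg]
      norm_num
    by_cases hb1 : ∃ a ∈ A, ∃ p ∈ PB, p ∣ n + a
    · obtain ⟨a, ha, p, hp, hd⟩ := hb1
      have h3 : (1 : ℝ) ≤ ∑ a ∈ A, ∑ p ∈ PB, if p ∣ n + a then (1 : ℝ) else 0 := by
        calc (1 : ℝ) = (if p ∣ n + a then (1 : ℝ) else 0) := by rw [if_pos hd]
          _ ≤ ∑ p ∈ PB, if p ∣ n + a then (1 : ℝ) else 0 :=
              Finset.single_le_sum (f := fun p => if p ∣ n + a then (1 : ℝ) else 0)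
                (fun p _ => by split_ifs <;> norm_num) hp
          _ ≤ _ := Finset.single_le_sum
                (f := fun a => ∑ p ∈ PB, if p ∣ n + a then (1 : ℝ) else 0)
                (fun a _ => Finset.sum_nonneg fun p _ => by split_ifs <;> norm_num) ha
      linarith
    by_cases hb2 : ∃ a ∈ A, ∃ p ∈ Pk, p ^ (L + 1) ∣ n + a
    · obtain ⟨a, ha, p, hp, hd⟩ := hb2
      have h3 : (1 : ℝ) ≤ ∑ a ∈ A, ∑ p ∈ Pk, if p ^ (L + 1) ∣ n + a then (1 : ℝ) else 0 := by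
        calc (1 : ℝ) = (if p ^ (L + 1) ∣ n + a then (1 : ℝ) else 0) := by rw [if_pos hd]
          _ ≤ ∑ p ∈ Pk, if p ^ (L + 1) ∣ n + a then (1 : ℝ) else 0 :=
              Finset.single_le_sum (f := fun p => if p ^ (L + 1) ∣ n + a then (1 : ℝ) else 0)
                (fun p _ => by split_ifs <;> norm_num) hp
          _ ≤ _ := Finset.single_le_sum
                (f := fun a => ∑ p ∈ Pk, if p ^ (L + 1) ∣ n + a then (1 : ℝ) else 0)
                (fun a _ => Finset.sum_nonneg fun p _ => by split_ifs <;> norm_num) ha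
      linarith
    · have heq : ∏ a ∈ A, sg (twist P (fun _ => 1) r (n + a)) =
          ∏ a ∈ A, sg (rr P r K L (n + a)) := by
        refine Finset.prod_congr rfl fun a ha => ?_
        congr 1
        apply rr_eq P hP r K L (n + a) (by omega)
        · intro p hp hpK hd
          apply hb1
          refine ⟨a, ha, p, (hPB p).2 ⟨?_, hp, hpK⟩, hd⟩
          rw [Finset.mem_Icc]
          have h4 := Nat.le_of_dvd (by omega) hd
          have h5 := hM a ha
          omega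
        · intro p hp hpK hd
          exact hb2 ⟨a, ha, p, (hPk p).2 ⟨Finset.mem_range.2 (by omega), hp⟩, hd⟩
      rw [heq, sub_self, abs_zero]
      linarith
  have hsum : ∑ n ∈ Finset.Icc 1 N, |(∏ a ∈ A, sg (twist P (fun _ => 1) r (n + a))) -
      ∏ a ∈ A, sg (rr P r K L (n + a))| / n ≤
      2 * (∑ n ∈ Finset.Icc 1 N,
          (∑ a ∈ A, ∑ p ∈ PB, if p ∣ n + a then (1 : ℝ) else 0) / n +
        ∑ n ∈ Finset.Icc 1 N,
          (∑ a ∈ A, ∑ p ∈ Pk, if p ^ (L + 1) ∣ n + a then (1 : ℝ) else 0) / n) := by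
    rw [← Finset.sum_add_distrib, Finset.mul_sum]
    refine Finset.sum_le_sum fun n hn => ?_
    rw [← add_div, ← mul_div_assoc]
    exact div_le_div_of_nonneg_right (hpt n hn) (Nat.cast_nonneg n)
  have hPBs : ∑ p ∈ PB, (1 / ((p : ℕ) : ℝ)) ≤ η := by
    apply hK0 PB
    intro p hp
    obtain ⟨-, h2, h3⟩ := (hPB p).1 hp
    exact ⟨h2, by omega⟩
  have hPks : ∑ p ∈ Pk, (1 / ((p ^ (L + 1) : ℕ) : ℝ)) ≤ η := by
    calc ∑ p ∈ Pk, (1 / ((p ^ (L + 1) : ℕ) : ℝ)) ≤ ∑ p ∈ Pk, (1 / 2 : ℝ) ^ (L + 1) := by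
          refine Finset.sum_le_sum fun p hp => ?_
          have hp2 : 2 ≤ p := (hP p ((hPk p).1 hp).2).two_le
          have hp2' : (2 : ℝ) ≤ p := by exact_mod_cast hp2
          push_cast
          rw [← one_div_pow]
          apply pow_le_pow_left₀ (by positivity)
          exact one_div_le_one_div_of_le (by norm_num) hp2'
      _ = Pk.card * (1 / 2 : ℝ) ^ (L + 1) := by rw [Finset.sum_const, nsmul_eq_mul]
      _ ≤ ((K : ℝ) + 1) * (1 / 2) ^ (L + 1) := by
          apply mul_le_mul_of_nonneg_right _ (by positivity)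
          have h4 : Pk.card ≤ K + 1 := by
            calc Pk.card ≤ (Finset.range (K + 1)).card :=
                  Finset.card_le_card fun p hp => ((hPk p).1 hp).1
              _ = K + 1 := Finset.card_range _
          exact_mod_cast h4
      _ ≤ η := hLη
  have hs1 := swap PB A N (fun p => p) (c := η) (fun a ha p hp => by
    have h5 := hM a ha
    obtain ⟨-, h2, h3⟩ := (hPB p).1 hp
    exact div_sum p a N (hP p h2).two_le (by omega) hN3 (by omega)) hPBs hlog.le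
  have hs2 := swap Pk A N (fun p => p ^ (L + 1)) (c := η) (fun a ha p hp => by
    have h5 := hM a ha
    obtain ⟨-, h2⟩ := (hPk p).1 hp
    have h6 : 2 ≤ p := (hP p h2).two_le
    have h7 : 2 ^ (L + 1) ≤ p ^ (L + 1) := Nat.pow_le_pow_left h6 _
    have h8 : 2 ≤ 2 ^ (L + 1) := by
      calc 2 = 2 ^ 1 := rfl
        _ ≤ 2 ^ (L + 1) := Nat.pow_le_pow_right (by norm_num) (by omega)
    exact div_sum (p ^ (L + 1)) a N (by omega) (by omega) hN3 (by omega)) hPks hlog.le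
  calc (1 / Real.log N) * ∑ n ∈ Finset.Icc 1 N, |(∏ a ∈ A, sg (twist P (fun _ => 1) r (n + a))) -
      ∏ a ∈ A, sg (rr P r K L (n + a))| / n
      ≤ (1 / Real.log N) * (2 * (A.card * (6 * η * Real.log N) + A.card * (6 * η * Real.log N))) := by
        apply mul_le_mul_of_nonneg_left _ (by positivity)
        linarith
    _ = 24 * A.card * η := by field_simp; ring
    _ ≤ ε := hηε

end Pool.Agent.Helper50.FS
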