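import Pool.Agent.Helper50.FS.BernIff
import Pool.Agent.Helper50.FS.PerOrtho
import Pool.Agent.Helper50.FS.RatApprox

/-!
FS-PartOne. Twisting on a set of primes with convergent `∑ 1/p` does not change the Bernoulli
property; `twist` preserves multiplicativity and is an involution.

Plan. `twist_twist`: `(r p ^ k)^2 = 1`. `twist_mult`: `primeFactors` and `factorization` of a
product of coprime numbers (`Nat.Coprime.primeFactors_mul`, `Nat.factorization_mul`), or
write the product as `(n.factorization).prod`.
`part_one`: by `twist_twist` only `←` is needed (apply it to `twist P u r`). By `bernAlong_iff` we need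
`ncorr (twist P u r) A → 0`. `sg (twist P u r (n+a)) = sg (u (n+a)) * sg (twist P 1 r (n+a))`. Given
`ε`, take `q, g` from `rat_approx`; then
`|ncorr (twist P u r) A N| ≤ |(1/log N) ∑ (∏ sg (u (n+a))) g n / n| + ε` for large `N`, and the first term
tends to `0` by `per_ortho`.
-/

open Filter Topology MeasureTheory

namespace Pool.Agent.Helper50.FS

theorem twist_twist (P : Set ℕ) (u r : ℕ → ℤˣ) : twist P (twist P u r) r = u := by
  funext n
  simp only [twist]
  rw [mul_assoc, Int.units_mul_self, mul_one]

theorem twist_mult (P : Set ℕ) (u r : ℕ → ℤˣ) (hu : IsMult u) : IsMult (twist P u r) := by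
  classical
  refine ⟨?_, ?_⟩
  · simp [twist, hu.1]
  · intro m n hm hn hmn
    simp only [twist]
    rw [hu.2 m n hm hn hmn, Nat.Coprime.primeFactors_mul hmn, Finset.filter_union,
      Finset.prod_union]
    · have h1 : ∏ p ∈ m.primeFactors.filter (fun p => p ∈ P), r p ^ (m * n).factorization p
          = ∏ p ∈ m.primeFactors.filter (fun p => p ∈ P), r p ^ m.factorization p := by
        refine Finset.prod_congr rfl fun p hp => ?_
        have hpm : p ∈ m.primeFactors := (Finset.mem_filter.mp hp).1
        have hpn : p ∉ n.primeFactors := fun h =>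
          (Finset.disjoint_left.mp hmn.disjoint_primeFactors) hpm h
        have h0 : n.factorization p = 0 := by
          rw [← Nat.support_factorization, Finsupp.mem_support_iff, not_not] at hpn
          exact hpn
        rw [Nat.factorization_mul hm.ne' hn.ne', Finsupp.add_apply, h0, add_zero]
      have h2 : ∏ p ∈ n.primeFactors.filter (fun p => p ∈ P), r p ^ (m * n).factorization p
          = ∏ p ∈ n.primeFactors.filter (fun p => p ∈ P), r p ^ n.factorization p := by
        refine Finset.prod_congr rfl fun p hp => ?_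
        have hpn : p ∈ n.primeFactors := (Finset.mem_filter.mp hp).1
        have hpm : p ∉ m.primeFactors := fun h =>
          (Finset.disjoint_left.mp hmn.disjoint_primeFactors) h hpn
        have h0 : m.factorization p = 0 := by
          rw [← Nat.support_factorization, Finsupp.mem_support_iff, not_not] at hpm
          exact hpm
        rw [Nat.factorization_mul hm.ne' hn.ne', Finsupp.add_apply, h0, zero_add]
      rw [h1, h2]
      exact mul_mul_mul_comm _ _ _ _
    · refine Finset.disjoint_left.mpr fun p hp hp' => ?_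
      exact (Finset.disjoint_left.mp hmn.disjoint_primeFactors) (Finset.mem_filter.mp hp).1
        (Finset.mem_filter.mp hp').1

private theorem sg_mul (x y : ℤˣ) : sg (x * y) = sg x * sg y := by
  simp [sg]

private theorem abs_sg (x : ℤˣ) : |sg x| = 1 := by
  rcases Int.units_eq_one_or x with h | h <;> simp [sg, h]

private theorem part_one_aux (P : Set ℕ) (hP : ∀ p ∈ P, p.Prime)
    (hs : Summable (fun p : P => (1 / (p : ℕ) : ℝ))) (u r : ℕ → ℤˣ)
    (l : Filter ℕ) (hl : l ≤ atTop)
    (h : BernAlong u l) : BernAlong (twist P u r) l := by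
  have hu := (bernAlong_iff u l hl).mp h
  refine (bernAlong_iff _ l hl).mpr fun A hA => ?_
  rw [Metric.tendsto_nhds]
  intro ε hε
  obtain ⟨q, g, hq, hg, happ⟩ := rat_approx P hP hs r A (ε / 3) (by positivity)
  have hper := per_ortho u l hl hu A hA q hq g hg
  rw [Metric.tendsto_nhds] at hper
  have hper' := hper (ε / 3) (by positivity)
  filter_upwards [hl happ, hper', hl (eventually_ge_atTop 1)] with N h1 h2 hN
  rw [Real.dist_eq, sub_zero] at h2 ⊢
  have hlog : 0 ≤ 1 / Real.log (N : ℝ) :=
    div_nonneg zero_le_one (Real.log_nonneg (by exact_mod_cast hN))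
  have key : ncorr (twist P u r) A N = (1 / Real.log N) *
      ∑ n ∈ Finset.Icc 1 N, (∏ a ∈ A, sg (u (n + a))) * g n / n +
      (1 / Real.log N) * ∑ n ∈ Finset.Icc 1 N, (∏ a ∈ A, sg (u (n + a))) *
        ((∏ a ∈ A, sg (twist P (fun _ => 1) r (n + a))) - g n) / n := by
    rw [← mul_add, ← Finset.sum_add_distrib, ncorr]
    congr 1
    refine Finset.sum_congr rfl fun n _ => ?_
    have h3 : ∏ a ∈ A, sg (twist P u r (n + a)) = (∏ a ∈ A, sg (u (n + a))) *
        ∏ a ∈ A, sg (twist P (fun _ => 1) r (n + a)) := by
      rw [← Finset.prod_mul_distrib]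
      refine Finset.prod_congr rfl fun a _ => ?_
      rw [← sg_mul]
      simp [twist]
    rw [h3]
    ring
  have h4 : |(1 / Real.log N) * ∑ n ∈ Finset.Icc 1 N, (∏ a ∈ A, sg (u (n + a))) *
        ((∏ a ∈ A, sg (twist P (fun _ => 1) r (n + a))) - g n) / n| ≤ ε / 3 := by
    rw [abs_mul, abs_of_nonneg hlog]
    refine le_trans (mul_le_mul_of_nonneg_left ?_ hlog) h1
    refine le_trans (Finset.abs_sum_le_sum_abs _ _) (Finset.sum_le_sum fun n _ => ?_)
    rw [abs_div, abs_mul, Finset.abs_prod, Nat.abs_cast]
    simp only [abs_sg, Finset.prod_const_one, one_mul]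
    exact le_rfl
  rw [key]
  refine lt_of_le_of_lt (abs_add_le _ _) ?_
  linarith

theorem part_one (P : Set ℕ) (hP : ∀ p ∈ P, p.Prime)
    (hs : Summable (fun p : P => (1 / (p : ℕ) : ℝ))) (u r : ℕ → ℤˣ)
    (l : Filter ℕ) (hl : l ≤ atTop) :
    BernAlong (twist P u r) l ↔ BernAlong u l := by
  refine ⟨fun h => ?_, part_one_aux P hP hs u r l hl⟩
  have := part_one_aux P hP hs (twist P u r) r l hl h
  rwa [twist_twist] at this

end Pool.Agent.Helper50.FS
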