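import Pool.Agent.Helper50.FS.Ortho

/-!
FS-Second. The second moment of `hpart`.

Plan. Put `c n = 1/n`, `Y n r = ∏ a ∈ A, sg (twist P u r (n+a))`, `|Y| = 1`, `L = 1/log N`.
`∫ hpart^2 = L^2 ∑_{n,m} c n c m ∫ Y n * Y m` over `n, m ∈ [1,N]` with nonempty odd sets
(`integral_finset_sum`, everything bounded and measurable on a probability space), and the integral
is `0` unless `odd B A n = odd B A m` (`ortho`), else at most `1` in absolute value. So
`∫ hpart^2 ≤ L^2 ∑_{S ≠ ∅} (∑_{n : odd n = S} c n)^2` (`S` runs over the powerset of `B`).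
For `S ≠ ∅`: `(..)^2 ≤ ∑_{p ∈ S} (∑_{odd n = S} c n)^2`, and for fixed `p` the sum over
`S ∋ p` of squares of nonnegative numbers is at most the square of the sum, which is
`∑_{n : p ∈ odd n} c n`. Equivalently and simpler: for `odd n = odd m ≠ ∅` bound the indicator by
`∑_{p ∈ B} 1[p ∈ odd n] 1[p ∈ odd m]`, which is at least `1`; so
`∫ hpart^2 ≤ L^2 ∑_{n,m} c n c m ∑_{p ∈ B} 1[p ∈ odd n] 1[p ∈ odd m]`, which is the right side
(`Finset.sum_mul_sum`, `Finset.sum_comm`).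
-/

open Filter Topology MeasureTheory
namespace Pool.Agent.Helper50.FS

private lemma prob_signs : IsProbabilityMeasure signs := by
  unfold signs
  infer_instance

private lemma meas_Y (P : Set ℕ) (u : ℕ → ℤˣ) (A : Finset ℕ) (n : ℕ) :
    Measurable (fun r : ℕ → ℤˣ => ∏ a ∈ A, sg (twist P u r (n + a))) := by
  refine Finset.measurable_fun_prod A fun a _ => measurable_twist P u (n + a)

private lemma abs_Y (P : Set ℕ) (u : ℕ → ℤˣ) (A : Finset ℕ) (n : ℕ) (r : ℕ → ℤˣ) :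
    |∏ a ∈ A, sg (twist P u r (n + a))| = 1 := by
  rw [Finset.abs_prod]
  exact Finset.prod_eq_one fun a _ => abs_sg _

private lemma abs_YY (P : Set ℕ) (u : ℕ → ℤˣ) (A : Finset ℕ) (n m : ℕ) (r : ℕ → ℤˣ) :
    |(∏ a ∈ A, sg (twist P u r (n + a))) * (∏ a ∈ A, sg (twist P u r (m + a)))| = 1 := by
  rw [abs_mul, abs_Y, abs_Y, one_mul]

private lemma int_YY (P : Set ℕ) (u : ℕ → ℤˣ) (A : Finset ℕ) (n m : ℕ) :
    Integrable (fun r : ℕ → ℤˣ => (∏ a ∈ A, sg (twist P u r (n + a))) *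
      (∏ a ∈ A, sg (twist P u r (m + a)))) signs := by
  have := prob_signs
  refine Integrable.of_bound
    ((meas_Y P u A n).mul (meas_Y P u A m)).aestronglyMeasurable 1 (Eventually.of_forall fun r => ?_)
  rw [Real.norm_eq_abs, abs_YY]

private lemma int_YY_le (P : Set ℕ) (u : ℕ → ℤˣ) (A : Finset ℕ) (n m : ℕ) :
    ∫ r, (∏ a ∈ A, sg (twist P u r (n + a))) * (∏ a ∈ A, sg (twist P u r (m + a))) ∂signs ≤ 1 := by
  have := prob_signs
  calc ∫ r, (∏ a ∈ A, sg (twist P u r (n + a))) * (∏ a ∈ A, sg (twist P u r (m + a))) ∂signs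
      ≤ ∫ _r, (1 : ℝ) ∂signs := by
        refine integral_mono (int_YY P u A n m) (integrable_const _) fun r => ?_
        exact (le_abs_self _).trans (le_of_eq (abs_YY P u A n m r))
    _ = 1 := by simp

private lemma hpart_sq (P : Set ℕ) (u : ℕ → ℤˣ) (B A : Finset ℕ) (N : ℕ) (r : ℕ → ℤˣ) :
    (hpart P u B A N r) ^ 2 = (1 / Real.log N) ^ 2 *
      ∑ n ∈ (Finset.Icc 1 N).filter (fun n => odd B A n ≠ ∅),
        ∑ m ∈ (Finset.Icc 1 N).filter (fun n => odd B A n ≠ ∅), ((1 / n : ℝ) * (1 / m : ℝ)) *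
          ((∏ a ∈ A, sg (twist P u r (n + a))) * (∏ a ∈ A, sg (twist P u r (m + a)))) := by
  unfold hpart
  rw [mul_pow, sq (∑ n ∈ _, _), Finset.sum_mul_sum]
  congr 1
  refine Finset.sum_congr rfl fun n _ => Finset.sum_congr rfl fun m _ => ?_
  ring

private lemma int_le (P : Set ℕ) (hP : ∀ p ∈ P, p.Prime) (u : ℕ → ℤˣ) (B A : Finset ℕ)
    (hB : ∀ p ∈ B, p ∈ P) (n m : ℕ) (hn : 1 ≤ n) (hm : 1 ≤ m) (hn0 : odd B A n ≠ ∅) :
    ∫ r, (∏ a ∈ A, sg (twist P u r (n + a))) * (∏ a ∈ A, sg (twist P u r (m + a))) ∂signs ≤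
      ∑ p ∈ B, (if p ∈ odd B A n then (1 : ℝ) else 0) * (if p ∈ odd B A m then (1 : ℝ) else 0) := by
  by_cases h : odd B A n = odd B A m
  · refine (int_YY_le P u A n m).trans ?_
    obtain ⟨p, hp⟩ := Finset.nonempty_iff_ne_empty.2 hn0
    have hpB : p ∈ B := (Finset.mem_filter.1 hp).1
    have h1 : (1 : ℝ) ≤ (if p ∈ odd B A n then (1 : ℝ) else 0) *
        (if p ∈ odd B A m then (1 : ℝ) else 0) := by
      rw [← h, if_pos hp, one_mul]
    refine h1.trans (Finset.single_le_sum (f := fun p => (if p ∈ odd B A n then (1 : ℝ) else 0) *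
        (if p ∈ odd B A m then (1 : ℝ) else 0)) (fun q _ => ?_) hpB)
    split_ifs <;> norm_num
  · rw [ortho P hP u B A hB n m hn hm h]
    refine Finset.sum_nonneg fun q _ => ?_
    split_ifs <;> norm_num

theorem second_moment (P : Set ℕ) (hP : ∀ p ∈ P, p.Prime) (u : ℕ → ℤˣ) (B A : Finset ℕ)
    (hB : ∀ p ∈ B, p ∈ P) (N : ℕ) :
    ∫ r, (hpart P u B A N r) ^ 2 ∂signs ≤
      (1 / Real.log N) ^ 2 *
        ∑ p ∈ B, (∑ n ∈ (Finset.Icc 1 N).filter (fun n => p ∈ odd B A n), (1 / n : ℝ)) ^ 2 := by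
  classical
  simp_rw [hpart_sq]
  rw [integral_const_mul]
  apply mul_le_mul_of_nonneg_left _ (sq_nonneg _)
  have hint : ∀ n ∈ (Finset.Icc 1 N).filter (fun n => odd B A n ≠ ∅),
      ∀ m ∈ (Finset.Icc 1 N).filter (fun n => odd B A n ≠ ∅),
      Integrable (fun r : ℕ → ℤˣ => ((1 / n : ℝ) * (1 / m : ℝ)) *
          ((∏ a ∈ A, sg (twist P u r (n + a))) * (∏ a ∈ A, sg (twist P u r (m + a))))) signs :=
    fun n _ m _ => (int_YY P u A n m).const_mul _
  rw [integral_finsetSum _ fun n hn => integrable_finsetSum _ fun m hm => hint n hn m hm]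
  have e1 : ∀ n ∈ (Finset.Icc 1 N).filter (fun n => odd B A n ≠ ∅),
      ∫ r, ∑ m ∈ (Finset.Icc 1 N).filter (fun n => odd B A n ≠ ∅), ((1 / n : ℝ) * (1 / m : ℝ)) *
          ((∏ a ∈ A, sg (twist P u r (n + a))) * (∏ a ∈ A, sg (twist P u r (m + a)))) ∂signs ≤
      ∑ m ∈ (Finset.Icc 1 N).filter (fun n => odd B A n ≠ ∅), ((1 / n : ℝ) * (1 / m : ℝ)) *
        ∑ p ∈ B, (if p ∈ odd B A n then (1 : ℝ) else 0) *
          (if p ∈ odd B A m then (1 : ℝ) else 0) := by
    intro n hn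
    rw [integral_finsetSum _ fun m hm => hint n hn m hm]
    refine Finset.sum_le_sum fun m hm => ?_
    rw [integral_const_mul]
    apply mul_le_mul_of_nonneg_left _ (by positivity)
    rw [Finset.mem_filter, Finset.mem_Icc] at hn hm
    exact int_le P hP u B A hB n m hn.1.1 hm.1.1 hn.2
  refine (Finset.sum_le_sum e1).trans (le_of_eq ?_)
  have e2 : ∀ p ∈ B, (∑ n ∈ (Finset.Icc 1 N).filter (fun n => p ∈ odd B A n), (1 / n : ℝ)) =
      ∑ n ∈ (Finset.Icc 1 N).filter (fun n => odd B A n ≠ ∅),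
        (1 / n : ℝ) * (if p ∈ odd B A n then (1 : ℝ) else 0) := by
    intro p _
    simp_rw [mul_ite, mul_one, mul_zero]
    rw [← Finset.sum_filter, Finset.filter_filter]
    refine Finset.sum_congr ?_ fun _ _ => rfl
    ext n
    simp only [Finset.mem_filter]
    constructor
    · rintro ⟨h1, h2⟩
      exact ⟨h1, Finset.nonempty_iff_ne_empty.1 ⟨p, h2⟩, h2⟩
    · rintro ⟨h1, _, h2⟩
      exact ⟨h1, h2⟩
  rw [Finset.sum_congr (s₁ := B) rfl fun p hp => by rw [e2 p hp, sq, Finset.sum_mul_sum],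
    Finset.sum_comm (s := B)]
  refine Finset.sum_congr rfl fun n _ => ?_
  rw [Finset.sum_comm (s := B)]
  refine Finset.sum_congr rfl fun m _ => ?_
  rw [Finset.mul_sum]
  exact Finset.sum_congr rfl fun p _ => by ring

theorem measurable_hpart (P : Set ℕ) (u : ℕ → ℤˣ) (B A : Finset ℕ) (N : ℕ) :
    Measurable (hpart P u B A N) := by
  unfold hpart
  refine Measurable.const_mul ?_ _
  exact Finset.measurable_fun_sum _ fun n _ => (meas_Y P u A n).div_const _

theorem integrable_hpart_sq (P : Set ℕ) (u : ℕ → ℤˣ) (B A : Finset ℕ) (N : ℕ) :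
    Integrable (fun r => (hpart P u B A N r) ^ 2) signs := by
  simp_rw [hpart_sq]
  refine Integrable.const_mul ?_ _
  exact integrable_finsetSum _ fun n _ => integrable_finsetSum _ fun m _ =>
    (int_YY P u A n m).const_mul _

theorem split (P : Set ℕ) (u : ℕ → ℤˣ) (B A : Finset ℕ) (N : ℕ) (r : ℕ → ℤˣ) :
    ncorr (twist P u r) A N = gpart P u B A N r + hpart P u B A N r := by
  unfold ncorr gpart hpart
  rw [← mul_add]
  congr 1
  exact (Finset.sum_filter_add_sum_filter_not _ _ _).symm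

end Pool.Agent.Helper50.FS
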