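import Pool.Agent.Helper50.FS.Defs

/-!
FS-Walsh. The integral of a Walsh function over the Bernoulli measure.

Plan. `sg` is bounded by 1 and measurable (every function on the finite discrete space `ℤˣ` is;
`measurable_of_countable` or `measurable_from_top`). Use
`MeasureTheory.integral_infinitePi_of_piFinset` (Mathlib, Probability/ProductMeasure.lean) to
reduce to the finite product `Measure.pi` over `A`, then `MeasureTheory.integral_fintype_prod_eq_prod`
and `∫ x, sg x ∂half = 0` (`half` is a combination of two Dirac masses:
`integral_smul_measure`, `integral_add_measure`, `integral_dirac`).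
-/

open Filter Topology MeasureTheory

namespace Pool.Agent.Helper50.FS

private theorem measurable_sg : Measurable sg := by
  have h1 : Measurable fun e : ℤˣ => (e : ℤ) := fun s hs => ⟨s, hs, rfl⟩
  have h2 : Measurable fun z : ℤ => (z : ℝ) := measurable_of_countable _
  exact h2.comp h1

theorem integral_sg_half : ∫ x, sg x ∂half = 0 := by
  unfold half
  have hint : ∀ a : ℤˣ, Integrable sg (Measure.dirac a) := fun a => by
    refine Integrable.of_bound (C := 1) measurable_sg.aestronglyMeasurable ?_
    refine Eventually.of_forall fun x => ?_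
    rcases Int.units_eq_one_or x with h | h <;> simp [sg, h]
  rw [integral_smul_measure, integral_add_measure (hint 1) (hint (-1)),
    integral_dirac' _ _ measurable_sg.stronglyMeasurable,
    integral_dirac' _ _ measurable_sg.stronglyMeasurable]
  simp [sg]

theorem integral_walsh (A : Finset ℤ) (hA : A.Nonempty) :
    ∫ x : X, ∏ a ∈ A, sg (x a) ∂bern = 0 := by
  classical
  have h1 : (fun x : X => ∏ a ∈ A, sg (x a)) =
      fun x : X => (fun y : (∀ _ : A, ℤˣ) => ∏ a : A, sg (y a)) (A.restrict x) := by
    funext x
    exact (Finset.prod_coe_sort A fun a => sg (x a)).symm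
  rw [h1]
  unfold bern
  have hm : Measurable fun y : (∀ _ : A, ℤˣ) => ∏ a : A, sg (y a) :=
    Finset.measurable_prod _ fun a _ => measurable_sg.comp (measurable_pi_apply a)
  have h2 := integral_restrict_infinitePi (μ := fun _ : ℤ => half) (s := A)
    (f := fun y : (∀ _ : A, ℤˣ) => ∏ a : A, sg (y a)) hm.aestronglyMeasurable
  refine h2.trans ?_
  have h3 := integral_fintype_prod_eq_prod (𝕜 := ℝ) (ι := A) (E := fun _ => ℤˣ)
    (fun _ => sg) (μ := fun _ => half)
  refine h3.trans ?_
  rw [Finset.prod_const, integral_sg_half]
  obtain ⟨a, ha⟩ := hA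
  refine zero_pow ?_
  rw [Finset.card_univ]
  have : Nonempty A := ⟨⟨a, ha⟩⟩
  exact Fintype.card_ne_zero

end Pool.Agent.Helper50.FS
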